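import Pool.Agent.H1.SA.Cut

/-!
Far constraints are independent of the labels of a set.
-/

set_option autoImplicit false
set_option linter.unusedSectionVars false

namespace Pool.Agent.H1.SA

open MeasureTheory ProbabilityTheory Finset

variable {B : Type} [Fintype B] [DecidableEq B] {q : ℕ} {K : B × Fin q → B × Fin q → ℝ}

theorem indep_restrict {r : ℕ} (hK : Psd K r) {D F D' : Finset B} (hD : D ⊆ D') (hF : F ⊆ D')
    (hr : D'.card ≤ r) (h0 : ∀ i ∈ hat q D, ∀ j ∈ hat q F, K i j = 0)
    {E1 : Set (EuclideanSpace ℝ (hat q D))} {E2 : Set (EuclideanSpace ℝ (hat q F))}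
    (hE1 : MeasurableSet E1) (hE2 : MeasurableSet E2) :
    (mu K D').real ((EuclideanSpace.restrict₂ (hat_subset hD) ⁻¹' E1) ∩
      (EuclideanSpace.restrict₂ (hat_subset hF) ⁻¹' E2)) =
    (mu K D').real (EuclideanSpace.restrict₂ (hat_subset hD) ⁻¹' E1) *
      (mu K D').real (EuclideanSpace.restrict₂ (hat_subset hF) ⁻¹' E2) := by
  have hG : IsGaussian (mu K D') := by unfold mu; infer_instance
  have hid : HasGaussianLaw (id : EuclideanSpace ℝ (hat q D') → _) (mu K D') :=
    IsGaussian.hasGaussianLaw_id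
  set LX : EuclideanSpace ℝ (hat q D') →L[ℝ] (hat q D → ℝ) :=
    ContinuousLinearMap.pi fun i => (EuclideanSpace.proj ⟨i.1, hat_subset hD i.2⟩ :
      EuclideanSpace ℝ (hat q D') →L[ℝ] ℝ) with hLX
  set LY : EuclideanSpace ℝ (hat q D') →L[ℝ] (hat q F → ℝ) :=
    ContinuousLinearMap.pi fun i => (EuclideanSpace.proj ⟨i.1, hat_subset hF i.2⟩ :
      EuclideanSpace ℝ (hat q D') →L[ℝ] ℝ) with hLY
  have hXY := hid.map (LX.prod LY)
  have hind : IndepFun (fun g : EuclideanSpace ℝ (hat q D') => fun i : hat q D =>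
      g ⟨i.1, hat_subset hD i.2⟩) (fun g => fun j : hat q F => g ⟨j.1, hat_subset hF j.2⟩)
      (mu K D') := by
    refine HasGaussianLaw.indepFun_of_covariance_eval
      (X := fun (i : hat q D) (g : EuclideanSpace ℝ (hat q D')) => g ⟨i.1, hat_subset hD i.2⟩)
      (Y := fun (j : hat q F) (g : EuclideanSpace ℝ (hat q D')) => g ⟨j.1, hat_subset hF j.2⟩)
      ?_ ?_
    · exact hXY
    · intro i j
      have := covariance_eval_multivariateGaussian (μ := (0 : EuclideanSpace ℝ (hat q D')))
        (hK D' hr) ⟨i.1, hat_subset hD i.2⟩ ⟨j.1, hat_subset hF j.2⟩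
      unfold mu
      rw [this]
      exact h0 i.1 i.2 j.1 j.2
  have hind2 := hind.comp (φ := fun x : hat q D → ℝ => (WithLp.toLp 2 x : EuclideanSpace ℝ (hat q D)))
    (ψ := fun x : hat q F → ℝ => (WithLp.toLp 2 x : EuclideanSpace ℝ (hat q F)))
    (by fun_prop) (by fun_prop)
  have h1 := hind2.measure_inter_preimage_eq_mul E1 E2 hE1 hE2
  simp only [measureReal_def]
  rw [← ENNReal.toReal_mul]
  congr 1

theorem viol_restrict {D D' : Finset B} (hD : D ⊆ D') {u v : B} (hu : u ∈ D) (hv : v ∈ D)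
    (π : Equiv.Perm (Fin q)) :
    EuclideanSpace.restrict₂ (hat_subset hD) ⁻¹' (Viol (hat q D) u v π) =
      Viol (hat q D') u v π := by
  ext g
  simp only [Viol, Set.mem_preimage, Set.mem_ofPred_eq]
  refine exists_congr fun a => ?_
  have h1 := lab_restrict hD hu a
  have h2 := lab_restrict hD hv (π a)
  rw [← h1, ← h2]
  rfl

theorem viol_measurable (I : Finset (B × Fin q)) (u v : B) (π : Equiv.Perm (Fin q)) :
    MeasurableSet (Viol I u v π) := by
  have : Viol I u v π = ⋃ a, (Lab I u a \ Lab I v (π a)) := by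
    ext g
    simp [Viol]
  rw [this]
  exact MeasurableSet.iUnion fun a => (lab_measurable _ _ _).diff (lab_measurable _ _ _)

theorem joint_eq {r : ℕ} (hK : Psd K r) {D : Finset B} {A T : Finset (B × Fin q)} (hT : T ⊆ A)
    (hA : ∀ z ∈ A, z.1 ∈ D) (hD : D.card ≤ r) {x y : B × Fin q} (hx : x.1 ∈ D) (hy : y.1 ∈ D)
    (hxy : x ≠ y) :
    joint (PP K) A T x y =
      (mu K D).real (Ev (hat q D) A T ∩ (Lab (hat q D) x.1 x.2 \ Lab (hat q D) y.1 y.2)) := by
  unfold joint
  have hins : ∀ z ∈ insert x (insert y A), z.1 ∈ D := by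
    intro z hz
    rcases mem_insert.1 hz with rfl | hz1
    · exact hx
    · rcases mem_insert.1 hz1 with rfl | hz2
      · exact hy
      · exact hA z hz2
  split_ifs with h
  · obtain ⟨h1, h2⟩ := h
    rw [PP_eq hK hins hD]
    congr 1
    ext g
    simp only [Ev, Set.mem_inter_iff, Set.mem_ofPred_eq, Set.mem_sdiff]
    constructor
    · intro hg
      refine ⟨fun z hz => ?_, (hg x (mem_insert_self _ _)).2 (mem_insert_self _ _), fun h3 => ?_⟩
      · rw [hg z (mem_insert_of_mem (mem_insert_of_mem hz)), mem_insert]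
        constructor
        · rintro (rfl | h4)
          · exact h1 hz
          · exact h4
        · exact Or.inr
      · have h4 := (hg y (mem_insert_of_mem (mem_insert_self _ _))).1 h3
        rcases mem_insert.1 h4 with h5 | h5
        · exact hxy h5.symm
        · exact h2 h5
    · rintro ⟨h3, h4, h5⟩ z hz
      rcases mem_insert.1 hz with rfl | hz1
      · simp [h4]
      · rcases mem_insert.1 hz1 with rfl | hz2
        · simp only [h5, mem_insert, false_iff, not_or]
          exact ⟨hxy.symm, h2⟩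
        · rw [h3 z hz2, mem_insert]
          constructor
          · exact Or.inr
          · rintro (rfl | h6)
            · exact h1 hz2
            · exact h6
  · have : Ev (hat q D) A T ∩ (Lab (hat q D) x.1 x.2 \ Lab (hat q D) y.1 y.2) = ∅ := by
      ext g
      simp only [Ev, Set.mem_inter_iff, Set.mem_ofPred_eq, Set.mem_sdiff,
        Set.mem_empty_iff_false, iff_false, not_and]
      intro h3 h4 h5
      apply h
      refine ⟨fun hxA => (h3 x hxA).1 h4, fun hyT => h5 ?_⟩
      exact (h3 y (hT hyT)).2 hyT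
    rw [this]
    simp

/-- Any edge. -/
theorem joint_any {r : ℕ} (hK : Psd K r) {A T : Finset (B × Fin q)} (hT : T ⊆ A)
    (hA : A.card + 2 ≤ r) {x y : B × Fin q} (hxy : x ≠ y) :
    joint (PP K) A T x y + joint (PP K) A T y x ≤ PP K A T := by
  set D : Finset B := insert x.1 (insert y.1 (A.image Prod.fst)) with hD
  have hDc : D.card ≤ r := by
    have h1 : (A.image Prod.fst).card ≤ A.card := card_image_le
    have h2 := card_insert_le y.1 (A.image Prod.fst)
    have h3 := card_insert_le x.1 (insert y.1 (A.image Prod.fst))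
    rw [hD]
    omega
  have hAD : ∀ z ∈ A, z.1 ∈ D := fun z hz =>
    mem_insert_of_mem (mem_insert_of_mem (mem_image_of_mem _ hz))
  have hxD : x.1 ∈ D := mem_insert_self _ _
  have hyD : y.1 ∈ D := mem_insert_of_mem (mem_insert_self _ _)
  rw [joint_eq hK hT hAD hDc hxD hyD hxy, joint_eq hK hT hAD hDc hyD hxD hxy.symm,
    PP_eq hK hAD hDc, ← measureReal_union]
  · refine measureReal_mono ?_ (measure_ne_top _ _)
    rintro g (hg | hg)
    · exact hg.1
    · exact hg.1
  · refine Set.disjoint_left.2 fun g h1 h2 => ?_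
    exact h1.2.2 h2.2.1
  · exact (ev_measurable _ _ _).inter ((lab_measurable _ _ _).diff (lab_measurable _ _ _))

theorem joint_nonneg {A T : Finset (B × Fin q)} (x y : B × Fin q) :
    0 ≤ joint (PP K) A T x y := by
  unfold joint
  split_ifs
  · exact measureReal_nonneg
  · exact le_rfl

/-- The edges of a far constraint. -/
theorem joint_far {r : ℕ} (hq : 0 < q) (hK : Psd K r) (hK1 : ∀ x, K x x = 1)
    (hKle : ∀ x y, K x y ≤ 1) {A T : Finset (B × Fin q)} (hT : T ⊆ A) (hA : A.card + 2 ≤ r)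
    {u v : B} (huv : u ≠ v) (π : Equiv.Perm (Fin q)) {κ t : ℝ} (ht : 0 < t)
    (hκ : ∀ a, κ ≤ K (u, a) (v, π a)) (h0 : ∀ a b, a ≠ b → K (u, a) (u, b) = 0)
    (hfu : ∀ z ∈ A, ∀ c a, K (z.1, c) (u, a) = 0) (hfv : ∀ z ∈ A, ∀ c a, K (z.1, c) (v, a) = 0) :
    ∑ a, (joint (PP K) A T (u, a) (v, π a) + joint (PP K) A T (v, π a) (u, a)) ≤
      PP K A T * (2 * (q * ((2 - 2 * κ) / t ^ 2) + q ^ 2 * (2 * t))) := by
  set D0 : Finset B := A.image Prod.fst with hD0
  set F : Finset B := {u, v} with hF
  set D : Finset B := D0 ∪ F with hD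
  have hFc : F.card ≤ 2 := card_le_two
  have hDc : D.card ≤ r := by
    have h1 : D0.card ≤ A.card := card_image_le
    have h2 := card_union_le D0 F
    rw [hD]
    omega
  have hsD : D0 ⊆ D := subset_union_left
  have hsF : F ⊆ D := subset_union_right
  have huF : u ∈ F := by simp [hF]
  have hvF : v ∈ F := by simp [hF]
  have hAD0 : ∀ z ∈ A, z.1 ∈ D0 := fun z hz => mem_image_of_mem _ hz
  have hAD : ∀ z ∈ A, z.1 ∈ D := fun z hz => hsD (hAD0 z hz)
  have hne : ∀ a, ((u, a) : B × Fin q) ≠ (v, π a) := fun a h => huv (congrArg Prod.fst h)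
  have hviol := viol_le hK hK1 hKle D hDc (hsF huF) (hsF hvF) π ht hκ h0
  -- independence
  have hind := indep_restrict hK hsD hsF hDc (by
    intro i hi j hj
    obtain ⟨z, hz, hz2⟩ := mem_image.1 (mem_hat.1 hi)
    have hj' := mem_hat.1 hj
    rcases mem_insert.1 hj' with h | h
    · have h3 := hfu z hz i.2 j.2
      rw [hz2, ← h] at h3
      exact h3
    · rw [mem_singleton] at h
      have h3 := hfv z hz i.2 j.2
      rw [hz2, ← h] at h3
      exact h3) (ev_measurable (hat q D0) A T) (viol_measurable (hat q F) u v π)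
  rw [ev_restrict hsD hAD0 T, viol_restrict hsF huF hvF π] at hind
  have hinter : (mu K D).real (Ev (hat q D) A T ∩ Viol (hat q D) u v π) ≤
      PP K A T * (q * ((2 - 2 * κ) / t ^ 2) + q ^ 2 * (2 * t)) := by
    rw [hind, ← PP_eq hK hAD hDc]
    refine mul_le_mul_of_nonneg_left hviol ?_
    exact measureReal_nonneg
  have s1 : ∑ a, joint (PP K) A T (u, a) (v, π a) ≤
      (mu K D).real (Ev (hat q D) A T ∩ Viol (hat q D) u v π) := by
    have : ∑ a, joint (PP K) A T (u, a) (v, π a) =
        (mu K D).real (⋃ a ∈ (univ : Finset (Fin q)),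
          (Ev (hat q D) A T ∩ (Lab (hat q D) u a \ Lab (hat q D) v (π a)))) := by
      rw [measureReal_biUnion_finset]
      · refine sum_congr rfl fun a _ => ?_
        rw [joint_eq hK hT hAD hDc (hsF huF) (hsF hvF) (hne a)]
      · intro a _ b _ hab
        exact Set.disjoint_left.2 fun g h2 h3 => hab (isM_unique h2.2.1 h3.2.1)
      · intro a _
        exact (ev_measurable _ _ _).inter ((lab_measurable _ _ _).diff (lab_measurable _ _ _))
    rw [this]
    refine measureReal_mono ?_ (measure_ne_top _ _)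
    intro g hg
    simp only [Set.mem_iUnion, mem_univ, exists_prop, true_and] at hg
    obtain ⟨a, ha⟩ := hg
    exact ⟨ha.1, a, ha.2.1, ha.2.2⟩
  have s2 : ∑ a, joint (PP K) A T (v, π a) (u, a) ≤
      (mu K D).real (Ev (hat q D) A T ∩ Viol (hat q D) u v π) := by
    have : ∑ a, joint (PP K) A T (v, π a) (u, a) =
        (mu K D).real (⋃ a ∈ (univ : Finset (Fin q)),
          (Ev (hat q D) A T ∩ (Lab (hat q D) v (π a) \ Lab (hat q D) u a))) := by
      rw [measureReal_biUnion_finset]
      · refine sum_congr rfl fun a _ => ?_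
        rw [joint_eq hK hT hAD hDc (hsF hvF) (hsF huF) (hne a).symm]
      · intro a _ b _ hab
        exact Set.disjoint_left.2 fun g h2 h3 =>
          hab (π.injective (isM_unique h2.2.1 h3.2.1))
      · intro a _
        exact (ev_measurable _ _ _).inter ((lab_measurable _ _ _).diff (lab_measurable _ _ _))
    rw [this]
    refine measureReal_mono ?_ (measure_ne_top _ _)
    intro g hg
    simp only [Set.mem_iUnion, mem_univ, exists_prop, true_and] at hg
    obtain ⟨a, ha⟩ := hg
    obtain ⟨a', ha'⟩ := exists_isM hq (xt (hat q D) g u)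
    refine ⟨ha.1, a', ha', fun h => ?_⟩
    have h3 : a = a' := π.injective (isM_unique ha.2.1 h)
    rw [h3] at ha
    exact ha.2.2 ha'
  rw [sum_add_distrib]
  have e : PP K A T * (2 * (q * ((2 - 2 * κ) / t ^ 2) + q ^ 2 * (2 * t))) =
    2 * (PP K A T * (q * ((2 - 2 * κ) / t ^ 2) + q ^ 2 * (2 * t))) := by ring
  rw [e]
  linarith

end Pool.Agent.H1.SA
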