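import Pool.Agent.H1.SA.Lift
import Pool.Agent.H1.SA.Indep
import Pool.Graph.R_seed8.W939.SSE.Gph

/-!
Assembly with explicit parameters.
-/

set_option autoImplicit false
set_option linter.unusedSectionVars false
set_option maxHeartbeats 1000000

namespace Pool.Agent.H1.SA

open Finset Pool.Agent.W939.SSE

/-! ### Transport -/

section transport

variable {V V' : Type} [Fintype V] [DecidableEq V] [Fintype V'] [DecidableEq V'] {r k : ℕ}
  {P : Finset V → Finset V → ℝ}

theorem IsSA.transport (e : V ≃ V') (h : IsSA r k P) :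
    IsSA r k (fun A T : Finset V' => P (A.map e.symm.toEmbedding) (T.map e.symm.toEmbedding)) := by
  refine ⟨?_, ?_, ?_, ?_⟩
  · intro A T hT hA
    exact h.nonneg _ _ (map_subset_map.2 hT) (by rw [card_map]; exact hA)
  · simpa using h.total
  · intro A T hT hA x hx
    have := h.consistent _ _ ((map_subset_map (f := e.symm.toEmbedding)).2 hT)
      (by rw [card_map]; exact hA) (e.symm x) (by simpa using hx)
    simpa [map_insert] using this
  · intro A T hT hA
    have h1 := h.size _ _ ((map_subset_map (f := e.symm.toEmbedding)).2 hT)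
      (by rw [card_map]; exact hA)
    rw [card_map] at h1
    rw [← h1]
    congr 1
    apply sum_equiv e.symm
    · intro x
      simp
    · intro x _
      simp [map_insert]

theorem IsSA.pair_le (h : IsSA r k P) (hr : 2 ≤ r) {x y : V} (hxy : x ≠ y) :
    P {x, y} {x} + P {x, y} {y} ≤ 1 := by
  have h1 := h.consistent ∅ ∅ (by simp) (by simp; omega) x (by simp)
  have h2 := h.consistent {x} ∅ (by simp) (by simp; omega) y (by simp [hxy.symm])
  have h3 := h.consistent {x} {x} (by simp) (by simp; omega) y (by simp [hxy.symm])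
  have e1 : insert y ({x} : Finset V) = {x, y} := by rw [pair_comm]
  have e2 : insert x (∅ : Finset V) = {x} := by simp
  have e3 : insert y (∅ : Finset V) = {y} := by simp
  rw [e2] at h1
  rw [e1, e3] at h2
  rw [e1] at h3
  have h4 := h.nonneg {x, y} ∅ (by simp) (by rw [card_pair hxy]; exact hr)
  have h5 := h.nonneg {x, y} {x, y} le_rfl (by rw [card_pair hxy]; exact hr)
  have h6 := h.total
  linarith

theorem IsSA.le_one (h : IsSA r k P) (hr : 2 ≤ r) {x y : V} (hxy : x ≠ y) :
    P {x, y} {x} ≤ 1 := by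
  have h1 := h.pair_le hr hxy
  have h2 := h.nonneg {x, y} {y} (by simp) (by rw [card_pair hxy]; exact hr)
  linarith

end transport

/-! ### Positive semidefinite kernel -/

theorem psd_of_KK {B : Type} [Fintype B] [DecidableEq B] {q : ℕ}
    {G : SimpleGraph (B × Fin q)} {m s r : ℕ} {lam τ' : ℝ} (h0 : 0 ≤ lam) (h1 : lam ≤ 1)
    (hl : lam + lam ^ m ≤ 1) (hm : 0 < m) (hG : Peelable G s m)
    (hrs : (r * q) ^ 2 * (m + 1) ≤ s) (hτ1 : τ' ≤ 1)
    (hτ : (r * q : ℕ) * ((4 * s + 1) * lam ^ m) ≤ τ') : Psd (KK G m lam τ') r := by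
  classical
  intro D hD
  have hc : (hat q D).card ≤ r * q := by
    unfold hat
    rw [card_product, card_univ, Fintype.card_fin]
    exact Nat.mul_le_mul_right _ hD
  apply Matrix.PosSemidef.of_dotProduct_mulVec_nonneg
  · ext i j
    simp only [Matrix.conjTranspose_apply, Mt, Matrix.of_apply, star_trivial]
    exact KK_symm _ _ _
  · intro x
    set c : B × Fin q → ℝ := fun v => if h : v ∈ hat q D then x ⟨v, h⟩ else 0 with hcdef
    have h2 := KK_psd (τ := τ') h0 h1 hl hm hG (hat q D)
      ((Nat.mul_le_mul_right _ (Nat.pow_le_pow_left hc 2)).trans hrs) hτ1 (by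
        refine le_trans ?_ hτ
        have h3 : ((hat q D).card : ℝ) ≤ ((r * q : ℕ) : ℝ) := by exact_mod_cast hc
        have h4 : 0 ≤ (4 * (s : ℝ) + 1) * lam ^ m := by
          have := pow_nonneg h0 m
          positivity
        exact mul_le_mul_of_nonneg_right h3 h4) c
    refine h2.trans (le_of_eq ?_)
    simp only [dotProduct, Matrix.mulVec, star_trivial, Mt, Matrix.of_apply]
    rw [← sum_coe_sort (hat q D)]
    refine sum_congr rfl fun i _ => ?_
    rw [mul_sum, ← sum_coe_sort (hat q D)]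
    refine sum_congr rfl fun j _ => ?_
    have e1 : c i = x i := by simp only [hcdef]; rw [dif_pos i.2]
    have e2 : c j = x j := by simp only [hcdef]; rw [dif_pos j.2]
    rw [e1, e2]
    ring

theorem Peelable.mono {V : Type} {G : SimpleGraph V} {s s' m : ℕ} (h : Peelable G s m)
    (hs : s' ≤ s) : Peelable G s' m := fun W hne hW => h W hne (hW.trans hs)

/-! ### Bad constraints -/

variable {ι : Type} [Fintype ι] [DecidableEq ι] {N q g : ℕ} {τ : ι → Zt N q}

theorem card_bad {R s0 : ℕ} (hR : 1 ≤ R) (hgs : g ≤ s0)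
    (hsp : ∀ A : Finset (Fin N ⊕ Fin N), A.card ≤ s0 → R * cntIn A τ ≤ (R + 1) * A.card)
    (S : Finset ι) (hS : ∀ i ∈ S, ¬ Gd g τ i) : S.card ≤ 2 * g * (tight g τ).card := by
  classical
  have h1 : S ⊆ (tight g τ).biUnion fun A => univ.filter fun i => InA A (τ i) := by
    intro i hi
    have h2 := hS i hi
    unfold Gd at h2
    push Not at h2
    obtain ⟨A, hA1, hA2, hA3⟩ := h2
    rw [mem_biUnion]
    refine ⟨A, mem_filter.2 ⟨mem_univ _, ?_, hA1, hA3⟩, mem_filter.2 ⟨mem_univ _, hA2⟩⟩
    exact card_pos.2 ⟨_, hA2.1⟩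
  refine (card_le_card h1).trans (card_biUnion_le.trans ?_)
  rw [Nat.mul_comm (2 * g), ← smul_eq_mul]
  refine sum_le_card_nsmul _ _ _ fun A hA => ?_
  have hA' := (mem_filter.1 hA).2
  have h3 := hsp A (hA'.2.1.trans hgs)
  have h4 : (univ.filter fun i => InA A (τ i)).card = cntIn A τ := rfl
  rw [h4]
  have h5 : R * cntIn A τ ≤ R * (2 * A.card) := by
    refine h3.trans ?_
    have : R + 1 ≤ 2 * R := by omega
    calc (R + 1) * A.card ≤ 2 * R * A.card := Nat.mul_le_mul_right _ this
      _ = R * (2 * A.card) := by ring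
  have h6 : cntIn A τ ≤ 2 * A.card := Nat.le_of_mul_le_mul_left h5 (by omega)
  have h7 := hA'.2.1
  omega

/-! ### Cuts as pairs -/

theorem cutSize_gph (E : Finset ((Fin N × Fin q) × (Fin N × Fin q)))
    (S : Finset (Fin ((N + N) * q))) :
    (E.filter (fun e => ¬ ((en e).1 ∈ S ↔ (en e).2 ∈ S))).card ≤ cutSize (gph E) S := by
  classical
  unfold cutSize
  apply card_le_card_of_injOn (fun e => if (en e).1 ∈ S then ((en e).1, (en e).2) else
    ((en e).2, (en e).1))
  · intro e he
    have he' := mem_filter.1 (mem_coe.1 he)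
    apply mem_coe.2
    rw [mem_filter]
    refine ⟨mem_univ _, ?_⟩
    dsimp only
    split_ifs with h
    · refine ⟨⟨e, he'.1, Or.inl rfl⟩, h, fun h2 => he'.2 ⟨fun _ => h2, fun _ => h⟩⟩
    · refine ⟨⟨e, he'.1, Or.inr rfl⟩, ?_, h⟩
      by_contra h2
      exact he'.2 ⟨fun h3 => absurd h3 h, fun h3 => absurd h3 h2⟩
  · intro e _ e' _ h
    simp only at h
    split_ifs at h with h1 h2 h2
    · exact en_inj (Prod.ext (Prod.mk.inj h).1 (Prod.mk.inj h).2)
    · exact absurd (Prod.mk.inj h).1 (fun h3 => en_swap h3)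
    · exact absurd (Prod.mk.inj h).2 (fun h3 => en_swap h3)
    · exact en_inj (Prod.ext (Prod.mk.inj h).2 (Prod.mk.inj h).1)

theorem sum_gph (E : Finset ((Fin N × Fin q) × (Fin N × Fin q)))
    (F : Fin ((N + N) * q) → Fin ((N + N) * q) → ℝ)
    [DecidablePred fun p : Fin ((N + N) * q) × Fin ((N + N) * q) => (gph E).Adj p.1 p.2] :
    ∑ p ∈ univ.filter (fun p : Fin ((N + N) * q) × Fin ((N + N) * q) => (gph E).Adj p.1 p.2),
      F p.1 p.2 = ∑ e ∈ E, (F (en e).1 (en e).2 + F (en e).2 (en e).1) := by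
  classical
  have h1 : univ.filter (fun p : Fin ((N + N) * q) × Fin ((N + N) * q) =>
      (gph E).Adj p.1 p.2) = E.image en ∪ E.image (fun e => (en e).swap) := by
    ext p
    simp only [mem_filter, mem_univ, true_and, mem_union, mem_image]
    constructor
    · rintro ⟨e, he, h | h⟩
      · exact Or.inl ⟨e, he, h.symm⟩
      · refine Or.inr ⟨e, he, ?_⟩
        rw [← h]
        rfl
    · rintro (⟨e, he, rfl⟩ | ⟨e, he, rfl⟩)
      · exact ⟨e, he, Or.inl rfl⟩
      · exact ⟨e, he, Or.inr rfl⟩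
  have h2 : Disjoint (E.image en) (E.image (fun e => (en e).swap)) := by
    rw [Finset.disjoint_left]
    intro p hp hp'
    obtain ⟨e, _, rfl⟩ := mem_image.1 hp
    obtain ⟨e', _, h⟩ := mem_image.1 hp'
    have h3 : (en e').2 = (en e).1 := congrArg Prod.fst h
    exact en_swap h3.symm
  rw [h1, sum_union h2, sum_image (fun e _ e' _ h => en_inj h),
    sum_image (fun e _ e' _ h => en_inj (Prod.swap_injective h)), ← sum_add_distrib]
  refine sum_congr rfl fun e _ => ?_
  simp only [Prod.fst_swap, Prod.snd_swap]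

end Pool.Agent.H1.SA
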