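import Pool.Agent.H1.SA.Near

/-!
The theorem with explicit parameters.
-/

set_option autoImplicit false
set_option linter.unusedSectionVars false
set_option maxHeartbeats 1000000

namespace Pool.Agent.H1.SA

open Finset Pool.Agent.W939.SSE

/-- The numbering of the vertices. -/
def nvE (N q : ℕ) : (Fin N ⊕ Fin N) × Fin q ≃ Fin ((N + N) * q) where
  toFun := nv
  invFun := vn
  left_inv := vn_nv
  right_inv := nv_vn

theorem sum_union_le_add {α : Type} [DecidableEq α] {A B : Finset α} {f : α → ℝ}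
    (hf : ∀ x, 0 ≤ f x) : ∑ x ∈ A ∪ B, f x ≤ ∑ x ∈ A, f x + ∑ x ∈ B, f x := by
  rw [← sum_union_inter]
  have : 0 ≤ ∑ x ∈ A ∩ B, f x := sum_nonneg fun x _ => hf x
  linarith

theorem sum_image_le' {α β : Type} [DecidableEq α] [DecidableEq β] (A : Finset α) (g : α → β)
    {f : β → ℝ} (hf : ∀ x, 0 ≤ f x) : ∑ y ∈ A.image g, f y ≤ ∑ x ∈ A, f (g x) := by
  induction A using Finset.induction_on with
  | empty => simp
  | insert a A ha ih =>
    rw [image_insert, sum_insert ha]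
    by_cases h : g a ∈ A.image g
    · rw [insert_eq_self.2 h]
      have := hf (g a)
      linarith
    · rw [sum_insert h]
      linarith

theorem core_sa {N q Q R s0 g m r : ℕ} {ε lam τ' t : ℝ} (hN : 0 < N) (hq : 2 ≤ q) (hQ : 1 ≤ Q)
    (hNQ : Q ^ 3 ≤ N) (hε : 0 < ε) (hε1 : ε ≤ 1)
    (hQε : 8 * (q : ℝ) * (q + 1) ≤ ε ^ 2 * Q ^ 2)
    (hbig : 2 * (Q ^ 2) ^ 2 + q * (60 * N * Q) < Q ^ 2 * (N * q)) (hR : 1 ≤ R) (hg : 2 ≤ g)
    (hgs : g ≤ s0)
    (hbigR : (10 * Real.exp 1 ^ 2 * Q ^ 2) ^ R * (Real.exp 1 * s0 * Q ^ 2 / (4 * N)) ≤ 1)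
    (hm : 0 < m) (hmg : 2 * m ≤ g) (hmR : 7 * m * (2 / (R : ℝ)) < 1)
    (hrs : (r * q) ^ 2 * (m + 1) ≤ s0) (h0 : 0 ≤ lam) (h1 : lam ≤ 1) (hl : lam + lam ^ m ≤ 1)
    (hτ1 : τ' ≤ 1)
    (hτ : (r * q : ℕ) * ((4 * ((r * q) ^ 2 * (m + 1) : ℕ) + 1) * lam ^ m) ≤ τ') (ht : 0 < t) :
    ∃ G : SimpleGraph (Fin ((N + N) * q)), (∀ x, (G.neighborSet x).ncard = Q ^ 2) ∧
      (∀ S : Finset (Fin ((N + N) * q)), S.card = N + N →
        (1 - (1 / (q : ℝ) + ε + 120 * q / Q)) * ((Q ^ 2 * S.card : ℕ) : ℝ) ≤ cutSize G S) ∧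
      ∃ P : Finset (Fin ((N + N) * q)) → Finset (Fin ((N + N) * q)) → ℝ,
        IsSolution G r (N + N) (120 * q * N * Q +
          q * (2 * g * (10 * (Real.exp 1 ^ 2 * (Q : ℝ) ^ 2) ^ g) + 120 * q * N * Q) +
          q * (r * ((Q : ℝ) ^ 2 + 1) ^ m * (Q : ℝ) ^ 2) +
          (Q : ℝ) ^ 2 * N *
            (2 * (q * ((2 - 2 * ((1 - τ') * lam)) / t ^ 2) + q ^ 2 * (2 * t)))) P := by
  classical
  obtain ⟨τ, hint, hdeg, hsp, htight⟩ := exists_tau (ι := Fin (Q ^ 2 * N)) (N := N) (q := q)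
    (Q := Q) (R := R) (s0 := s0) (g := g) (ε := ε) hN hq (by simp) hQ hNQ hε hε1 hQε hR hgs hbigR
  obtain ⟨E, hEl, hEr, hE0⟩ := exists_E (Q := Q) τ (by simp) hdeg hbig
  have hq0 : 0 < q := by omega
  set gd : Fin (Q ^ 2 * N) → Prop := fun i => Gd g τ i ∧ ∀ a, lift τ (i, a) ∈ E with hgddef
  have hgd : ∀ i, gd i → Gd g τ i := fun i h => h.1
  have hgE : ∀ i, gd i → ∀ a, lift τ (i, a) ∈ E := fun i h => h.2
  set L := Lg gd τ with hL
  have hR0 : (0 : ℝ) < R := by exact_mod_cast hR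
  have hpeel : Peelable L s0 m := peelable_of_sparse (Lg_forest hgd hg) hm hmg
    (by positivity : (0 : ℝ) ≤ 2 / (R : ℝ)) hmR (fun W hW => Lg_sparse hR hsp W hW)
  have hpsd : Psd (KK L m lam τ') r := psd_of_KK h0 h1 hl hm (hpeel.mono hrs) le_rfl hτ1 hτ
  have hK1 : ∀ x, KK L m lam τ' x x = 1 := KK_self h0 h1 τ'
  have hτ0 : 0 ≤ τ' := le_trans (by have := pow_nonneg h0 m; positivity) hτ
  have hKle : ∀ x y, KK L m lam τ' x y ≤ 1 := by
    intro x y
    unfold KK
    have h3 : kk L m lam x y ≤ 1 := kk_le_one h0 h1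
    have h4 : 0 ≤ kk L m lam x y := kk_nonneg h0 h1
    split_ifs <;> nlinarith
  have hK0 : ∀ (v : Fin N ⊕ Fin N) (a b : Fin q), a ≠ b → KK L m lam τ' (v, a) (v, b) = 0 := by
    intro v a b hab
    unfold KK
    rw [kk_zero (fun n hn => Lg_far hgd hg hab n (by omega)) h0 h1]
    have : ((v, a) : (Fin N ⊕ Fin N) × Fin q) ≠ (v, b) := fun h => hab (congrArg Prod.snd h)
    rw [if_neg this]
    ring
  have hSA0 := isSA_PP hq0 hpsd
  have hcard : Fintype.card (Fin N ⊕ Fin N) = N + N := by simp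
  rw [hcard] at hSA0
  have hSA := hSA0.transport (nvE N q)
  set P : Finset (Fin ((N + N) * q)) → Finset (Fin ((N + N) * q)) → ℝ :=
    fun A T => PP (KK L m lam τ') (A.map (nvE N q).symm.toEmbedding)
      (T.map (nvE N q).symm.toEmbedding) with hP
  refine ⟨gph E, ncard_gph E hEl hEr, ?_, P, ⟨hSA, ?_⟩⟩
  · intro S hS
    have g1 := cut_count E hEl hEr S
    have g2 := cutSize_gph E S
    have g3 := internal_le τ E (lpart S) (rpart S)
    have g4 := hint (lpart S) (rpart S) (by rw [card_parts, hS]; ring)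
    have hQ0 : (0 : ℝ) < Q := by exact_mod_cast hQ
    have g2' : ((E.filter (fun e => ¬ ((en e).1 ∈ S ↔ (en e).2 ∈ S))).card : ℝ) ≤
        cutSize (gph E) S := by exact_mod_cast g2
    refine le_trans ?_ g2'
    have g1' : ((Q ^ 2 * S.card : ℕ) : ℝ) =
        ((E.filter (fun e => ¬ ((en e).1 ∈ S ↔ (en e).2 ∈ S))).card : ℝ) +
        2 * ((E.filter (fun e => e.1 ∈ lpart S ∧ e.2 ∈ rpart S)).card : ℝ) := by
      exact_mod_cast g1
    have g3' : ((E.filter (fun e => e.1 ∈ lpart S ∧ e.2 ∈ rpart S)).card : ℝ) ≤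
        ((∑ i, Xin (lpart S) (rpart S) (τ i) : ℕ) : ℝ) + ((E \ E0 τ).card : ℝ) := by
      exact_mod_cast g3
    have g5 : ((E \ E0 τ).card : ℝ) ≤ 2 * (q * (60 * N * Q)) := by exact_mod_cast hE0
    have g6 : ((Q ^ 2 * S.card : ℕ) : ℝ) = (Q : ℝ) ^ 2 * (2 * N) := by
      rw [hS]; push_cast; ring
    have g8 : (Q : ℝ) ^ 2 * (2 * N) * (1 / (q : ℝ) + ε + 120 * q / Q) =
        2 * ((Q : ℝ) ^ 2 * N * (1 / q + ε)) + 2 * (2 * (q * (60 * N * Q))) := by
      field_simp
      ring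
    rw [g6] at g1' ⊢
    have g9 : (1 - (1 / (q : ℝ) + ε + 120 * q / Q)) * ((Q : ℝ) ^ 2 * (2 * N)) =
      (Q : ℝ) ^ 2 * (2 * N) - (Q : ℝ) ^ 2 * (2 * N) * (1 / (q : ℝ) + ε + 120 * q / Q) := by ring
    rw [g9]
    linarith
  · intro A T hTA hAr
    unfold cutValue
    rw [sum_gph E (fun x y => joint P A T x y)]
    -- pull back to the original vertices
    set A' : Finset ((Fin N ⊕ Fin N) × Fin q) := A.map (nvE N q).symm.toEmbedding with hA'
    set T' : Finset ((Fin N ⊕ Fin N) × Fin q) := T.map (nvE N q).symm.toEmbedding with hT'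
    have hTA' : T' ⊆ A' := map_subset_map.2 hTA
    have hAr' : A'.card + 2 ≤ r := by rw [hA', card_map]; exact hAr
    have hjoint : ∀ x y, joint P A T x y =
        joint (PP (KK L m lam τ')) A' T' ((nvE N q).symm x) ((nvE N q).symm y) := by
      intro x y
      unfold joint
      have e1 : (nvE N q).symm x ∈ A' ↔ x ∈ A := by simp [hA']
      have e2 : (nvE N q).symm x ∈ T' ↔ x ∈ T := by simp [hT']
      have e3 : (nvE N q).symm y ∈ T' ↔ y ∈ T := by simp [hT']
      simp only [e1, e2, e3, hP, map_insert, Equiv.coe_toEmbedding, ← hA', ← hT']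
    set PA : ℝ := P A T with hPA
    have hPA0 : 0 ≤ PA := hSA.nonneg A T hTA (by omega)
    have hPA' : PA = PP (KK L m lam τ') A' T' := rfl
    set c : (Fin N × Fin q) × (Fin N × Fin q) → ℝ := fun e =>
      joint P A T (en e).1 (en e).2 + joint P A T (en e).2 (en e).1 with hc
    have hs1 : ∀ e : (Fin N × Fin q) × (Fin N × Fin q),
        (nvE N q).symm (en e).1 = (Sum.inl e.1.1, e.1.2) := by
      intro e
      change vn (nv _) = _
      rw [vn_nv]
    have hs2 : ∀ e : (Fin N × Fin q) × (Fin N × Fin q),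
        (nvE N q).symm (en e).2 = (Sum.inr e.2.1, e.2.2) := by
      intro e
      change vn (nv _) = _
      rw [vn_nv]
    have hcval : ∀ e, c e = joint (PP (KK L m lam τ')) A' T' (Sum.inl e.1.1, e.1.2)
        (Sum.inr e.2.1, e.2.2) + joint (PP (KK L m lam τ')) A' T' (Sum.inr e.2.1, e.2.2)
        (Sum.inl e.1.1, e.1.2) := by
      intro e
      simp only [hc]
      rw [hjoint, hjoint, hs1, hs2]
    have hc0 : ∀ e, 0 ≤ c e := by
      intro e
      rw [hcval]
      exact add_nonneg (joint_nonneg _ _) (joint_nonneg _ _)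
    have hc1 : ∀ e, c e ≤ PA := by
      intro e
      rw [hcval, hPA']
      exact joint_any hpsd hTA' hAr' (by simp)
    -- split the edges
    set D0 : Finset (Fin N ⊕ Fin N) := A'.image Prod.fst with hD0
    set NI : Finset (Fin (Q ^ 2 * N)) := near gd τ D0 m with hNI
    set GI : Finset (Fin (Q ^ 2 * N)) := univ.filter fun i => gd i ∧ i ∉ NI with hGI
    set BI : Finset (Fin (Q ^ 2 * N)) := univ.filter fun i => ¬ gd i with hBI
    have hsub : E ⊆ ((E \ E0 τ) ∪ ((BI ∪ NI) ×ˢ (univ : Finset (Fin q))).image (lift τ)) ∪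
        (GI ×ˢ (univ : Finset (Fin q))).image (lift τ) := by
      intro e he
      by_cases h3 : e ∈ E0 τ
      · obtain ⟨⟨i, a⟩, _, rfl⟩ := mem_image.1 h3
        by_cases h4 : gd i
        · by_cases h5 : i ∈ NI
          · exact mem_union_left _ (mem_union_right _ (mem_image_of_mem _ (mem_product.2
              ⟨mem_union_right _ h5, mem_univ _⟩)))
          · exact mem_union_right _ (mem_image_of_mem _ (mem_product.2
              ⟨mem_filter.2 ⟨mem_univ _, h4, h5⟩, mem_univ _⟩))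
        · exact mem_union_left _ (mem_union_right _ (mem_image_of_mem _ (mem_product.2
            ⟨mem_union_left _ (mem_filter.2 ⟨mem_univ _, h4⟩), mem_univ _⟩)))
      · exact mem_union_left _ (mem_union_left _ (mem_sdiff.2 ⟨he, h3⟩))
    have hsum : ∑ e ∈ E, c e ≤ (∑ e ∈ (E \ E0 τ), c e +
        ∑ e ∈ ((BI ∪ NI) ×ˢ (univ : Finset (Fin q))).image (lift τ), c e) +
        ∑ e ∈ (GI ×ˢ (univ : Finset (Fin q))).image (lift τ), c e := by
      refine (sum_le_sum_of_subset_of_nonneg hsub fun e _ _ => hc0 e).trans ?_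
      refine (sum_union_le_add hc0).trans ?_
      have := sum_union_le_add (A := E \ E0 τ)
        (B := ((BI ∪ NI) ×ˢ (univ : Finset (Fin q))).image (lift τ)) hc0
      linarith
    have hp1 : ∑ e ∈ (E \ E0 τ), c e ≤ (120 * q * N * Q) * PA := by
      calc ∑ e ∈ (E \ E0 τ), c e ≤ ∑ e ∈ (E \ E0 τ), PA := sum_le_sum fun e _ => hc1 e
        _ = ((E \ E0 τ).card : ℝ) * PA := by rw [sum_const, nsmul_eq_mul]
        _ ≤ ((2 * (q * (60 * N * Q)) : ℕ) : ℝ) * PA := by
            apply mul_le_mul_of_nonneg_right _ hPA0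
            exact_mod_cast hE0
        _ = (120 * q * N * Q) * PA := by push_cast; ring
    have hBIc : (BI.card : ℝ) ≤ 2 * g * (10 * (Real.exp 1 ^ 2 * (Q : ℝ) ^ 2) ^ g) +
        120 * q * N * Q := by
      set B1 : Finset (Fin (Q ^ 2 * N)) := univ.filter fun i => ¬ Gd g τ i with hB1
      set B2 : Finset (Fin (Q ^ 2 * N)) := univ.filter fun i => Gd g τ i ∧
        ∃ a, lift τ (i, a) ∉ E with hB2
      have hsubB : BI ⊆ B1 ∪ B2 := by
        intro i hi
        have h3 := (mem_filter.1 hi).2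
        by_cases h4 : Gd g τ i
        · apply mem_union_right
          refine mem_filter.2 ⟨mem_univ _, h4, ?_⟩
          by_contra hcon
          push Not at hcon
          exact h3 ⟨h4, hcon⟩
        · exact mem_union_left _ (mem_filter.2 ⟨mem_univ _, h4⟩)
      have hb1 := card_bad (g := g) hR hgs hsp B1 (fun i hi => (mem_filter.1 hi).2)
      have hb2 := card_out (g := g) (bd := 2 * (q * (60 * N * Q))) hg (by simp) hEl hE0 B2
        (fun i hi => (mem_filter.1 hi).2)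
      have hb3 : BI.card ≤ 2 * g * (tight g τ).card + 2 * (q * (60 * N * Q)) :=
        (card_le_card hsubB).trans ((card_union_le _ _).trans (Nat.add_le_add hb1 hb2))
      calc (BI.card : ℝ) ≤ ((2 * g * (tight g τ).card + 2 * (q * (60 * N * Q)) : ℕ) : ℝ) := by
            exact_mod_cast hb3
        _ = 2 * g * ((tight g τ).card : ℝ) + 120 * q * N * Q := by push_cast; ring
        _ ≤ _ := by
            have := mul_le_mul_of_nonneg_left htight (show (0 : ℝ) ≤ 2 * g by positivity)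
            linarith
    have hNIc : (NI.card : ℝ) ≤ r * ((Q : ℝ) ^ 2 + 1) ^ m * (Q : ℝ) ^ 2 := by
      have h3 := card_near hgd hg hq0 hgE hEl hEr D0 m
      have h4 : D0.card ≤ r := by
        have : D0.card ≤ A'.card := card_image_le
        omega
      have h5 : NI.card ≤ r * (Q ^ 2 + 1) ^ m * Q ^ 2 :=
        h3.trans (Nat.mul_le_mul_right _ (Nat.mul_le_mul_right _ h4))
      exact_mod_cast h5
    have hp2 : ∑ e ∈ ((BI ∪ NI) ×ˢ (univ : Finset (Fin q))).image (lift τ), c e ≤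
        (q * (2 * g * (10 * (Real.exp 1 ^ 2 * (Q : ℝ) ^ 2) ^ g) + 120 * q * N * Q) +
          q * (r * ((Q : ℝ) ^ 2 + 1) ^ m * (Q : ℝ) ^ 2)) * PA := by
      calc ∑ e ∈ ((BI ∪ NI) ×ˢ (univ : Finset (Fin q))).image (lift τ), c e
          ≤ ∑ p ∈ ((BI ∪ NI) ×ˢ (univ : Finset (Fin q))), c (lift τ p) := sum_image_le' _ _ hc0
        _ ≤ ∑ p ∈ ((BI ∪ NI) ×ˢ (univ : Finset (Fin q))), PA := sum_le_sum fun p _ => hc1 _
        _ = (q * ((BI ∪ NI).card : ℝ)) * PA := by
            rw [sum_const, card_product, card_univ, Fintype.card_fin, nsmul_eq_mul]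
            push_cast
            ring
        _ ≤ (q * ((BI.card : ℝ) + NI.card)) * PA := by
            apply mul_le_mul_of_nonneg_right _ hPA0
            apply mul_le_mul_of_nonneg_left _ (Nat.cast_nonneg _)
            exact_mod_cast card_union_le BI NI
        _ ≤ _ := by
            apply mul_le_mul_of_nonneg_right _ hPA0
            rw [mul_add]
            exact add_le_add (mul_le_mul_of_nonneg_left hBIc (Nat.cast_nonneg _))
              (mul_le_mul_of_nonneg_left hNIc (Nat.cast_nonneg _))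
    set X : ℝ := 2 * (q * ((2 - 2 * ((1 - τ') * lam)) / t ^ 2) + q ^ 2 * (2 * t)) with hX
    have hX0 : 0 ≤ X := by
      have h5 : (1 - τ') * lam ≤ 1 := by nlinarith
      have h6 : 0 ≤ 2 - 2 * ((1 - τ') * lam) := by linarith
      positivity
    have hp3 : ∑ e ∈ (GI ×ˢ (univ : Finset (Fin q))).image (lift τ), c e ≤
        ((Q : ℝ) ^ 2 * N * X) * PA := by
      have hv : ∀ i ∈ GI, ∑ a : Fin q, c (lift τ (i, a)) ≤ PA * X := by
        intro i hi
        obtain ⟨hi1, hi2⟩ := (mem_filter.1 hi).2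
        rw [sum_congr rfl fun a _ => hcval (lift τ (i, a))]
        have hnear : Sum.inl (τ i).1.1 ∉ ball gd τ D0 m ∧ Sum.inr (τ i).1.2 ∉ ball gd τ D0 m := by
          constructor
          · intro h3; exact hi2 (mem_near.2 ⟨hi1, Or.inl h3⟩)
          · intro h3; exact hi2 (mem_near.2 ⟨hi1, Or.inr h3⟩)
        have := joint_far hq0 hpsd hK1 hKle hTA' hAr' (u := Sum.inl (τ i).1.1)
          (v := Sum.inr (τ i).1.2) (by simp) (τ i).2 (κ := (1 - τ') * lam) ht ?_ (hK0 _)
          (fun z hz c a => KK_far h0 h1 (mem_image_of_mem _ hz) hnear.1 c a)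
          (fun z hz c a => KK_far h0 h1 (mem_image_of_mem _ hz) hnear.2 c a)
        · rw [hPA']
          exact this
        · intro a
          have hadj : L.Adj (Sum.inl (τ i).1.1, a) (Sum.inr (τ i).1.2, (τ i).2 a) :=
            ⟨i, a, hi1, Or.inl ⟨rfl, rfl⟩⟩
          have h3 := kk_adj h0 h1 hm hadj
          unfold KK
          have h4 : ((Sum.inl (τ i).1.1, a) : (Fin N ⊕ Fin N) × Fin q) ≠
            (Sum.inr (τ i).1.2, (τ i).2 a) := by simp
          rw [if_neg h4, add_zero]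
          exact mul_le_mul_of_nonneg_left h3 (by linarith)
      calc ∑ e ∈ (GI ×ˢ (univ : Finset (Fin q))).image (lift τ), c e
          ≤ ∑ p ∈ (GI ×ˢ (univ : Finset (Fin q))), c (lift τ p) := sum_image_le' _ _ hc0
        _ = ∑ i ∈ GI, ∑ a : Fin q, c (lift τ (i, a)) := by rw [sum_product]
        _ ≤ ∑ i ∈ GI, PA * X := sum_le_sum hv
        _ = GI.card * (PA * X) := by rw [sum_const, nsmul_eq_mul]
        _ ≤ ((Q ^ 2 * N : ℕ) : ℝ) * (PA * X) := by
            apply mul_le_mul_of_nonneg_right _ (mul_nonneg hPA0 hX0)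
            have : GI.card ≤ Q ^ 2 * N := (card_filter_le _ _).trans (by simp)
            exact_mod_cast this
        _ = ((Q : ℝ) ^ 2 * N * X) * PA := by push_cast; ring
    refine hsum.trans ?_
    refine (add_le_add (add_le_add hp1 hp2) hp3).trans (le_of_eq ?_)
    ring

end Pool.Agent.H1.SA
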