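import Pool.Agent.H1.SA.Label

/-!
The probability that a constraint is violated by the labels.
-/

set_option autoImplicit false
set_option linter.unusedSectionVars false

namespace Pool.Agent.H1.SA

open MeasureTheory ProbabilityTheory Finset

variable {B : Type} [Fintype B] [DecidableEq B] {q : ℕ} {K : B × Fin q → B × Fin q → ℝ}

/-- The constraint is violated. -/
def Viol (I : Finset (B × Fin q)) (u v : B) (π : Equiv.Perm (Fin q)) :
    Set (EuclideanSpace ℝ I) :=
  {g | ∃ a, g ∈ Lab I u a ∧ g ∉ Lab I v (π a)}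

theorem viol_subset (D : Finset B) {u v : B} (hu : u ∈ D) (hv : v ∈ D) (π : Equiv.Perm (Fin q))
    {t : ℝ} :
    Viol (hat q D) u v π ⊆
      (⋃ a ∈ (univ : Finset (Fin q)), {g : EuclideanSpace ℝ (hat q D) |
        t ≤ |g ⟨(u, a), mem_hat.2 hu⟩ - g ⟨(v, π a), mem_hat.2 hv⟩|}) ∪
      (⋃ p ∈ (univ : Finset (Fin q × Fin q)).filter (fun p => p.1 ≠ p.2),
        {g : EuclideanSpace ℝ (hat q D) |
        |g ⟨(u, p.1), mem_hat.2 hu⟩ - g ⟨(u, p.2), mem_hat.2 hu⟩| ≤ 2 * t}) := by
  intro g hg
  obtain ⟨a, ha, hna⟩ := hg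
  by_contra hcon
  simp only [Set.mem_union, Set.mem_iUnion, mem_univ, Set.mem_ofPred_eq, mem_filter, true_and,
    exists_prop, not_or, not_exists, not_and, not_le] at hcon
  obtain ⟨h1, h2⟩ := hcon
  have hxu : ∀ b, xt (hat q D) g u b = g ⟨(u, b), mem_hat.2 hu⟩ := fun b => by
    unfold xt; rw [dif_pos (mem_hat.2 hu)]
  have hxv : ∀ b, xt (hat q D) g v b = g ⟨(v, b), mem_hat.2 hv⟩ := fun b => by
    unfold xt; rw [dif_pos (mem_hat.2 hv)]
  have key : ∀ b, b ≠ a → xt (hat q D) g v (π b) < xt (hat q D) g v (π a) := by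
    intro b hb
    have h3 := h2 (a, b) hb.symm
    have h4 := h1 a
    have h5 := h1 b
    have h6 := ha.1 b
    simp only at h3
    rw [hxu, hxu] at h6
    rw [abs_of_nonneg (by linarith)] at h3
    rw [abs_lt] at h4 h5
    rw [hxv, hxv]
    linarith
  apply hna
  constructor
  · intro c
    by_cases hc : π.symm c = a
    · rw [← hc, Equiv.apply_symm_apply]
    · have := key _ hc
      rw [Equiv.apply_symm_apply] at this
      exact this.le
  · intro c hc
    have h3 : π.symm c ≠ a := by
      intro h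
      rw [← h, Equiv.apply_symm_apply] at hc
      exact lt_irrefl _ hc
    have := key _ h3
    rwa [Equiv.apply_symm_apply] at this

theorem viol_le {r : ℕ} (hK : Psd K r) (hK1 : ∀ x, K x x = 1) (hKle : ∀ x y, K x y ≤ 1)
    (D : Finset B) (hD : D.card ≤ r) {u v : B} (hu : u ∈ D) (hv : v ∈ D)
    (π : Equiv.Perm (Fin q)) {κ t : ℝ} (ht : 0 < t) (hκ : ∀ a, κ ≤ K (u, a) (v, π a))
    (h0 : ∀ a b, a ≠ b → K (u, a) (u, b) = 0) :
    (mu K D).real (Viol (hat q D) u v π) ≤ q * ((2 - 2 * κ) / t ^ 2) + q ^ 2 * (2 * t) := by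
  refine (measureReal_mono (viol_subset D hu hv π (t := t))).trans ?_
  refine (measureReal_union_le _ _).trans (add_le_add ?_ ?_)
  · refine (measureReal_biUnion_finset_le _ _).trans ?_
    have : ∀ a ∈ (univ : Finset (Fin q)), (mu K D).real {g : EuclideanSpace ℝ (hat q D) |
        t ≤ |g ⟨(u, a), mem_hat.2 hu⟩ - g ⟨(v, π a), mem_hat.2 hv⟩|} ≤ (2 - 2 * κ) / t ^ 2 := by
      intro a _
      refine (diff_large (hK D hD) _ _ (hK1 _) (hK1 _) ht (hKle _ _)).trans ?_
      apply div_le_div_of_nonneg_right _ (by positivity)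
      have := hκ a
      simp only [Mt, Matrix.of_apply]
      linarith
    refine (sum_le_card_nsmul _ _ _ this).trans ?_
    rw [card_univ, Fintype.card_fin, nsmul_eq_mul]
  · refine (measureReal_biUnion_finset_le _ _).trans ?_
    have : ∀ p ∈ (univ : Finset (Fin q × Fin q)).filter (fun p => p.1 ≠ p.2),
        (mu K D).real {g : EuclideanSpace ℝ (hat q D) |
        |g ⟨(u, p.1), mem_hat.2 hu⟩ - g ⟨(u, p.2), mem_hat.2 hu⟩| ≤ 2 * t} ≤ 2 * t := by
      intro p hp
      exact diff_small (hK D hD) _ _ (hK1 _) (hK1 _) (by positivity) (h0 _ _ (mem_filter.1 hp).2)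
    refine (sum_le_card_nsmul _ _ _ this).trans ?_
    rw [nsmul_eq_mul]
    apply mul_le_mul_of_nonneg_right _ (by positivity)
    have h3 : ((univ : Finset (Fin q × Fin q)).filter (fun p => p.1 ≠ p.2)).card ≤ q ^ 2 := by
      refine (card_filter_le _ _).trans ?_
      rw [card_univ, Fintype.card_prod, Fintype.card_fin, sq]
    exact_mod_cast h3

theorem cut_pair {r : ℕ} (hq : 0 < q) (hr : 2 ≤ r) (hK : Psd K r) (hK1 : ∀ x, K x x = 1)
    (hKle : ∀ x y, K x y ≤ 1) {u v : B} (huv : u ≠ v)
    (π : Equiv.Perm (Fin q)) {κ t : ℝ} (ht : 0 < t) (hκ : ∀ a, κ ≤ K (u, a) (v, π a))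
    (h0 : ∀ a b, a ≠ b → K (u, a) (u, b) = 0) :
    ∑ a, (PP K {(u, a), (v, π a)} {(u, a)} + PP K {(u, a), (v, π a)} {(v, π a)}) ≤
      2 * (q * ((2 - 2 * κ) / t ^ 2) + q ^ 2 * (2 * t)) := by
  set D : Finset B := {u, v} with hD
  have hu : u ∈ D := by simp [hD]
  have hv : v ∈ D := by simp [hD]
  have hDc : D.card ≤ r := card_le_two.trans hr
  have hA : ∀ a, ∀ x ∈ ({(u, a), (v, π a)} : Finset (B × Fin q)), x.1 ∈ D := by
    intro a x hx
    rcases mem_insert.1 hx with rfl | hx
    · exact hu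
    · rw [mem_singleton] at hx; subst hx; exact hv
  have hne : ∀ a, ((u, a) : B × Fin q) ≠ (v, π a) := fun a h => huv (congrArg Prod.fst h)
  have hviol := viol_le hK hK1 hKle D hDc hu hv π ht hκ h0
  have e1 : ∀ a, Ev (hat q D) {(u, a), (v, π a)} {(u, a)} =
      Lab (hat q D) u a \ Lab (hat q D) v (π a) := by
    intro a
    ext g
    simp only [Ev, Set.mem_ofPred_eq, Set.mem_sdiff]
    constructor
    · intro h
      refine ⟨(h (u, a) (by simp)).2 (by simp), fun h2 => ?_⟩
      have := (h (v, π a) (by simp)).1 h2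
      rw [mem_singleton] at this
      exact hne a this.symm
    · rintro ⟨h2, h3⟩ x hx
      rcases mem_insert.1 hx with rfl | hx
      · simp [h2]
      · rw [mem_singleton] at hx
        subst hx
        simp only [h3, mem_singleton, false_iff]
        exact (hne a).symm
  have e2 : ∀ a, Ev (hat q D) {(u, a), (v, π a)} {(v, π a)} =
      Lab (hat q D) v (π a) \ Lab (hat q D) u a := by
    intro a
    ext g
    simp only [Ev, Set.mem_ofPred_eq, Set.mem_sdiff]
    constructor
    · intro h
      refine ⟨(h (v, π a) (by simp)).2 (by simp), fun h2 => ?_⟩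
      have := (h (u, a) (by simp)).1 h2
      rw [mem_singleton] at this
      exact hne a this
    · rintro ⟨h2, h3⟩ x hx
      rcases mem_insert.1 hx with rfl | hx
      · simp only [h3, mem_singleton, false_iff]
        exact hne a
      · rw [mem_singleton] at hx
        subst hx
        simp [h2]
  have s1 : ∑ a, PP K {(u, a), (v, π a)} {(u, a)} ≤ (mu K D).real (Viol (hat q D) u v π) := by
    have : ∑ a, PP K {(u, a), (v, π a)} {(u, a)} =
        (mu K D).real (⋃ a ∈ (univ : Finset (Fin q)),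
          (Lab (hat q D) u a \ Lab (hat q D) v (π a))) := by
      rw [measureReal_biUnion_finset]
      · refine sum_congr rfl fun a _ => ?_
        rw [PP_eq hK (hA a) hDc, e1]
      · intro a _ b _ hab
        exact Set.disjoint_left.2 fun g h2 h3 => hab (isM_unique h2.1 h3.1)
      · intro a _
        exact (lab_measurable _ _ _).diff (lab_measurable _ _ _)
    rw [this]
    refine measureReal_mono ?_ (measure_ne_top _ _)
    intro g hg
    simp only [Set.mem_iUnion, mem_univ, exists_prop, true_and] at hg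
    obtain ⟨a, ha⟩ := hg
    exact ⟨a, ha.1, ha.2⟩
  have s2 : ∑ a, PP K {(u, a), (v, π a)} {(v, π a)} ≤ (mu K D).real (Viol (hat q D) u v π) := by
    have : ∑ a, PP K {(u, a), (v, π a)} {(v, π a)} =
        (mu K D).real (⋃ a ∈ (univ : Finset (Fin q)),
          (Lab (hat q D) v (π a) \ Lab (hat q D) u a)) := by
      rw [measureReal_biUnion_finset]
      · refine sum_congr rfl fun a _ => ?_
        rw [PP_eq hK (hA a) hDc, e2]
      · intro a _ b _ hab
        exact Set.disjoint_left.2 fun g h2 h3 => hab (π.injective (isM_unique h2.1 h3.1))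
      · intro a _
        exact (lab_measurable _ _ _).diff (lab_measurable _ _ _)
    rw [this]
    refine measureReal_mono ?_ (measure_ne_top _ _)
    intro g hg
    simp only [Set.mem_iUnion, mem_univ, exists_prop, true_and] at hg
    obtain ⟨a, ha⟩ := hg
    obtain ⟨a', ha'⟩ := exists_isM hq (xt (hat q D) g u)
    refine ⟨a', ha', fun h => ?_⟩
    have h3 : a = a' := π.injective (isM_unique ha.1 h)
    rw [h3] at ha
    exact ha.2 ha'
  rw [sum_add_distrib]
  linarith

end Pool.Agent.H1.SA
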