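import Mathlib

/-!
Definitions used in the statement of the Sherali-Adams lower bound for small-set expansion.
-/

set_option autoImplicit false

namespace Pool.Agent.H1.SA

open Finset

variable {V : Type} [Fintype V] [DecidableEq V]

/-- The number of edges of `G` leaving `S`. -/
noncomputable def cutSize (G : SimpleGraph V) (S : Finset V) : ℕ := by
  classical exact (univ.filter fun p : V × V => G.Adj p.1 p.2 ∧ p.1 ∈ S ∧ p.2 ∉ S).card

/-- `P A T` is a candidate for the probability that a random set `S` satisfies `S ∩ A = T`, for
`T ⊆ A`. `IsSA r k P` says that these numbers are a solution of level `r` of the Sherali-Adams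
relaxation of the condition `|S| = k`: they are nonnegative, they are consistent, and, given
`S ∩ A = T`, the expected number of elements of `S` is `k`. -/
structure IsSA (r k : ℕ) (P : Finset V → Finset V → ℝ) : Prop where
  nonneg : ∀ A T : Finset V, T ⊆ A → A.card ≤ r → 0 ≤ P A T
  total : P ∅ ∅ = 1
  consistent : ∀ A T : Finset V, T ⊆ A → A.card < r → ∀ x, x ∉ A →
    P A T = P (insert x A) T + P (insert x A) (insert x T)
  size : ∀ A T : Finset V, T ⊆ A → A.card < r →
    (T.card : ℝ) * P A T + ∑ x ∈ Aᶜ, P (insert x A) (insert x T) = k * P A T

/-- The probability that the random set meets `A` in `T`, contains `x` and does not contain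
`y`. -/
def joint (P : Finset V → Finset V → ℝ) (A T : Finset V) (x y : V) : ℝ :=
  if (x ∈ A → x ∈ T) ∧ y ∉ T then P (insert x (insert y A)) (insert x T) else 0

/-- The expected number of edges leaving the random set, on the event that it meets `A` in `T`. -/
noncomputable def cutValue (G : SimpleGraph V) (P : Finset V → Finset V → ℝ)
    (A T : Finset V) : ℝ := by
  classical exact ∑ p ∈ univ.filter (fun p : V × V => G.Adj p.1 p.2), joint P A T p.1 p.2

/-- A solution of level `r` of the Sherali-Adams relaxation of the system of two conditions:
`|S| = k`, and at most `c` edges of `G` leave `S`. -/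
structure IsSolution (G : SimpleGraph V) (r k : ℕ) (c : ℝ) (P : Finset V → Finset V → ℝ) :
    Prop where
  sa : IsSA r k P
  cut : ∀ A T : Finset V, T ⊆ A → A.card + 2 ≤ r → cutValue G P A T ≤ c * P A T

end Pool.Agent.H1.SA
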