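import Pool.Agent.H1.SA.Rand

/-!
Existence of a good family of constraints.
-/

set_option autoImplicit false
set_option linter.unusedSectionVars false
set_option maxHeartbeats 4000000

namespace Pool.Agent.H1.SA

open Finset Pool.Agent.W939.SSE

variable {ι : Type} [Fintype ι] [DecidableEq ι] {N q : ℕ}

/-- The nonempty sets of at most `g` vertices with as many constraints as vertices. -/
def tight (g : ℕ) (τ : ι → Zt N q) : Finset (Finset (Fin N ⊕ Fin N)) :=
  univ.filter fun A => 1 ≤ A.card ∧ A.card ≤ g ∧ A.card ≤ cntIn A τ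

theorem exists_tau {Q R s0 g : ℕ} {ε : ℝ} (hN : 0 < N) (hq : 2 ≤ q)
    (hι : Fintype.card ι = Q ^ 2 * N) (hQ : 1 ≤ Q) (hNQ : Q ^ 3 ≤ N) (hε : 0 < ε) (hε1 : ε ≤ 1)
    (hQε : 8 * (q : ℝ) * (q + 1) ≤ ε ^ 2 * Q ^ 2) (hR : 1 ≤ R) (hgs : g ≤ s0)
    (hbig : (10 * Real.exp 1 ^ 2 * Q ^ 2) ^ R * (Real.exp 1 * s0 * Q ^ 2 / (4 * N)) ≤ 1) :
    ∃ τ : ι → Zt N q,
      (∀ SL SR : Finset (Fin N × Fin q), SL.card + SR.card = 2 * N →
        ((∑ i, Xin SL SR (τ i) : ℕ) : ℝ) ≤ (Q : ℝ) ^ 2 * N * (1 / q + ε)) ∧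
      ∑ u, (cnt (fun z : Zt N q => z.1.1 = u) τ - Q ^ 2) +
        ∑ w, (cnt (fun z : Zt N q => z.1.2 = w) τ - Q ^ 2) +
        ∑ p, (cnt (fun z : Zt N q => z.1 = p) τ - 1) ≤ 60 * N * Q ∧
      (∀ A : Finset (Fin N ⊕ Fin N), A.card ≤ s0 → R * cntIn A τ ≤ (R + 1) * A.card) ∧
      ((tight g τ).card : ℝ) ≤ 10 * (Real.exp 1 ^ 2 * Q ^ 2) ^ g := by
  classical
  have hN' : (0 : ℝ) < N := by exact_mod_cast hN
  have hN1 : (1 : ℝ) ≤ N := by exact_mod_cast hN
  have hq' : (2 : ℝ) ≤ q := by exact_mod_cast hq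
  have hQ' : (1 : ℝ) ≤ Q := by exact_mod_cast hQ
  have hMι : (Fintype.card ι : ℝ) = (Q : ℝ) ^ 2 * N := by rw [hι]; push_cast; ring
  have he1 : 1 ≤ Real.exp 1 := Real.one_le_exp (by norm_num)
  have he2 : (2 : ℝ) ≤ Real.exp 1 := by
    have := Real.add_one_le_exp (1 : ℝ); linarith
  set TT : ℝ := (Fintype.card (ι → Zt N q) : ℝ) with hTT
  have hT0 : 0 < TT := by
    rw [hTT]
    have : Nonempty (Fin N) := ⟨⟨0, hN⟩⟩
    exact_mod_cast Fintype.card_pos
  -- small sets
  have hs0N : (s0 : ℝ) * Q ^ 2 ≤ 4 * N := by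
    have h1 : 1 ≤ (10 * Real.exp 1 ^ 2 * (Q : ℝ) ^ 2) ^ R := by
      apply one_le_pow₀
      have h1 : 1 ≤ Real.exp 1 ^ 2 := one_le_pow₀ he1
      have h2 : 1 ≤ (Q : ℝ) ^ 2 := one_le_pow₀ hQ'
      nlinarith
    have h3 : 0 ≤ Real.exp 1 * s0 * (Q : ℝ) ^ 2 / (4 * N) := by positivity
    have h4 : Real.exp 1 * s0 * (Q : ℝ) ^ 2 / (4 * N) ≤ 1 := by
      have := mul_le_mul_of_nonneg_right h1 h3
      linarith
    rw [div_le_one (by positivity)] at h4
    have h5 : 0 ≤ (s0 : ℝ) * Q ^ 2 := by positivity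
    have h6 : (s0 : ℝ) * Q ^ 2 ≤ Real.exp 1 * (s0 * Q ^ 2) := le_mul_of_one_le_left h5 he1
    linarith
  let badS : Finset (ι → Zt N q) := (Icc 1 s0).biUnion fun s =>
    ((univ : Finset (Fin N ⊕ Fin N)).powersetCard s).biUnion fun A =>
      univ.filter fun τ => (R + 1) * s / R + 1 ≤ cntIn A τ
  have hb1 : (badS.card : ℝ) ≤ 1 / 10 * TT := by
    have h1 : (badS.card : ℝ) ≤ ∑ s ∈ Icc 1 s0,
        ∑ A ∈ (univ : Finset (Fin N ⊕ Fin N)).powersetCard s,
          ((univ.filter (fun τ : ι → Zt N q => (R + 1) * s / R + 1 ≤ cntIn A τ)).card : ℝ) := by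
      refine le_trans (Nat.cast_le.2 card_biUnion_le) ?_
      push_cast
      refine sum_le_sum fun s _ => ?_
      exact_mod_cast card_biUnion_le
    have h2 : ∀ s ∈ Icc 1 s0, ∑ A ∈ (univ : Finset (Fin N ⊕ Fin N)).powersetCard s,
          ((univ.filter (fun τ : ι → Zt N q => (R + 1) * s / R + 1 ≤ cntIn A τ)).card : ℝ) ≤
        TT * (1 / 20) ^ s := by
      intro s hs
      rw [mem_Icc] at hs
      have hss : (s : ℝ) * Q ^ 2 ≤ 4 * N := by
        refine le_trans ?_ hs0N
        have : (s : ℝ) ≤ s0 := by exact_mod_cast hs.2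
        exact mul_le_mul_of_nonneg_right this (by positivity)
      have hsm : s ≤ (R + 1) * s / R + 1 := by
        have : s ≤ (R + 1) * s / R := by
          rw [Nat.le_div_iff_mul_le (by omega)]
          nlinarith
        omega
      refine (union_in hN hQ hMι hs.1 hsm hss).trans ?_
      exact mul_le_mul_of_nonneg_left (term_sparse hN hQ hR hs.1 hs.2 hbig) hT0.le
    refine (h1.trans (sum_le_sum h2)).trans ?_
    rw [← mul_sum]
    have h3 : ∀ n : ℕ, ∑ s ∈ Icc 1 n, ((1 : ℝ) / 20) ^ s ≤ 1 / 19 - (1 / 20) ^ n / 19 := by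
      intro n
      induction n with
      | zero => simp
      | succ n ih =>
        rw [sum_Icc_succ_top (by omega), pow_succ]
        linarith
    have h4 : ∑ s ∈ Icc 1 s0, ((1 : ℝ) / 20) ^ s ≤ 1 / 10 := by
      have h5 := h3 s0
      have h6 : 0 ≤ ((1 : ℝ) / 20) ^ s0 / 19 := by positivity
      linarith
    have := mul_le_mul_of_nonneg_left h4 hT0.le
    linarith
  have hsum_tight : ∑ τ : ι → Zt N q, ((tight g τ).card : ℝ) ≤
      TT * (Real.exp 1 ^ 2 * Q ^ 2) ^ g := by
    have h1 : ∀ τ : ι → Zt N q, ((tight g τ).card : ℝ) =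
        ∑ s ∈ Icc 1 g, ∑ A ∈ (univ : Finset (Fin N ⊕ Fin N)).powersetCard s,
          (if s ≤ cntIn A τ then (1 : ℝ) else 0) := by
      intro τ
      have e1 : tight g τ = (Icc 1 g).biUnion fun s =>
          ((univ : Finset (Fin N ⊕ Fin N)).powersetCard s).filter fun A => s ≤ cntIn A τ := by
        ext A
        simp only [tight, mem_filter, mem_univ, true_and, mem_biUnion, mem_Icc, mem_powersetCard,
          subset_univ]
        constructor
        · rintro ⟨h1, h2, h3⟩
          exact ⟨A.card, ⟨h1, h2⟩, rfl, h3⟩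
        · rintro ⟨s, ⟨h1, h2⟩, rfl, h3⟩
          exact ⟨h1, h2, h3⟩
      rw [e1, card_biUnion]
      · push_cast
        refine sum_congr rfl fun s _ => ?_
        rw [card_filter]
        push_cast
        rfl
      · intro s _ s' _ hss
        refine Finset.disjoint_left.2 fun A hA hA' => ?_
        rw [mem_filter, mem_powersetCard] at hA hA'
        exact hss (hA.1.2.symm.trans hA'.1.2)
    rw [sum_congr rfl fun τ _ => h1 τ, sum_comm]
    have h2 : ∀ s ∈ Icc 1 g, ∑ τ : ι → Zt N q,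
        ∑ A ∈ (univ : Finset (Fin N ⊕ Fin N)).powersetCard s,
          (if s ≤ cntIn A τ then (1 : ℝ) else 0) ≤ TT * (Real.exp 1 ^ 2 * Q ^ 2 / 2) ^ g := by
      intro s hs
      rw [mem_Icc] at hs
      have hss : (s : ℝ) * Q ^ 2 ≤ 4 * N := by
        refine le_trans ?_ hs0N
        have : (s : ℝ) ≤ s0 := by exact_mod_cast (hs.2.trans hgs)
        exact mul_le_mul_of_nonneg_right this (by positivity)
      rw [sum_comm]
      have e2 : ∑ A ∈ (univ : Finset (Fin N ⊕ Fin N)).powersetCard s, ∑ τ : ι → Zt N q,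
          (if s ≤ cntIn A τ then (1 : ℝ) else 0) =
          ∑ A ∈ (univ : Finset (Fin N ⊕ Fin N)).powersetCard s,
          ((univ.filter (fun τ : ι → Zt N q => s ≤ cntIn A τ)).card : ℝ) := by
        refine sum_congr rfl fun A _ => ?_
        rw [card_filter]
        push_cast
        rfl
      rw [e2]
      refine (union_in hN hQ hMι hs.1 le_rfl hss).trans ?_
      exact mul_le_mul_of_nonneg_left (term_tight hN hQ hs.1 hs.2) hT0.le
    refine (sum_le_sum h2).trans ?_
    rw [sum_const, Nat.card_Icc, nsmul_eq_mul]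
    have h3 : ((g + 1 - 1 : ℕ) : ℝ) ≤ 2 ^ g := by
      have : g + 1 - 1 ≤ 2 ^ g := by
        rw [Nat.add_sub_cancel]
        exact Nat.lt_two_pow_self.le
      exact_mod_cast this
    have h4 : (Real.exp 1 ^ 2 * (Q : ℝ) ^ 2) ^ g =
        2 ^ g * (Real.exp 1 ^ 2 * Q ^ 2 / 2) ^ g := by
      conv_rhs => rw [← mul_pow]
      congr 1
      ring
    rw [h4]
    calc ((g + 1 - 1 : ℕ) : ℝ) * (TT * (Real.exp 1 ^ 2 * Q ^ 2 / 2) ^ g)
        ≤ 2 ^ g * (TT * (Real.exp 1 ^ 2 * Q ^ 2 / 2) ^ g) :=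
          mul_le_mul_of_nonneg_right h3 (by positivity)
      _ = _ := by ring
  -- few internal edges
  let bad : Finset (Fin N × Fin q) × Finset (Fin N × Fin q) →
      Finset (ι → Zt N q) := fun S =>
    univ.filter (fun τ => (Fintype.card ι : ℝ) * (1 / (q : ℝ) + ε) <
      ∑ i, (Xin S.1 S.2 (τ i) : ℝ))
  have hbad : ∀ S : Finset (Fin N × Fin q) × Finset (Fin N × Fin q),
      S.1.card + S.2.card = 2 * N → ((bad S).card : ℝ) ≤
        TT * Real.exp (-(2 * N * (q + 1))) := by
    intro S hS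
    have h1 := tail (ι := ι) (fun z : Zt N q => (Xin S.1 S.2 z : ℝ)) (q := q)
      (by linarith) (fun z => Nat.cast_nonneg _) (fun z => by exact_mod_cast Xin_le S.1 S.2 z)
      (by
        have h2 := sum_Xin S.1 S.2
        have h3 : (q : ℝ) * ∑ z : Zt N q, (Xin S.1 S.2 z : ℝ) =
            (S.1.card : ℝ) * S.2.card * (Fintype.card (Equiv.Perm (Fin q)) : ℝ) := by
          exact_mod_cast h2
        have h4 : (S.1.card : ℝ) * S.2.card ≤ (N : ℝ) * N := by
          have h5 : (S.1.card : ℝ) + S.2.card = 2 * N := by exact_mod_cast hS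
          nlinarith [sq_nonneg ((S.1.card : ℝ) - S.2.card)]
        rw [card_Zt]
        push_cast
        rw [mul_one_div, le_div_iff₀ (by linarith), mul_comm, h3]
        exact mul_le_mul_of_nonneg_right h4 (Nat.cast_nonneg _))
      hε hε1
    refine h1.trans ?_
    apply mul_le_mul_of_nonneg_left _ hT0.le
    apply Real.exp_le_exp.2
    apply neg_le_neg
    rw [hMι, ← mul_div_assoc, le_div_iff₀ (by positivity)]
    calc 2 * (N : ℝ) * (q + 1) * (4 * q) = N * (8 * q * (q + 1)) := by ring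
      _ ≤ N * (ε ^ 2 * Q ^ 2) := mul_le_mul_of_nonneg_left hQε hN'.le
      _ = (Q : ℝ) ^ 2 * N * ε ^ 2 := by ring
  let badAll : Finset (ι → Zt N q) :=
    ((univ : Finset (Finset (Fin N × Fin q) × Finset (Fin N × Fin q))).filter
      (fun S => S.1.card + S.2.card = 2 * N)).biUnion bad
  have hb2 : ((badAll).card : ℝ) ≤ 1 / 6 * TT := by
    have h1 : (badAll.card : ℝ) ≤ ∑ S ∈ ((univ : Finset (Finset (Fin N × Fin q) ×
        Finset (Fin N × Fin q))).filter (fun S => S.1.card + S.2.card = 2 * N)),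
        ((bad S).card : ℝ) := by exact_mod_cast Finset.card_biUnion_le
    have h2 : ∑ S ∈ ((univ : Finset (Finset (Fin N × Fin q) ×
        Finset (Fin N × Fin q))).filter (fun S => S.1.card + S.2.card = 2 * N)),
        ((bad S).card : ℝ) ≤ ∑ S ∈ ((univ : Finset (Finset (Fin N × Fin q) ×
        Finset (Fin N × Fin q))).filter (fun S => S.1.card + S.2.card = 2 * N)),
        TT * Real.exp (-(2 * N * (q + 1))) :=
      Finset.sum_le_sum fun S hS => hbad S (mem_filter.1 hS).2
    rw [Finset.sum_const, nsmul_eq_mul] at h2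
    have h3 : ((((univ : Finset (Finset (Fin N × Fin q) × Finset (Fin N × Fin q))).filter
        (fun S => S.1.card + S.2.card = 2 * N)).card : ℕ) : ℝ) ≤ Real.exp (2 * N * q) := by
      have h4 : (((univ : Finset (Finset (Fin N × Fin q) × Finset (Fin N × Fin q))).filter
        (fun S => S.1.card + S.2.card = 2 * N)).card) ≤ 2 ^ (2 * (N * q)) := by
        refine (Finset.card_filter_le _ _).trans ?_
        rw [Finset.card_univ, Fintype.card_prod, Fintype.card_finset, Fintype.card_prod,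
          Fintype.card_fin, Fintype.card_fin, ← pow_add]
        apply le_of_eq
        congr 1
        ring
      have h5 : ((2 : ℝ) ^ (2 * (N * q))) ≤ Real.exp (2 * N * q) := by
        refine (pow_le_pow_left₀ (by norm_num) he2 _).trans (le_of_eq ?_)
        rw [← Real.exp_nat_mul]
        congr 1
        push_cast
        ring
      refine le_trans ?_ h5
      exact_mod_cast h4
    have h7 : Real.exp (2 * N * q) * (TT * Real.exp (-(2 * N * (q + 1)))) =
        TT * Real.exp (-(2 * N)) := by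
      rw [mul_comm, mul_assoc, ← Real.exp_add]
      congr 2
      ring
    have h8 : Real.exp (-(2 * (N : ℝ))) ≤ 1 / 6 := by
      have h9 : Real.exp (-(2 * (N : ℝ))) ≤ Real.exp (-2) := Real.exp_le_exp.2 (by linarith)
      refine h9.trans ?_
      rw [Real.exp_neg, inv_le_comm₀ (Real.exp_pos _) (by norm_num)]
      have h10 : (2.7182818283 : ℝ) < Real.exp 1 := Real.exp_one_gt_d9
      have h11 : Real.exp 2 = Real.exp 1 * Real.exp 1 := by rw [← Real.exp_add]; norm_num
      rw [h11]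
      nlinarith
    calc (badAll.card : ℝ) ≤ _ := h1
      _ ≤ _ := h2
      _ ≤ Real.exp (2 * N * q) * (TT * Real.exp (-(2 * N * (q + 1)))) :=
          mul_le_mul_of_nonneg_right h3 (by positivity)
      _ = TT * Real.exp (-(2 * N)) := h7
      _ ≤ TT * (1 / 6) := mul_le_mul_of_nonneg_left h8 hT0.le
      _ = 1 / 6 * TT := by ring
  -- degrees
  let f : (ι → Zt N q) → ℕ := fun τ =>
    ∑ u, (cnt (fun z : Zt N q => z.1.1 = u) τ - Q ^ 2) +
      ∑ w, (cnt (fun z : Zt N q => z.1.2 = w) τ - Q ^ 2) +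
      ∑ p, (cnt (fun z : Zt N q => z.1 = p) τ - 1)
  have hf : ∑ τ, (f τ : ℝ) ≤ TT * (9 * Q * N) := by
    have e1 : ∑ τ, (f τ : ℝ) =
        ∑ u : Fin N, ∑ τ : ι → Zt N q,
          ((cnt (fun z : Zt N q => z.1.1 = u) τ - Q ^ 2 : ℕ) : ℝ) +
        ∑ w : Fin N, ∑ τ : ι → Zt N q,
          ((cnt (fun z : Zt N q => z.1.2 = w) τ - Q ^ 2 : ℕ) : ℝ) +
        ∑ p : Fin N × Fin N, ∑ τ : ι → Zt N q,
          ((cnt (fun z : Zt N q => z.1 = p) τ - 1 : ℕ) : ℝ) := by
      rw [Finset.sum_comm (s := (univ : Finset (Fin N))),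
        Finset.sum_comm (s := (univ : Finset (Fin N))),
        Finset.sum_comm (s := (univ : Finset (Fin N × Fin N))), ← Finset.sum_add_distrib,
        ← Finset.sum_add_distrib]
      apply Finset.sum_congr rfl
      intro τ _
      simp only [f]
      push_cast
      rfl
    have hpM : (1 / (N : ℝ)) * (Fintype.card ι : ℝ) = (Q : ℝ) ^ 2 := by
      rw [hMι]; field_simp
    have g1 : ∀ u : Fin N, ∑ τ : ι → Zt N q,
        ((cnt (fun z : Zt N q => z.1.1 = u) τ - Q ^ 2 : ℕ) : ℝ) ≤ TT * (3 * Q) := fun u =>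
      excess _ hQ (card_left hN u) hpM
    have g2 : ∀ w : Fin N, ∑ τ : ι → Zt N q,
        ((cnt (fun z : Zt N q => z.1.2 = w) τ - Q ^ 2 : ℕ) : ℝ) ≤ TT * (3 * Q) := fun w =>
      excess _ hQ (card_right hN w) hpM
    have hQ3 : (Q : ℝ) ^ 3 ≤ N := by exact_mod_cast hNQ
    have hQN2 : (Q : ℝ) ^ 2 ≤ N := by
      have : (Q : ℝ) ^ 2 ≤ (Q : ℝ) ^ 3 := pow_le_pow_right₀ hQ' (by norm_num)
      linarith
    have g3 : ∀ p : Fin N × Fin N, ∑ τ : ι → Zt N q,
        ((cnt (fun z : Zt N q => z.1 = p) τ - 1 : ℕ) : ℝ) ≤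
          TT * (3 / ((N : ℝ) / (Q : ℝ) ^ 2) ^ 2) := fun p =>
      repeats _ (by rw [le_div_iff₀ (by positivity)]; linarith) (card_both hN p) (by
        rw [hMι]
        apply le_of_eq
        field_simp)
    rw [e1]
    have s1 := Finset.sum_le_sum (fun (u : Fin N) (_ : u ∈ univ) => g1 u)
    have s2 := Finset.sum_le_sum (fun (w : Fin N) (_ : w ∈ univ) => g2 w)
    have s3 := Finset.sum_le_sum (fun (p : Fin N × Fin N) (_ : p ∈ univ) => g3 p)
    rw [Finset.sum_const, Finset.card_univ, Fintype.card_fin, nsmul_eq_mul] at s1 s2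
    rw [Finset.sum_const, Finset.card_univ, Fintype.card_prod, Fintype.card_fin,
      nsmul_eq_mul] at s3
    have h4 : ((N * N : ℕ) : ℝ) * (TT * (3 / ((N : ℝ) / (Q : ℝ) ^ 2) ^ 2)) =
        TT * (3 * Q ^ 4) := by
      push_cast
      field_simp
    have h5 : TT * (3 * (Q : ℝ) ^ 4) ≤ TT * (3 * Q * N) := by
      apply mul_le_mul_of_nonneg_left _ hT0.le
      have : (Q : ℝ) * Q ^ 3 ≤ Q * N := mul_le_mul_of_nonneg_left hQ3 (by positivity)
      nlinarith
    rw [h4] at s3
    linarith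
  -- combination
  by_contra hcon
  push Not at hcon
  set Y : ℝ := (Real.exp 1 ^ 2 * Q ^ 2) ^ g with hY
  have hY0 : 0 < Y := by rw [hY]; positivity
  have hcov : ∀ τ : ι → Zt N q, (1 : ℝ) ≤
      (if τ ∈ badS then 1 else 0) + (if τ ∈ badAll then 1 else 0) +
        (f τ : ℝ) / (60 * N * Q) + ((tight g τ).card : ℝ) / (10 * Y) := by
    intro τ
    have hf0 : 0 ≤ (f τ : ℝ) / (60 * N * Q) := by positivity
    have ht0 : 0 ≤ ((tight g τ).card : ℝ) / (10 * Y) := by positivity
    by_cases h2 : ∀ SL SR : Finset (Fin N × Fin q), SL.card + SR.card = 2 * N →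
        ((∑ i, Xin SL SR (τ i) : ℕ) : ℝ) ≤ (Q : ℝ) ^ 2 * N * (1 / q + ε)
    · by_cases h3 : f τ ≤ 60 * N * Q
      · by_cases h4 : ∀ A : Finset (Fin N ⊕ Fin N), A.card ≤ s0 →
            R * cntIn A τ ≤ (R + 1) * A.card
        · have h5 := hcon τ h2 h3 h4
          have h6 : 1 ≤ ((tight g τ).card : ℝ) / (10 * Y) := by
            rw [le_div_iff₀ (by positivity)]; linarith
          split_ifs <;> linarith
        · push Not at h4
          obtain ⟨A, hA1, hA2⟩ := h4
          have h5 : τ ∈ badS := by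
            simp only [badS, mem_biUnion, mem_filter, mem_univ, true_and, mem_Icc,
              mem_powersetCard, subset_univ]
            refine ⟨A.card, ⟨?_, hA1⟩, A, rfl, ?_⟩
            · by_contra h0
              have h0' : A.card = 0 := by omega
              have h7 : A = ∅ := card_eq_zero.1 h0'
              rw [h7] at hA2
              have h8 : cntIn (∅ : Finset (Fin N ⊕ Fin N)) τ = 0 := by
                unfold cntIn cnt
                rw [card_eq_zero, filter_eq_empty_iff]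
                intro i _ h
                exact absurd h.1 (notMem_empty _)
              rw [h8] at hA2
              simp at hA2
            · rw [Nat.succ_le_iff, Nat.div_lt_iff_lt_mul (by omega)]
              calc (R + 1) * A.card < R * cntIn A τ := hA2
                _ = cntIn A τ * R := Nat.mul_comm _ _
          rw [if_pos h5]
          split_ifs <;> linarith
      · push Not at h3
        have h4 : (60 * N * Q : ℝ) ≤ (f τ : ℝ) := by
          have : 60 * N * Q ≤ f τ := h3.le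
          exact_mod_cast this
        have h5 : 1 ≤ (f τ : ℝ) / (60 * N * Q) := by
          rw [le_div_iff₀ (by positivity)]; linarith
        split_ifs <;> linarith
    · push Not at h2
      obtain ⟨SL, SR, h3, h4⟩ := h2
      have h5 : τ ∈ badAll := by
        simp only [badAll, mem_biUnion, mem_filter, mem_univ, true_and]
        refine ⟨(SL, SR), h3, ?_⟩
        simp only [bad, mem_filter, mem_univ, true_and]
        rw [hMι]
        push_cast at h4
        exact h4
      rw [if_pos h5]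
      split_ifs <;> linarith
  have hsum := Finset.sum_le_sum (fun (τ : ι → Zt N q) (_ : τ ∈ univ) => hcov τ)
  rw [Finset.sum_const, Finset.card_univ, nsmul_eq_mul, mul_one, Finset.sum_add_distrib,
    Finset.sum_add_distrib, Finset.sum_add_distrib, ← Finset.sum_filter, ← Finset.sum_filter,
    Finset.sum_const,
    Finset.sum_const, nsmul_eq_mul, nsmul_eq_mul, mul_one, mul_one, ← Finset.sum_div,
    ← Finset.sum_div] at hsum
  have h6 : ((univ.filter (fun τ => τ ∈ badAll)).card : ℝ) ≤ 1 / 6 * TT := by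
    have : univ.filter (fun τ => τ ∈ badAll) = badAll := by ext; simp
    rw [this]; exact hb2
  have h6' : ((univ.filter (fun τ => τ ∈ badS)).card : ℝ) ≤ 1 / 10 * TT := by
    have : univ.filter (fun τ => τ ∈ badS) = badS := by ext; simp
    rw [this]; exact hb1
  have h7 : (∑ τ, (f τ : ℝ)) / (60 * N * Q) ≤ 9 / 60 * TT := by
    rw [div_le_iff₀ (by positivity)]
    refine hf.trans (le_of_eq ?_)
    ring
  have h8 : (∑ τ : ι → Zt N q, ((tight g τ).card : ℝ)) / (10 * Y) ≤ 1 / 10 * TT := by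
    rw [div_le_iff₀ (by positivity)]
    refine hsum_tight.trans (le_of_eq ?_)
    ring
  linarith

end Pool.Agent.H1.SA
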