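import Pool.Agent.H1.SA.Main

/-!
The Sherali-Adams lower bound for small-set expansion.
-/

set_option autoImplicit false
set_option linter.unusedSectionVars false
set_option maxHeartbeats 1000000

namespace Pool.Agent.H1.SA

open Finset

theorem level_bound {n m : ℕ} {b ρ γ : ℝ} (hρ : 1 < ρ) (hn1 : 1 ≤ n)
    (hn : (n : ℝ) ≤ b ^ (16 * m + 20)) (hE3 : ρ ^ 2 + 2 ≤ ρ ^ m) (hγ0 : 0 ≤ γ)
    (hγ : γ * (32 * Real.log b) ≤ Real.log ρ) : (n : ℝ) ^ γ ≤ ρ ^ m - 1 := by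
  have hρ0 : 0 < ρ := by linarith
  have hn0 : (0 : ℝ) < n := by
    have : 0 < n := hn1
    exact_mod_cast this
  have hlogρ : 0 < Real.log ρ := Real.log_pos hρ
  have hρm : ρ ^ 2 ≤ ρ ^ m - 2 := by linarith
  have hρ2 : 0 < ρ ^ 2 := by positivity
  have hsq : ((n : ℝ) ^ γ) ^ 2 ≤ (ρ ^ m - 1) ^ 2 := by
    have e1 : ((n : ℝ) ^ γ) ^ 2 = Real.exp (2 * (γ * Real.log n)) := by
      rw [Real.rpow_def_of_pos hn0, ← Real.exp_nat_mul]
      congr 1
      push_cast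
      ring
    have e2 : Real.log n ≤ (16 * m + 20) * Real.log b := by
      have h1 : Real.log n ≤ Real.log (b ^ (16 * m + 20)) := Real.log_le_log hn0 hn
      rw [Real.log_pow] at h1
      push_cast at h1
      exact h1
    have e3 : 2 * (γ * Real.log n) ≤ ((m + 2 : ℕ) : ℝ) * Real.log ρ := by
      have h1 : γ * Real.log n ≤ γ * ((16 * m + 20) * Real.log b) :=
        mul_le_mul_of_nonneg_left e2 hγ0
      have h2 : 2 * (γ * ((16 * m + 20) * Real.log b)) =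
          (m + 5 / 4) * (γ * (32 * Real.log b)) := by ring
      have hm0 : (0 : ℝ) ≤ m := Nat.cast_nonneg _
      have h3 : ((m : ℝ) + 5 / 4) * (γ * (32 * Real.log b)) ≤ (m + 5 / 4) * Real.log ρ :=
        mul_le_mul_of_nonneg_left hγ (by linarith)
      have h4 : ((m : ℝ) + 5 / 4) * Real.log ρ ≤ (m + 2) * Real.log ρ :=
        mul_le_mul_of_nonneg_right (by linarith) hlogρ.le
      push_cast
      linarith
    have e4 : Real.exp (((m + 2 : ℕ) : ℝ) * Real.log ρ) = ρ ^ (m + 2) := by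
      rw [Real.exp_nat_mul, Real.exp_log hρ0]
    rw [e1]
    refine (Real.exp_le_exp.2 e3).trans ?_
    rw [e4, pow_add]
    have h5 : ρ ^ m * ρ ^ 2 ≤ ρ ^ m * (ρ ^ m - 2) := mul_le_mul_of_nonneg_left hρm (by positivity)
    have h6 : (ρ ^ m - 1) ^ 2 = ρ ^ m * (ρ ^ m - 2) + 1 := by ring
    rw [h6]
    linarith
  have h0 : 0 ≤ ρ ^ m - 1 := by linarith
  exact le_of_pow_le_pow_left₀ two_ne_zero h0 hsq

theorem main_sa {q : ℕ} {ε : ℝ} (hq : 2 ≤ q) (hε : 0 < ε) (hε1 : ε ≤ 1) :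
    ∃ d : ℕ, 1 ≤ d ∧ (d : ℝ) ≤ (q / ε) ^ 60 ∧ ∃ N0 : ℕ, ∀ N ≥ N0,
      ∃ G : SimpleGraph (Fin ((N + N) * q)), (∀ x, (G.neighborSet x).ncard = d) ∧
        (∀ S : Finset (Fin ((N + N) * q)), S.card = N + N →
          (1 - 1 / (q : ℝ) - ε) * ((d * S.card : ℕ) : ℝ) ≤ cutSize G S) ∧
        ∃ (r : ℕ) (P : Finset (Fin ((N + N) * q)) → Finset (Fin ((N + N) * q)) → ℝ),
          (((N + N) * q : ℕ) : ℝ) ^ ((ε / q) ^ 60 : ℝ) ≤ r ∧
          IsSolution G r (N + N) (ε * ((d * (N + N) : ℕ) : ℝ)) P := by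
  have hq' : (2 : ℝ) ≤ q := by exact_mod_cast hq
  have hq0 : (0 : ℝ) < q := by linarith
  obtain ⟨Q, hQ⟩ : ∃ Q : ℕ, Q = ⌈960 * (q : ℝ) ^ 2 / ε⌉₊ := ⟨_, rfl⟩
  have hQ1 : 960 * (q : ℝ) ^ 2 / ε ≤ Q := by rw [hQ]; exact Nat.le_ceil _
  have hQ2 : (Q : ℝ) < 960 * (q : ℝ) ^ 2 / ε + 1 := by rw [hQ]; exact Nat.ceil_lt_add_one (by positivity)
  have hQ4 : 960 * (q : ℝ) ^ 2 ≤ ε * Q := by
    rw [div_le_iff₀ hε] at hQ1; linarith
  set Z : ℝ := q / ε with hZ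
  have hZ2 : 2 ≤ Z := by
    rw [hZ, le_div_iff₀ hε]; linarith
  have hZ1 : 1 ≤ Z := by linarith
  have hZ0 : 0 < Z := by linarith
  have hqZ : (q : ℝ) ^ 2 / ε ≤ Z ^ 2 := by
    rw [hZ, div_pow]
    apply div_le_div_of_nonneg_left (by positivity) (by positivity)
    nlinarith
  have h4q := aux_q4 hq'
  have hQZ : (Q : ℝ) ≤ Z ^ 12 := by
    have h1 : 960 * (q : ℝ) ^ 2 / ε = 960 * ((q : ℝ) ^ 2 / ε) := by ring
    have h2 : (1 : ℝ) ≤ Z ^ 2 := one_le_pow₀ hZ1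
    have h3 : (Q : ℝ) ≤ 961 * Z ^ 2 := by
      rw [h1] at hQ2
      linarith
    have h4 : (961 : ℝ) ≤ Z ^ 10 := by
      have := pow_le_pow_left₀ (by norm_num) hZ2 10
      norm_num at this
      linarith
    calc (Q : ℝ) ≤ 961 * Z ^ 2 := h3
      _ ≤ Z ^ 10 * Z ^ 2 := mul_le_mul_of_nonneg_right h4 (by positivity)
      _ = Z ^ 12 := by ring
  have hQbig : (3840 : ℝ) ≤ Q := by
    have h2 : (0 : ℝ) ≤ Q := Nat.cast_nonneg _
    have h3 : ε * (Q : ℝ) ≤ 1 * Q := mul_le_mul_of_nonneg_right hε1 h2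
    linarith
  have hQ0 : (0 : ℝ) < Q := by linarith
  have hQsq : (Q : ℝ) ^ 2 ≤ Z ^ 24 := by
    have := pow_le_pow_left₀ hQ0.le hQZ 2
    rw [← pow_mul] at this
    exact this
  obtain ⟨b, hb⟩ : ∃ b : ℕ, b = 100 * Q ^ 2 := ⟨_, rfl⟩
  have hbv : (b : ℝ) = 100 * (Q : ℝ) ^ 2 := by rw [hb]; push_cast; ring
  have hQQ := aux_Q hQbig
  have hb1 : (1 : ℝ) < b := by linarith
  have hb1' : 1 < b := by exact_mod_cast hb1
  have hbZ : (b : ℝ) ≤ Z ^ 31 := by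
    have h1 : (100 : ℝ) ≤ Z ^ 7 := by
      have := pow_le_pow_left₀ (by norm_num) hZ2 7
      norm_num at this
      linarith
    calc (b : ℝ) = 100 * (Q : ℝ) ^ 2 := hbv
      _ ≤ Z ^ 7 * Z ^ 24 := mul_le_mul h1 hQsq (by positivity) (by positivity)
      _ = Z ^ 31 := by ring
  obtain ⟨η, hη⟩ : ∃ η : ℝ, η = ε ^ 3 / (1024 * q ^ 5) := ⟨_, rfl⟩
  have hη0 : 0 < η := by rw [hη]; positivity
  have hη1 : η < 1 := by
    rw [hη, div_lt_one (by positivity)]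
    have h1 : ε ^ 3 ≤ 1 := pow_le_one₀ hε.le hε1
    have h2 : (1 : ℝ) ≤ (q : ℝ) ^ 5 := one_le_pow₀ (by linarith)
    linarith
  obtain ⟨lam, hlam⟩ : ∃ lam : ℝ, lam = 1 - η := ⟨_, rfl⟩
  obtain ⟨ρ, hρ⟩ : ∃ ρ : ℝ, ρ = 1 + η / 16 := ⟨_, rfl⟩
  have hρ1 : 1 < ρ := by rw [hρ]; linarith
  obtain ⟨m0, hm0⟩ := exists_m0 (lam := lam) (ρ := ρ) (η := η) (C := 5 * (q : ℝ) ^ 3)
    (by rw [hlam]; linarith) (by rw [hlam]; linarith) hρ1 hη0
  -- the exponent
  have hγ : ((ε / q) ^ 60 : ℝ) * (32 * Real.log b) ≤ Real.log ρ := by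
    have h1 : Real.log b ≤ Z ^ 31 := (Real.log_le_self (by linarith)).trans hbZ
    have h2 : (32 : ℝ) ≤ Z ^ 5 := by
      have := pow_le_pow_left₀ (by norm_num) hZ2 5
      norm_num at this
      linarith
    have h3 : 32 * Real.log b ≤ Z ^ 36 := by
      calc 32 * Real.log b ≤ Z ^ 5 * Z ^ 31 :=
            mul_le_mul h2 h1 (Real.log_nonneg hb1.le) (by positivity)
        _ = Z ^ 36 := by ring
    have h4 : (ε / q) ^ 60 = 1 / Z ^ 60 := by
      rw [hZ, div_pow, div_pow, one_div_div]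
    have h5 : 1 / Z ^ 20 ≤ Real.log ρ := by
      have h6 := Real.one_sub_inv_le_log_of_pos (show 0 < ρ by linarith)
      refine le_trans ?_ h6
      have h7 : 1 - ρ⁻¹ = (η / 16) / ρ := by
        rw [hρ]; field_simp; ring
      rw [h7]
      have h8 : η / 16 / 2 ≤ η / 16 / ρ := by
        apply div_le_div_of_nonneg_left (by positivity) (by linarith)
        rw [hρ]; linarith
      refine le_trans ?_ h8
      rw [hη]
      have h9 : ε ^ 3 / (1024 * (q : ℝ) ^ 5) / 16 / 2 = 1 / (32768 * ((q : ℝ) ^ 5 / ε ^ 3)) := by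
        field_simp
        norm_num
      rw [h9]
      apply one_div_le_one_div_of_le (by positivity)
      have h10 : (32768 : ℝ) ≤ Z ^ 15 := by
        have := pow_le_pow_left₀ (by norm_num) hZ2 15
        norm_num at this
        linarith
      have h11 : (q : ℝ) ^ 5 / ε ^ 3 ≤ Z ^ 5 := by
        rw [hZ, div_pow]
        apply div_le_div_of_nonneg_left (by positivity) (by positivity)
        exact pow_le_pow_of_le_one hε.le hε1 (by norm_num)
      calc 32768 * ((q : ℝ) ^ 5 / ε ^ 3) ≤ Z ^ 15 * Z ^ 5 :=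
            mul_le_mul h10 h11 (by positivity) (by positivity)
        _ = Z ^ 20 := by ring
    refine le_trans ?_ h5
    rw [h4]
    calc 1 / Z ^ 60 * (32 * Real.log b) ≤ 1 / Z ^ 60 * Z ^ 36 :=
          mul_le_mul_of_nonneg_left h3 (by positivity)
      _ = 1 / Z ^ 24 := by field_simp
      _ ≤ 1 / Z ^ 20 := one_div_le_one_div_of_le (by positivity)
          (pow_le_pow_right₀ hZ1 (by norm_num))
  refine ⟨Q ^ 2, ?_, ?_, b ^ (16 * m0 + 19), ?_⟩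
  · have : 0 < Q := by exact_mod_cast hQ0
    exact Nat.one_le_pow _ _ this
  · push_cast
    exact hQsq.trans (pow_le_pow_right₀ hZ1 (by norm_num))
  intro N hN
  obtain ⟨m, hm, hN1, hN2⟩ := exists_m hb1' hN
  obtain ⟨hm1, hE1, hE2, hE3⟩ := hm0 m hm
  obtain ⟨G, hreg, hexp, P, hP⟩ := main_step hq hε hε1 hQ4 hb hη hlam hρ hm1 hE1 hE2 hN1
  refine ⟨G, hreg, hexp, ⌊ρ ^ m⌋₊, P, ?_, hP⟩
  have hfl : ρ ^ m < ⌊ρ ^ m⌋₊ + 1 := Nat.lt_floor_add_one _
  have hNpos : 0 < N := lt_of_lt_of_le (pow_pos (by omega) _) hN1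
  have hlev := level_bound (n := (N + N) * q) (m := m) (b := b) (ρ := ρ) (γ := (ε / q) ^ 60)
    hρ1 (Nat.mul_pos (by omega) (by omega)) (by
      have h1 : (N + N) * q ≤ b ^ (16 * m + 20) := by
        have h2 : 2 * q ≤ b := by
          have h3 : (2 : ℝ) * q ≤ b := by
            have h5 := aux_q hq'
            have h6 : (q : ℝ) ^ 2 ≤ Q := by
              have h3 : ε * (Q : ℝ) ≤ 1 * Q := mul_le_mul_of_nonneg_right hε1 hQ0.le
              linarith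
            linarith
          exact_mod_cast h3
        calc (N + N) * q = N * (2 * q) := by ring
          _ ≤ b ^ (16 * m + 19) * b := Nat.mul_le_mul hN2.le h2
          _ = b ^ (16 * m + 20) := by rw [← pow_succ]
      exact_mod_cast h1) hE3 (by positivity) hγ
  linarith

end Pool.Agent.H1.SA
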