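import Mathlib

/-!
Differences of coordinates of Gaussian vectors.
-/

set_option autoImplicit false
set_option linter.unusedSectionVars false

namespace Pool.Agent.H1.SA

open MeasureTheory ProbabilityTheory Finset

variable {ι : Type} [Fintype ι] [DecidableEq ι] {S : Matrix ι ι ℝ}

theorem map_diff (hS : S.PosSemidef) (i j : ι) (hi : S i i = 1) (hj : S j j = 1) :
    (multivariateGaussian (0 : EuclideanSpace ℝ ι) S).map (fun x => x i - x j) =
      gaussianReal 0 (2 - 2 * S i j).toNNReal := by
  set μ := multivariateGaussian (0 : EuclideanSpace ℝ ι) S with hμ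
  set L : StrongDual ℝ (EuclideanSpace ℝ ι) :=
    (EuclideanSpace.proj i : EuclideanSpace ℝ ι →L[ℝ] ℝ) - EuclideanSpace.proj j with hL
  have hLe : (L : EuclideanSpace ℝ ι → ℝ) = fun x => x i - x j := by
    ext x
    simp [hL]
  have h1 := IsGaussian.map_eq_gaussianReal (μ := μ) L
  rw [hLe] at h1
  rw [h1]
  have hm : ∀ k : ι, ∫ x, x k ∂μ = 0 := by
    intro k
    have := (measurePreserving_eval_multivariateGaussian (μ := (0 : EuclideanSpace ℝ ι)) hS
      (i := k)).map_eq
    have h2 : ∫ x, x k ∂μ = ∫ y, y ∂(μ.map fun x => x k) := by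
      rw [integral_map (by fun_prop) (by fun_prop)]
    rw [h2, this]
    simp
  have hmem : ∀ k : ι, MemLp (fun x : EuclideanSpace ℝ ι => x k) 2 μ := by
    intro k
    have := IsGaussian.memLp_dual μ (EuclideanSpace.proj k : EuclideanSpace ℝ ι →L[ℝ] ℝ) 2 (by simp)
    simpa using this
  congr 1
  · rw [integral_sub ((hmem i).integrable (by norm_num)) ((hmem j).integrable (by norm_num)),
      hm, hm, sub_zero]
  · congr 1
    have e : (fun x : EuclideanSpace ℝ ι => x i - x j) = (fun x => x i) - fun x => x j := rfl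
    rw [e, variance_sub (hmem i) (hmem j)]
    rw [variance_eval_multivariateGaussian hS, variance_eval_multivariateGaussian hS,
      covariance_eval_multivariateGaussian hS, hi, hj]
    ring

/-- Chebyshev's inequality for the difference of two coordinates. -/
theorem diff_large (hS : S.PosSemidef) (i j : ι) (hi : S i i = 1) (hj : S j j = 1) {t : ℝ}
    (ht : 0 < t) (h2 : S i j ≤ 1) :
    (multivariateGaussian (0 : EuclideanSpace ℝ ι) S).real {x | t ≤ |x i - x j|} ≤
      (2 - 2 * S i j) / t ^ 2 := by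
  have hmap := map_diff hS i j hi hj
  have hset : {x : EuclideanSpace ℝ ι | t ≤ |x i - x j|} =
      (fun x : EuclideanSpace ℝ ι => x i - x j) ⁻¹' {y | t ≤ |y|} := rfl
  have hms : MeasurableSet {y : ℝ | t ≤ |y|} := measurableSet_le measurable_const (by fun_prop)
  rw [hset, measureReal_def, ← Measure.map_apply (by fun_prop) hms, hmap, ← measureReal_def]
  set v : NNReal := (2 - 2 * S i j).toNNReal with hv
  have h3 := meas_ge_le_variance_div_sq (μ := gaussianReal 0 v) (X := id)
    (memLp_id_gaussianReal 2) ht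
  have h4 : Var[id; gaussianReal 0 v] = 2 - 2 * S i j := by
    rw [variance_id_gaussianReal, hv, Real.coe_toNNReal _ (by linarith)]
  have h5 : (gaussianReal 0 v)[id] = 0 := by simp
  rw [h4, h5] at h3
  simp only [id, sub_zero] at h3
  have h6 : 0 ≤ (2 - 2 * S i j) / t ^ 2 := div_nonneg (by linarith) (by positivity)
  rw [measureReal_def]
  exact ENNReal.toReal_le_of_le_ofReal h6 h3

/-- Anti-concentration for the difference of two uncorrelated coordinates. -/
theorem diff_small (hS : S.PosSemidef) (i j : ι) (hi : S i i = 1) (hj : S j j = 1) {t : ℝ}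
    (ht : 0 ≤ t) (h2 : S i j = 0) :
    (multivariateGaussian (0 : EuclideanSpace ℝ ι) S).real {x | |x i - x j| ≤ t} ≤ t := by
  have hmap := map_diff hS i j hi hj
  have hset : {x : EuclideanSpace ℝ ι | |x i - x j| ≤ t} =
      (fun x : EuclideanSpace ℝ ι => x i - x j) ⁻¹' {y | |y| ≤ t} := rfl
  have hms : MeasurableSet {y : ℝ | |y| ≤ t} := measurableSet_le (by fun_prop) measurable_const
  rw [hset, measureReal_def, ← Measure.map_apply (by fun_prop) hms, hmap, h2]
  set v : NNReal := (2 - 2 * 0 : ℝ).toNNReal with hv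
  have hv2 : (v : ℝ) = 2 := by rw [hv, Real.coe_toNNReal _ (by norm_num)]; norm_num
  have hv0 : v ≠ 0 := by
    intro h
    rw [h] at hv2
    norm_num at hv2
  rw [gaussianReal_apply _ hv0]
  have hset2 : {y : ℝ | |y| ≤ t} = Set.Icc (-t) t := by
    ext y
    simp [abs_le]
  rw [hset2]
  have hb : ∀ x : ℝ, gaussianPDF 0 v x ≤ ENNReal.ofReal (1 / 2) := by
    intro x
    unfold gaussianPDF
    apply ENNReal.ofReal_le_ofReal
    rw [gaussianPDFReal_def]
    simp only
    rw [hv2]
    have h1 : Real.exp (-(x - 0) ^ 2 / (2 * 2)) ≤ 1 := by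
      rw [Real.exp_le_one_iff]
      have := sq_nonneg (x - 0)
      have h2 : -(x - 0) ^ 2 ≤ 0 := by linarith
      exact div_nonpos_of_nonpos_of_nonneg h2 (by norm_num)
    have h3 : (√(2 * Real.pi * 2))⁻¹ ≤ 1 / 2 := by
      rw [one_div]
      apply inv_anti₀ (by norm_num)
      rw [show (2 : ℝ) = √4 by
        rw [show (4 : ℝ) = 2 ^ 2 by norm_num, Real.sqrt_sq (by norm_num)]]
      apply Real.sqrt_le_sqrt
      rw [← show (2 : ℝ) = √4 by
        rw [show (4 : ℝ) = 2 ^ 2 by norm_num, Real.sqrt_sq (by norm_num)]]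
      have := Real.pi_gt_three
      linarith
    have h4 : 0 ≤ (√(2 * Real.pi * 2))⁻¹ := by positivity
    calc (√(2 * Real.pi * 2))⁻¹ * Real.exp (-(x - 0) ^ 2 / (2 * 2))
        ≤ (√(2 * Real.pi * 2))⁻¹ * 1 := mul_le_mul_of_nonneg_left h1 h4
      _ ≤ 1 / 2 := by linarith
  have hint : ∫⁻ x in Set.Icc (-t) t, gaussianPDF 0 v x ≤ ENNReal.ofReal t := by
    calc ∫⁻ x in Set.Icc (-t) t, gaussianPDF 0 v x
        ≤ ∫⁻ _ in Set.Icc (-t) t, ENNReal.ofReal (1 / 2) := lintegral_mono fun x => hb x
      _ = ENNReal.ofReal t := by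
          rw [setLIntegral_const, Real.volume_Icc, ← ENNReal.ofReal_mul (by norm_num)]
          congr 1
          ring
  exact ENNReal.toReal_le_of_le_ofReal ht hint

end Pool.Agent.H1.SA
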