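import Pool.Agent.H1.SA.Gauss
import Pool.Agent.H1.SA.Defs

/-!
Random labels from Gaussian vectors, and the local distributions they give.
-/

set_option autoImplicit false
set_option linter.unusedSectionVars false

namespace Pool.Agent.H1.SA

open MeasureTheory ProbabilityTheory Finset

/-- `a` is the first place where `h` is maximal. -/
def IsM {q : ℕ} (h : Fin q → ℝ) (a : Fin q) : Prop :=
  (∀ b, h b ≤ h a) ∧ ∀ b, b < a → h b < h a

theorem exists_isM {q : ℕ} (hq : 0 < q) (h : Fin q → ℝ) : ∃ a, IsM h a := by
  classical
  have : Nonempty (Fin q) := ⟨⟨0, hq⟩⟩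
  set S : Finset (Fin q) := univ.filter fun a => ∀ b, h b ≤ h a with hS
  have hne : S.Nonempty := by
    obtain ⟨a, _, ha⟩ := exists_max_image (univ : Finset (Fin q)) h univ_nonempty
    exact ⟨a, mem_filter.2 ⟨mem_univ a, fun b => ha b (mem_univ b)⟩⟩
  have hmin := S.min'_mem hne
  refine ⟨S.min' hne, (mem_filter.1 hmin).2, ?_⟩
  intro b hb
  refine lt_of_le_of_ne ((mem_filter.1 hmin).2 b) fun he => ?_
  have : b ∈ S := mem_filter.2 ⟨mem_univ b, fun c => he ▸ (mem_filter.1 hmin).2 c⟩
  exact absurd (S.min'_le b this) (not_le.2 hb)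

theorem isM_unique {q : ℕ} {h : Fin q → ℝ} {a b : Fin q} (ha : IsM h a) (hb : IsM h b) :
    a = b := by
  rcases lt_trichotomy a b with h1 | h1 | h1
  · exact absurd (ha.1 b) (not_le.2 (hb.2 a h1))
  · exact h1
  · exact absurd (hb.1 a) (not_le.2 (ha.2 b h1))

variable {B : Type} [Fintype B] [DecidableEq B] {q : ℕ}

/-- The values of a vector, extended by zero. -/
noncomputable def xt (I : Finset (B × Fin q)) (g : EuclideanSpace ℝ I) (v : B) (b : Fin q) : ℝ :=
  if h : (v, b) ∈ I then g ⟨(v, b), h⟩ else 0

theorem xt_measurable (I : Finset (B × Fin q)) (v : B) (b : Fin q) :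
    Measurable fun g : EuclideanSpace ℝ I => xt I g v b := by
  unfold xt
  split_ifs with h
  · fun_prop
  · fun_prop

/-- The event that the label of `v` is `a`. -/
def Lab (I : Finset (B × Fin q)) (v : B) (a : Fin q) : Set (EuclideanSpace ℝ I) :=
  {g | IsM (xt I g v) a}

theorem lab_measurable (I : Finset (B × Fin q)) (v : B) (a : Fin q) :
    MeasurableSet (Lab I v a) := by
  have h : Lab I v a = (⋂ b, {g | xt I g v b ≤ xt I g v a}) ∩
      ⋂ b, ⋂ _ : b < a, {g | xt I g v b < xt I g v a} := by
    ext g
    simp [Lab, IsM]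
  rw [h]
  refine MeasurableSet.inter ?_ ?_
  · exact MeasurableSet.iInter fun b =>
      measurableSet_le (xt_measurable I v b) (xt_measurable I v a)
  · exact MeasurableSet.iInter fun b => MeasurableSet.iInter fun _ =>
      measurableSet_lt (xt_measurable I v b) (xt_measurable I v a)

/-- The event that the random set meets `A` in `A ∩ T`. -/
def Ev (I A T : Finset (B × Fin q)) : Set (EuclideanSpace ℝ I) :=
  {g | ∀ x ∈ A, (g ∈ Lab I x.1 x.2 ↔ x ∈ T)}

theorem ev_measurable (I A T : Finset (B × Fin q)) : MeasurableSet (Ev I A T) := by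
  have h : Ev I A T = ⋂ x ∈ A, {g | g ∈ Lab I x.1 x.2 ↔ x ∈ T} := by
    ext g
    simp [Ev]
  rw [h]
  refine MeasurableSet.biInter (Finset.countable_toSet A) fun x _ => ?_
  by_cases hx : x ∈ T
  · simp only [hx, iff_true]
    exact lab_measurable I x.1 x.2
  · simp only [hx, iff_false]
    exact (lab_measurable I x.1 x.2).compl

/-- All labels over `D`. -/
def hat (q : ℕ) (D : Finset B) : Finset (B × Fin q) := D ×ˢ univ

theorem mem_hat {D : Finset B} {x : B × Fin q} : x ∈ hat q D ↔ x.1 ∈ D := by
  unfold hat
  simp

theorem hat_subset {D D' : Finset B} (h : D ⊆ D') : hat q D ⊆ hat q D' := fun _ hx =>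
  mem_hat.2 (h (mem_hat.1 hx))

/-- The covariance matrix. -/
def Mt (K : B × Fin q → B × Fin q → ℝ) (I : Finset (B × Fin q)) : Matrix I I ℝ :=
  Matrix.of fun i j => K i.1 j.1

/-- The Gaussian measure. -/
noncomputable def mu (K : B × Fin q → B × Fin q → ℝ) (D : Finset B) :
    Measure (EuclideanSpace ℝ (hat q D)) :=
  multivariateGaussian 0 (Mt K (hat q D))

instance (K : B × Fin q → B × Fin q → ℝ) (D : Finset B) : IsProbabilityMeasure (mu K D) := by
  unfold mu
  infer_instance

variable {K : B × Fin q → B × Fin q → ℝ}

/-- The kernel is positive semidefinite over sets of at most `r` points. -/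
def Psd (K : B × Fin q → B × Fin q → ℝ) (r : ℕ) : Prop :=
  ∀ D : Finset B, D.card ≤ r → (Mt K (hat q D)).PosSemidef

theorem mu_restrict {r : ℕ} (hK : Psd K r) {D D' : Finset B} (hD : D ⊆ D') (hr : D'.card ≤ r) :
    MeasurePreserving (EuclideanSpace.restrict₂ (hat_subset hD)) (mu K D') (mu K D) := by
  have := measurePreserving_restrict₂_multivariateGaussian
    (μ := (0 : EuclideanSpace ℝ (hat q D'))) (hK D' hr) (hat_subset (q := q) hD)
  have e0 : EuclideanSpace.restrict₂ (hat_subset (q := q) hD)
      (0 : EuclideanSpace ℝ (hat q D')) = 0 := map_zero _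
  rw [e0] at this
  exact this

theorem xt_restrict {D D' : Finset B} (hD : D ⊆ D') (g : EuclideanSpace ℝ (hat q D'))
    {v : B} (hv : v ∈ D) :
    xt (hat q D) (EuclideanSpace.restrict₂ (hat_subset hD) g) v = xt (hat q D') g v := by
  funext b
  unfold xt
  have h1 : (v, b) ∈ hat q D := mem_hat.2 hv
  have h2 : (v, b) ∈ hat q D' := mem_hat.2 (hD hv)
  rw [dif_pos h1, dif_pos h2]
  rfl

theorem lab_restrict {D D' : Finset B} (hD : D ⊆ D') {v : B} (hv : v ∈ D) (a : Fin q) :
    EuclideanSpace.restrict₂ (hat_subset hD) ⁻¹' (Lab (hat q D) v a) = Lab (hat q D') v a := by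
  ext g
  simp only [Lab, Set.mem_preimage, Set.mem_ofPred_eq]
  rw [xt_restrict hD g hv]

theorem ev_restrict {D D' : Finset B} (hD : D ⊆ D') {A : Finset (B × Fin q)}
    (hA : ∀ x ∈ A, x.1 ∈ D) (T : Finset (B × Fin q)) :
    EuclideanSpace.restrict₂ (hat_subset hD) ⁻¹' (Ev (hat q D) A T) = Ev (hat q D') A T := by
  ext g
  simp only [Ev, Set.mem_preimage, Set.mem_ofPred_eq]
  refine forall_congr' fun x => forall_congr' fun hx => ?_
  have := lab_restrict hD (hA x hx) x.2
  rw [← this]
  rfl

/-- The local distributions. -/
noncomputable def PP (K : B × Fin q → B × Fin q → ℝ) (A T : Finset (B × Fin q)) : ℝ :=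
  (mu K (A.image Prod.fst)).real (Ev (hat q (A.image Prod.fst)) A T)

theorem PP_eq {r : ℕ} (hK : Psd K r) {D : Finset B} {A : Finset (B × Fin q)}
    (hA : ∀ x ∈ A, x.1 ∈ D) (hD : D.card ≤ r) (T : Finset (B × Fin q)) :
    PP K A T = (mu K D).real (Ev (hat q D) A T) := by
  have hsub : A.image Prod.fst ⊆ D := by
    intro v hv
    obtain ⟨x, hx, rfl⟩ := mem_image.1 hv
    exact hA x hx
  have h1 := (mu_restrict hK hsub hD).measureReal_preimage
    (ev_measurable (hat q (A.image Prod.fst)) A T).nullMeasurableSet
  rw [ev_restrict hsub (fun x hx => mem_image_of_mem _ hx) T] at h1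
  exact h1.symm

theorem sum_lab (hq : 0 < q) (D : Finset B) (v : B) {E : Set (EuclideanSpace ℝ (hat q D))}
    (hE : MeasurableSet E) :
    ∑ a : Fin q, (mu K D).real (E ∩ Lab (hat q D) v a) = (mu K D).real E := by
  have h1 : E = ⋃ a ∈ (univ : Finset (Fin q)), (E ∩ Lab (hat q D) v a) := by
    ext g
    simp only [Set.mem_iUnion, Set.mem_inter_iff, mem_univ, exists_prop, true_and]
    constructor
    · intro hg
      obtain ⟨a, ha⟩ := exists_isM hq (xt (hat q D) g v)
      exact ⟨a, hg, ha⟩
    · rintro ⟨_, hg, _⟩
      exact hg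
  conv_rhs => rw [h1]
  rw [measureReal_biUnion_finset]
  · intro a _ b _ hab
    refine Set.disjoint_left.2 fun g h2 h3 => ?_
    exact hab (isM_unique h2.2 h3.2)
  · intro a _
    exact hE.inter (lab_measurable _ v a)

theorem isSA_PP {r : ℕ} (hq : 0 < q) (hK : Psd K r) :
    IsSA r (Fintype.card B) (PP K) := by
  refine ⟨fun A T _ _ => measureReal_nonneg, ?_, ?_, ?_⟩
  · have : Ev (hat q ((∅ : Finset (B × Fin q)).image Prod.fst)) ∅ ∅ = Set.univ := by
      ext g
      simp [Ev]
    unfold PP
    rw [this]
    exact probReal_univ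
  · intro A T hT hA x hx
    set D := (insert x A).image Prod.fst with hD
    have hDc : D.card ≤ r := (card_image_le.trans (card_insert_le _ _)).trans hA
    have h1 : ∀ y ∈ insert x A, y.1 ∈ D := fun y hy => mem_image_of_mem _ hy
    have h2 : ∀ y ∈ A, y.1 ∈ D := fun y hy => h1 y (mem_insert_of_mem hy)
    rw [PP_eq hK h2 hDc, PP_eq hK h1 hDc, PP_eq hK h1 hDc]
    rw [← measureReal_union]
    · congr 1
      ext g
      simp only [Ev, Set.mem_union, Set.mem_ofPred_eq]
      have hxT : x ∉ T := fun h => hx (hT h)
      constructor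
      · intro h
        by_cases hg : g ∈ Lab (hat q D) x.1 x.2
        · right
          intro y hy
          rcases mem_insert.1 hy with rfl | hy1
          · simp [hg]
          · rw [h y hy1, mem_insert]
            constructor
            · exact Or.inr
            · rintro (rfl | h3)
              · exact absurd hy1 hx
              · exact h3
        · left
          intro y hy
          rcases mem_insert.1 hy with rfl | hy
          · simp [hg, hxT]
          · exact h y hy
      · rintro (h | h)
        · exact fun y hy => h y (mem_insert_of_mem hy)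
        · intro y hy
          rw [h y (mem_insert_of_mem hy), mem_insert]
          constructor
          · rintro (rfl | h3)
            · exact absurd hy hx
            · exact h3
          · exact Or.inr
    · refine Set.disjoint_left.2 fun g h3 h4 => ?_
      have hxT : x ∉ T := fun h => hx (hT h)
      exact hxT ((h3 x (mem_insert_self _ _)).1 ((h4 x (mem_insert_self _ _)).2
        (mem_insert_self _ _)))
    · exact ev_measurable _ _ _
  · intro A T hT hA
    -- the joint probabilities
    have hjoint : ∀ x : B × Fin q, ∀ D : Finset B, D = insert x.1 (A.image Prod.fst) →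
        (mu K D).real (Ev (hat q D) A T ∩ Lab (hat q D) x.1 x.2) =
        if x ∈ A then (if x ∈ T then PP K A T else 0) else PP K (insert x A) (insert x T) := by
      intro x D hD
      have hDc : D.card ≤ r := by
        rw [hD]
        exact (card_insert_le _ _).trans ((Nat.add_le_add_right card_image_le 1).trans hA)
      have h1 : ∀ y ∈ insert x A, y.1 ∈ D := by
        intro y hy
        rw [hD]
        rcases mem_insert.1 hy with rfl | hy
        · exact mem_insert_self _ _
        · exact mem_insert_of_mem (mem_image_of_mem _ hy)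
      have h2 : ∀ y ∈ A, y.1 ∈ D := fun y hy => h1 y (mem_insert_of_mem hy)
      split_ifs with hxA hxT
      · rw [PP_eq hK h2 hDc]
        congr 1
        ext g
        constructor
        · exact fun h => h.1
        · exact fun h => ⟨h, (h x hxA).2 hxT⟩
      · have : Ev (hat q D) A T ∩ Lab (hat q D) x.1 x.2 = ∅ := by
          ext g
          simp only [Set.mem_inter_iff, Set.mem_empty_iff_false, iff_false, not_and]
          exact fun h h3 => hxT ((h x hxA).1 h3)
        rw [this]
        simp
      · rw [PP_eq hK h1 hDc]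
        congr 1
        ext g
        simp only [Ev, Set.mem_inter_iff, Set.mem_ofPred_eq]
        constructor
        · rintro ⟨h, h3⟩ y hy
          rcases mem_insert.1 hy with rfl | hy1
          · simp [h3]
          · rw [h y hy1, mem_insert]
            constructor
            · exact Or.inr
            · rintro (rfl | h3)
              · exact absurd hy1 hxA
              · exact h3
        · intro h
          refine ⟨fun y hy => ?_, (h x (mem_insert_self _ _)).2 (mem_insert_self _ _)⟩
          rw [h y (mem_insert_of_mem hy), mem_insert]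
          constructor
          · rintro (rfl | h3)
            · exact absurd hy hxA
            · exact h3
          · exact Or.inr
    have hv : ∀ v : B, ∑ a : Fin q, (if (v, a) ∈ A then (if (v, a) ∈ T then PP K A T else 0) else
        PP K (insert (v, a) A) (insert (v, a) T)) = PP K A T := by
      intro v
      set D := insert v (A.image Prod.fst) with hD
      have hDc : D.card ≤ r := by
        rw [hD]
        exact (card_insert_le _ _).trans ((Nat.add_le_add_right card_image_le 1).trans hA)
      have h2 : ∀ y ∈ A, y.1 ∈ D := fun y hy => by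
        rw [hD]; exact mem_insert_of_mem (mem_image_of_mem _ hy)
      rw [sum_congr rfl fun a _ => (hjoint (v, a) D hD).symm]
      rw [PP_eq hK h2 hDc]
      exact sum_lab (K := K) hq D v (ev_measurable (hat q D) A T)
    have hall : ∑ x : B × Fin q, (if x ∈ A then (if x ∈ T then PP K A T else 0) else
        PP K (insert x A) (insert x T)) = Fintype.card B * PP K A T := by
      rw [Fintype.sum_prod_type]
      rw [sum_congr rfl fun v _ => hv v]
      simp
    rw [← hall]
    have hsplit := sum_add_sum_compl A (fun x : B × Fin q =>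
      if x ∈ A then (if x ∈ T then PP K A T else 0) else PP K (insert x A) (insert x T))
    rw [← hsplit]
    congr 1
    · rw [sum_congr rfl (g := fun x => if x ∈ T then PP K A T else 0) fun x hx => if_pos hx]
      rw [← sum_filter]
      have : A.filter (fun x => x ∈ T) = T := by
        ext x
        simp only [mem_filter]
        exact ⟨fun h => h.2, fun h => ⟨hT h, h⟩⟩
      rw [this, sum_const, nsmul_eq_mul]
    · refine sum_congr rfl fun x hx => ?_
      rw [if_neg (mem_compl.1 hx)]

end Pool.Agent.H1.SA
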