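import Pool.Agent.H1.SA.Peel

/-!
The kernel `lam ^ distance`, truncated, is positive semidefinite on small sets.
-/

set_option autoImplicit false
set_option linter.unusedSectionVars false

namespace Pool.Agent.H1.SA

open Finset

variable {V : Type} [Fintype V] [DecidableEq V] {G : SimpleGraph V} {m : ℕ} {lam : ℝ} {x y : V}

/-- `lam` to the power of the distance if this is at most `m`, and zero otherwise. -/
noncomputable def kk (G : SimpleGraph V) (m : ℕ) (lam : ℝ) (x y : V) : ℝ :=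
  sSup (insert 0 {t : ℝ | ∃ n ≤ m, Wk G univ n x y ∧ t = lam ^ n})

theorem kk_bdd (h0 : 0 ≤ lam) (h1 : lam ≤ 1) (x y : V) :
    BddAbove (insert 0 {t : ℝ | ∃ n ≤ m, Wk G univ n x y ∧ t = lam ^ n}) := by
  refine ⟨1, ?_⟩
  rintro t (rfl | ⟨n, _, _, rfl⟩)
  · exact zero_le_one
  · exact pow_le_one₀ h0 h1

theorem kk_ge (h0 : 0 ≤ lam) (h1 : lam ≤ 1) {n : ℕ} (hn : n ≤ m) (h : Wk G univ n x y) :
    lam ^ n ≤ kk G m lam x y :=
  le_csSup (kk_bdd h0 h1 x y) (Or.inr ⟨n, hn, h, rfl⟩)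

theorem kk_nonneg (h0 : 0 ≤ lam) (h1 : lam ≤ 1) : 0 ≤ kk G m lam x y :=
  le_csSup (kk_bdd h0 h1 x y) (Or.inl rfl)

theorem kk_le {B : ℝ} (hB : 0 ≤ B) (h : ∀ n ≤ m, Wk G univ n x y → lam ^ n ≤ B) :
    kk G m lam x y ≤ B := by
  refine csSup_le ⟨0, Or.inl rfl⟩ ?_
  rintro t (rfl | ⟨n, hn, hw, rfl⟩)
  · exact hB
  · exact h n hn hw

theorem kk_le_one (h0 : 0 ≤ lam) (h1 : lam ≤ 1) : kk G m lam x y ≤ 1 :=
  kk_le zero_le_one fun _ _ _ => pow_le_one₀ h0 h1

theorem kk_self (h0 : 0 ≤ lam) (h1 : lam ≤ 1) : kk G m lam x x = 1 :=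
  le_antisymm (kk_le_one h0 h1)
    (by simpa using kk_ge h0 h1 (Nat.zero_le m) (Wk.refl (mem_univ x)) (G := G) (lam := lam))

theorem kk_symm (x y : V) : kk G m lam x y = kk G m lam y x := by
  unfold kk
  congr 2
  ext t
  constructor
  · rintro ⟨n, hn, h, rfl⟩; exact ⟨n, hn, h.symm, rfl⟩
  · rintro ⟨n, hn, h, rfl⟩; exact ⟨n, hn, h.symm, rfl⟩

theorem kk_adj (h0 : 0 ≤ lam) (h1 : lam ≤ 1) (hm : 0 < m) (ha : G.Adj x y) :
    lam ≤ kk G m lam x y := by
  have := kk_ge (n := 1) h0 h1 hm (⟨x, Wk.refl (mem_univ x), ha, mem_univ y⟩ : Wk G univ 1 x y)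
  simpa using this

theorem kk_zero (h : ∀ n ≤ m, ¬ Wk G univ n x y) (h0 : 0 ≤ lam) (h1 : lam ≤ 1) :
    kk G m lam x y = 0 :=
  le_antisymm (kk_le le_rfl fun n hn hw => absurd hw (h n hn)) (kk_nonneg h0 h1)

theorem Wk.small {U : Finset V} : ∀ {n : ℕ} {y : V}, Wk G U n x y →
    ∃ S : Finset V, S.card ≤ n + 1 ∧ Wk G S n x y
  | 0, y, h => ⟨{x}, by simp, h.1, mem_singleton_self x⟩
  | n + 1, y, ⟨z, h1, h2, _⟩ => by
    obtain ⟨S, hS, hw⟩ := Wk.small h1
    refine ⟨insert y S, (card_insert_le _ _).trans (by omega), z, hw.mono (subset_insert _ _), h2,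
      mem_insert_self _ _⟩

theorem exists_hull (G : SimpleGraph V) (m : ℕ) (x y : V) :
    ∃ S : Finset V, S.card ≤ m + 1 ∧ ∀ n ≤ m, Wk G univ n x y → ∃ n' ≤ n, Wk G S n' x y := by
  classical
  by_cases h : ∃ n, n ≤ m ∧ Wk G univ n x y
  · obtain ⟨h1, h2⟩ := Nat.find_spec h
    obtain ⟨S, hS, hw⟩ := h2.small
    refine ⟨S, by omega, fun n hn hwn => ⟨Nat.find h, Nat.find_min' h ⟨hn, hwn⟩, hw⟩⟩
  · push Not at h
    exact ⟨∅, by simp, fun n hn hw => absurd hw (h n hn)⟩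

theorem exists_vectors {s : ℕ} (h0 : 0 ≤ lam) (h1 : lam ≤ 1) (hl : lam + lam ^ m ≤ 1)
    (hm : 0 < m) (hG : Peelable G s m) (A : Finset V) (hA : A.card ^ 2 * (m + 1) ≤ s) :
    ∃ (J : Type) (_ : Fintype J) (φ : V → J → ℝ), ∀ x ∈ A, ∀ y ∈ A,
      |ip (φ x) (φ y) - kk G m lam x y| ≤ (4 * s + 1) * lam ^ m := by
  classical
  choose S hS1 hS2 using exists_hull G m
  set W : Finset V := A.biUnion fun x => A.biUnion fun y => S x y with hW
  have hSW : ∀ x ∈ A, ∀ y ∈ A, S x y ⊆ W := by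
    intro x hx y hy a ha
    exact mem_biUnion.2 ⟨x, hx, mem_biUnion.2 ⟨y, hy, ha⟩⟩
  have hWc : W.card ≤ s := by
    refine le_trans ?_ hA
    calc W.card ≤ A.card * (A.card * (m + 1)) := by
          refine card_biUnion_le_card_mul _ _ _ fun x _ => ?_
          exact card_biUnion_le_card_mul _ _ _ fun y _ => hS1 x y
      _ = A.card ^ 2 * (m + 1) := by ring
  have hAW : A ⊆ W := by
    intro x hx
    obtain ⟨n', _, hw⟩ := hS2 x x 0 (Nat.zero_le m) (Wk.refl (mem_univ x))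
    exact hSW x hx x hx hw.fst_mem
  have hL : 0 ≤ lam ^ m := pow_nonneg h0 m
  obtain ⟨J, i, φ, hφ⟩ := rep_of_peelable h0 h1 hl hm hG W.card W rfl hWc
  refine ⟨J, i, φ, fun x hx y hy => ?_⟩
  have h2 := hφ x (hAW hx) y (hAW hy)
  have h3 : kk G m lam x y ≤ kap G W lam x y := by
    refine kk_le (kap_nonneg h0 h1) fun n hn hw => ?_
    obtain ⟨n', hn', hw'⟩ := hS2 x y n hn hw
    exact (pow_le_pow_of_le_one h0 h1 hn').trans (kap_ge h0 h1 (hw'.mono (hSW x hx y hy)))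
  have h4 : kap G W lam x y ≤ kk G m lam x y + lam ^ m := by
    refine kap_le (add_nonneg (kk_nonneg h0 h1) hL) fun n hw => ?_
    rcases Nat.lt_or_ge m n with h | h
    · have h5 : lam ^ n ≤ lam ^ m := pow_le_pow_of_le_one h0 h1 h.le
      have h6 : 0 ≤ kk G m lam x y := kk_nonneg h0 h1
      linarith
    · have := kk_ge h0 h1 h (hw.mono (subset_univ W))
      linarith
  have h5 : 4 * (W.card : ℝ) * lam ^ m ≤ 4 * s * lam ^ m := by
    have : (W.card : ℝ) ≤ s := by exact_mod_cast hWc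
    nlinarith
  rw [abs_le] at h2 ⊢
  constructor <;> linarith

/-- The covariance kernel. -/
noncomputable def KK (G : SimpleGraph V) (m : ℕ) (lam τ : ℝ) (x y : V) : ℝ :=
  (1 - τ) * kk G m lam x y + if x = y then τ else 0

theorem KK_symm (τ : ℝ) (x y : V) : KK G m lam τ x y = KK G m lam τ y x := by
  unfold KK
  rw [kk_symm x y]
  simp only [eq_comm]

theorem KK_self (h0 : 0 ≤ lam) (h1 : lam ≤ 1) (τ : ℝ) (x : V) : KK G m lam τ x x = 1 := by
  unfold KK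
  rw [kk_self h0 h1, if_pos rfl]
  ring

theorem KK_psd {s : ℕ} {τ : ℝ} (h0 : 0 ≤ lam) (h1 : lam ≤ 1) (hl : lam + lam ^ m ≤ 1)
    (hm : 0 < m) (hG : Peelable G s m) (A : Finset V) (hA : A.card ^ 2 * (m + 1) ≤ s)
    (hτ1 : τ ≤ 1) (hτ : A.card * ((4 * s + 1) * lam ^ m) ≤ τ) (c : V → ℝ) :
    0 ≤ ∑ x ∈ A, ∑ y ∈ A, c x * c y * KK G m lam τ x y := by
  classical
  obtain ⟨J, _, φ, hφ⟩ := exists_vectors h0 h1 hl hm hG A hA
  set η : ℝ := (4 * s + 1) * lam ^ m with hη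
  have hη0 : 0 ≤ η := mul_nonneg (by positivity) (pow_nonneg h0 m)
  have hτ0 : 0 ≤ τ := le_trans (by positivity) hτ
  have hsplit : ∑ x ∈ A, ∑ y ∈ A, c x * c y * KK G m lam τ x y =
      (1 - τ) * (∑ x ∈ A, ∑ y ∈ A, c x * c y * kk G m lam x y) + τ * ∑ x ∈ A, c x ^ 2 := by
    rw [mul_sum, mul_sum, ← sum_add_distrib]
    refine sum_congr rfl fun x hx => ?_
    have : τ * c x ^ 2 = ∑ y ∈ A, c x * c y * (if x = y then τ else 0) := by
      rw [sum_eq_single x]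
      · rw [if_pos rfl]; ring
      · intro y _ hy
        rw [if_neg (Ne.symm hy), mul_zero]
      · intro h; exact absurd hx h
    rw [this, mul_sum, ← sum_add_distrib]
    refine sum_congr rfl fun y _ => ?_
    unfold KK
    ring
  have hgram : 0 ≤ ∑ x ∈ A, ∑ y ∈ A, c x * c y * ip (φ x) (φ y) := by
    have : ∑ x ∈ A, ∑ y ∈ A, c x * c y * ip (φ x) (φ y) = ∑ j : J, (∑ x ∈ A, c x * φ x j) ^ 2 := by
      have e : ∀ j : J, (∑ x ∈ A, c x * φ x j) ^ 2 =
          ∑ x ∈ A, ∑ y ∈ A, c x * c y * (φ x j * φ y j) := by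
        intro j
        rw [sq, sum_mul_sum]
        exact sum_congr rfl fun x _ => sum_congr rfl fun y _ => by ring
      symm
      rw [sum_congr rfl fun (j : J) _ => e j, sum_comm]
      refine sum_congr rfl fun x _ => ?_
      rw [sum_comm]
      refine sum_congr rfl fun y _ => ?_
      unfold ip
      rw [mul_sum]
    rw [this]
    exact sum_nonneg fun j _ => sq_nonneg _
  have hdiff : ∑ x ∈ A, ∑ y ∈ A, c x * c y * ip (φ x) (φ y) -
      η * (∑ x ∈ A, |c x|) ^ 2 ≤ ∑ x ∈ A, ∑ y ∈ A, c x * c y * kk G m lam x y := by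
    have e : η * (∑ x ∈ A, |c x|) ^ 2 = ∑ x ∈ A, ∑ y ∈ A, |c x| * |c y| * η := by
      rw [sq, sum_mul_sum, mul_sum]
      refine sum_congr rfl fun x _ => ?_
      rw [mul_sum]
      exact sum_congr rfl fun y _ => by ring
    rw [e, ← sum_sub_distrib]
    refine sum_le_sum fun x hx => ?_
    rw [← sum_sub_distrib]
    refine sum_le_sum fun y hy => ?_
    have h2 := hφ x hx y hy
    have h3 : |c x * c y * (ip (φ x) (φ y) - kk G m lam x y)| ≤ |c x| * |c y| * η := by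
      rw [abs_mul, abs_mul]
      exact mul_le_mul_of_nonneg_left h2 (by positivity)
    rw [abs_le] at h3
    have := h3.2
    rw [mul_sub] at this
    linarith
  have hcs : (∑ x ∈ A, |c x|) ^ 2 ≤ A.card * ∑ x ∈ A, c x ^ 2 := by
    have := sq_sum_le_card_mul_sum_sq (s := A) (f := fun x => |c x|)
    simpa [sq_abs] using this
  rw [hsplit]
  set Q := ∑ x ∈ A, c x ^ 2 with hQ
  have hQ0 : 0 ≤ Q := sum_nonneg fun x _ => sq_nonneg _
  have h5 : -(η * (A.card * Q)) ≤ ∑ x ∈ A, ∑ y ∈ A, c x * c y * kk G m lam x y := by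
    have := mul_le_mul_of_nonneg_left hcs hη0
    linarith
  have h6 : η * (A.card * Q) ≤ τ * Q := by
    have : η * (A.card * Q) = (A.card * η) * Q := by ring
    rw [this]
    exact mul_le_mul_of_nonneg_right hτ hQ0
  have h7 : (1 - τ) * (η * (A.card * Q)) ≤ 1 * (η * (A.card * Q)) :=
    mul_le_mul_of_nonneg_right (by linarith) (by positivity)
  have h8 : (1 - τ) * (-(η * (A.card * Q))) ≤
      (1 - τ) * ∑ x ∈ A, ∑ y ∈ A, c x * c y * kk G m lam x y :=
    mul_le_mul_of_nonneg_left h5 (by linarith)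
  linarith

end Pool.Agent.H1.SA
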