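import Pool.Agent.H1.SA.Exists
import Pool.Agent.H1.SA.Psd

/-!
The lifted graph of the good constraints.
-/

set_option autoImplicit false
set_option linter.unusedSectionVars false

namespace Pool.Agent.H1.SA

open Finset Pool.Agent.W939.SSE

variable {ι : Type} [Fintype ι] [DecidableEq ι] {N q g : ℕ} {τ : ι → Zt N q} {gd : ι → Prop}

/-- The constraint is not inside of a small tight set. -/
def Gd (g : ℕ) (τ : ι → Zt N q) (i : ι) : Prop :=
  ∀ A : Finset (Fin N ⊕ Fin N), A.card ≤ g → InA A (τ i) → cntIn A τ < A.card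

/-- The graph of the good constraints. -/
def G0 (gd : ι → Prop) (τ : ι → Zt N q) : SimpleGraph (Fin N ⊕ Fin N) where
  Adj x y := ∃ i, gd i ∧ ((x = Sum.inl (τ i).1.1 ∧ y = Sum.inr (τ i).1.2) ∨
    (y = Sum.inl (τ i).1.1 ∧ x = Sum.inr (τ i).1.2))
  symm := ⟨fun _ _ ⟨i, hi, h⟩ => ⟨i, hi, h.symm⟩⟩
  loopless := ⟨fun x ⟨i, _, h⟩ => by
    rcases h with h | h
    · exact absurd (h.1.symm.trans h.2) (by simp)
    · exact absurd (h.1.symm.trans h.2) (by simp)⟩

/-- The lifted graph of the good constraints. -/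
def Lg (gd : ι → Prop) (τ : ι → Zt N q) : SimpleGraph ((Fin N ⊕ Fin N) × Fin q) where
  Adj x y := ∃ i a, gd i ∧
    ((x = (Sum.inl (τ i).1.1, a) ∧ y = (Sum.inr (τ i).1.2, (τ i).2 a)) ∨
    (y = (Sum.inl (τ i).1.1, a) ∧ x = (Sum.inr (τ i).1.2, (τ i).2 a)))
  symm := ⟨fun _ _ ⟨i, a, hi, h⟩ => ⟨i, a, hi, h.symm⟩⟩
  loopless := ⟨fun x ⟨i, a, _, h⟩ => by
    rcases h with h | h
    · exact absurd (h.1.symm.trans h.2) (by simp)
    · exact absurd (h.1.symm.trans h.2) (by simp)⟩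

theorem Lg_fst {x y : (Fin N ⊕ Fin N) × Fin q} (h : (Lg gd τ).Adj x y) :
    (G0 gd τ).Adj x.1 y.1 := by
  obtain ⟨i, a, hi, h⟩ := h
  refine ⟨i, hi, ?_⟩
  rcases h with ⟨h1, h2⟩ | ⟨h1, h2⟩
  · left; rw [h1, h2]; exact ⟨rfl, rfl⟩
  · right; rw [h1, h2]; exact ⟨rfl, rfl⟩

/-- Two good constraints with the same end points are equal. -/
theorem good_unique (hg : 2 ≤ g) {i j : ι} (hi : Gd g τ i) (hij : (τ i).1 = (τ j).1) : i = j := by
  classical
  by_contra hne
  set A : Finset (Fin N ⊕ Fin N) := {Sum.inl (τ i).1.1, Sum.inr (τ i).1.2} with hA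
  have hc : A.card = 2 := card_pair (by simp)
  have h1 := hi A (by omega) ⟨by simp [hA], by simp [hA]⟩
  have h2 : ({i, j} : Finset ι) ⊆ univ.filter (fun k => InA A (τ k)) := by
    intro k hk
    rw [mem_filter]
    refine ⟨mem_univ _, ?_⟩
    rcases mem_insert.1 hk with rfl | hk
    · exact ⟨by simp [hA], by simp [hA]⟩
    · rw [mem_singleton] at hk
      subst hk
      refine ⟨?_, ?_⟩
      · rw [← hij]; simp [hA]
      · rw [← hij]; simp [hA]
  have h3 := card_le_card h2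
  rw [card_pair hne] at h3
  have h4 : cntIn A τ = (univ.filter (fun k => InA A (τ k))).card := rfl
  omega

theorem lift_unique (hgd : ∀ i, gd i → Gd g τ i) (hg : 2 ≤ g) {x y z : (Fin N ⊕ Fin N) × Fin q} (hy : (Lg gd τ).Adj x y)
    (hz : (Lg gd τ).Adj x z) (h : y.1 = z.1) : y = z := by
  obtain ⟨i, a, hi, h1⟩ := hy
  obtain ⟨j, b, hj, h2⟩ := hz
  rcases h1 with ⟨h3, h4⟩ | ⟨h3, h4⟩
  · rcases h2 with ⟨h5, h6⟩ | ⟨h5, h6⟩
    · rw [h3] at h5
      simp only [Prod.mk.injEq, Sum.inl.injEq] at h5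
      rw [h4, h6] at h
      simp only [Sum.inr.injEq] at h
      have hij : i = j := good_unique hg (hgd _ hi) (Prod.ext h5.1 h)
      subst hij
      rw [h4, h6, h5.2]
    · rw [h3] at h6
      simp at h6
  · rcases h2 with ⟨h5, h6⟩ | ⟨h5, h6⟩
    · rw [h5] at h4
      simp at h4
    · rw [h4] at h6
      simp only [Prod.mk.injEq, Sum.inr.injEq] at h6
      rw [h3, h5] at h
      simp only [Sum.inl.injEq] at h
      have hij : i = j := good_unique hg (hgd _ hi) (Prod.ext h h6.1)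
      subst hij
      rw [h3, h5, (τ i).2.injective h6.2]

theorem G0_forest (hgd : ∀ i, gd i → Gd g τ i) : LocForest (G0 gd τ) g := by
  classical
  intro S hne hS
  by_contra hcon
  push Not at hcon
  -- there is an edge inside
  obtain ⟨v, hv⟩ := hne
  obtain ⟨y, hy, z, hz, h1, h2, h3⟩ := hcon v hv
  have hne : Nonempty ι := by
    obtain ⟨i, _⟩ := h1
    exact ⟨i⟩
  have hnt : cntIn S τ < S.card := by
    obtain ⟨i, hi, h⟩ := h1
    apply hgd _ hi S hS
    rcases h with ⟨h4, h5⟩ | ⟨h4, h5⟩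
    · exact ⟨h4 ▸ hv, h5 ▸ hy⟩
    · exact ⟨h4 ▸ hy, h5 ▸ hv⟩
  -- count darts
  have hdeg : ∀ v ∈ S, 2 ≤ (nbs (G0 gd τ) S v).card := by
    intro v hv
    obtain ⟨y, hy, z, hz, h1, h2, h3⟩ := hcon v hv
    have : ({y, z} : Finset _) ⊆ nbs (G0 gd τ) S v := by
      intro a ha
      rcases mem_insert.1 ha with rfl | ha
      · exact mem_nbs.2 ⟨hy, h1⟩
      · rw [mem_singleton] at ha
        subst ha
        exact mem_nbs.2 ⟨hz, h2⟩
    calc 2 = ({y, z} : Finset _).card := (card_pair h3).symm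
      _ ≤ _ := card_le_card this
  have hch : ∀ d : (Σ _ : Fin N ⊕ Fin N, Fin N ⊕ Fin N), (G0 gd τ).Adj d.1 d.2 →
      ∃ p : ι × Bool, (if p.2 then (d.1 = Sum.inl (τ p.1).1.1 ∧ d.2 = Sum.inr (τ p.1).1.2) else
        (d.2 = Sum.inl (τ p.1).1.1 ∧ d.1 = Sum.inr (τ p.1).1.2)) := by
    rintro d ⟨i, _, h | h⟩
    · exact ⟨(i, true), by simpa using h⟩
    · exact ⟨(i, false), by simpa using h⟩
  choose! c hc using hch
  have hle : (S.sigma fun v => nbs (G0 gd τ) S v).card ≤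
      ((univ.filter (fun k => InA S (τ k))) ×ˢ (univ : Finset Bool)).card := by
    apply card_le_card_of_injOn c
    · intro d hd
      have hd' := mem_sigma.1 (mem_coe.1 hd)
      have h4 := (mem_nbs.1 hd'.2)
      have h5 := hc d h4.2
      refine mem_coe.2 (mem_product.2 ⟨mem_filter.2 ⟨mem_univ _, ?_⟩, mem_univ _⟩)
      split_ifs at h5
      · exact ⟨h5.1 ▸ hd'.1, h5.2 ▸ h4.1⟩
      · exact ⟨h5.1 ▸ h4.1, h5.2 ▸ hd'.1⟩
    · intro d hd d' hd' h
      have h4 := hc d (mem_nbs.1 (mem_sigma.1 (mem_coe.1 hd)).2).2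
      have h5 := hc d' (mem_nbs.1 (mem_sigma.1 (mem_coe.1 hd')).2).2
      rw [← h] at h5
      obtain ⟨d1, d2⟩ := d
      obtain ⟨d1', d2'⟩ := d'
      simp only at h4 h5
      split_ifs at h4 h5
      · have e1 := h4.1.trans h5.1.symm
        have e2 := h4.2.trans h5.2.symm
        rw [e1, e2]
      · have e1 := h4.2.trans h5.2.symm
        have e2 := h4.1.trans h5.1.symm
        rw [e1, e2]
  rw [card_sigma, card_product, card_univ, Fintype.card_bool] at hle
  have h4 : cntIn S τ = (univ.filter (fun k => InA S (τ k))).card := rfl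
  rw [← h4] at hle
  have h5 : S.card * 2 ≤ ∑ v ∈ S, (nbs (G0 gd τ) S v).card := by
    rw [← smul_eq_mul, ← sum_const]
    exact sum_le_sum hdeg
  omega

theorem Lg_forest (hgd : ∀ i, gd i → Gd g τ i) (hg : 2 ≤ g) : LocForest (Lg gd τ) g := by
  classical
  intro S hne hS
  by_contra hcon
  push Not at hcon
  obtain ⟨v, hv, hu⟩ := G0_forest hgd (S.image Prod.fst) (hne.image _)
    (card_image_le.trans hS)
  obtain ⟨x, hx, rfl⟩ := mem_image.1 hv
  obtain ⟨y, hy, z, hz, h1, h2, h3⟩ := hcon x hx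
  have h4 := hu y.1 (mem_image_of_mem _ hy) z.1 (mem_image_of_mem _ hz) (Lg_fst h1) (Lg_fst h2)
  exact h3 (lift_unique hgd hg h1 h2 h4)

/-! ### Walks as sequences -/

theorem Wk.seq {V : Type} {G : SimpleGraph V} {W : Finset V} {x : V} :
    ∀ {n : ℕ} {y : V}, Wk G W n x y →
    ∃ p : ℕ → V, p 0 = x ∧ p n = y ∧ ∀ i < n, G.Adj (p i) (p (i + 1))
  | 0, y, h => ⟨fun _ => x, rfl, h.1, fun i hi => absurd hi (by omega)⟩
  | n + 1, y, ⟨z, h1, h2, _⟩ => by
    obtain ⟨p, hp0, hpn, hp⟩ := Wk.seq h1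
    refine ⟨fun i => if i ≤ n then p i else y, by simp [hp0], by simp, ?_⟩
    intro i hi
    rcases Nat.lt_or_ge i n with h | h
    · simp only [show i ≤ n by omega, show i + 1 ≤ n by omega, if_true]
      exact hp i h
    · have : i = n := by omega
      subst this
      simp only [le_rfl, if_true, show ¬ i + 1 ≤ i by omega, if_false]
      rw [hpn]
      exact h2

theorem wk_of_seq {V : Type} [Fintype V] {G : SimpleGraph V} (p : ℕ → V) (i : ℕ) :
    ∀ n : ℕ, (∀ k < n, G.Adj (p (i + k)) (p (i + k + 1))) → Wk G univ n (p i) (p (i + n))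
  | 0, _ => ⟨rfl, mem_univ _⟩
  | n + 1, h => ⟨p (i + n), wk_of_seq p i n fun k hk => h k (by omega), h n (by omega),
      mem_univ _⟩

/-- Different labels of a vertex are far apart. -/
theorem Lg_far (hgd : ∀ i, gd i → Gd g τ i) (hg : 2 ≤ g) {v : Fin N ⊕ Fin N} {a b : Fin q} (hab : a ≠ b) :
    ∀ n ≤ g, ¬ Wk (Lg gd τ) univ n (v, a) (v, b) := by
  classical
  intro n0 hn0 hw0
  have hex : ∃ n, Wk (Lg gd τ) univ n (v, a) (v, b) := ⟨n0, hw0⟩
  set n := Nat.find hex with hn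
  have hw : Wk (Lg gd τ) univ n (v, a) (v, b) := Nat.find_spec hex
  have hng : n ≤ g := (Nat.find_min' hex hw0).trans hn0
  have hmin : ∀ k < n, ¬ Wk (Lg gd τ) univ k (v, a) (v, b) := fun k hk => Nat.find_min hex hk
  obtain ⟨p, hp0, hpn, hp⟩ := hw.seq
  have hnb : ∀ i, i + 2 ≤ n → p i ≠ p (i + 2) := by
    intro i hi heq
    apply hmin (i + (n - (i + 2))) (by omega)
    have h1 := wk_of_seq (G := Lg gd τ) p 0 i fun k hk => by
      rw [Nat.zero_add]; exact hp k (by omega)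
    have h2 := wk_of_seq (G := Lg gd τ) p (i + 2) (n - (i + 2)) fun k hk => hp _ (by omega)
    rw [Nat.zero_add, heq] at h1
    have h3 := h1.trans h2
    rw [Nat.add_sub_of_le hi, hpn, hp0] at h3
    exact h3
  have hn1 : 0 < n := by
    rcases Nat.eq_zero_or_pos n with h | h
    · rw [h] at hpn
      rw [hp0] at hpn
      exact absurd (congrArg Prod.snd hpn) hab
    · exact h
  have h4 := nb_inj (n := n) (G0_forest hgd) (fun i => (p i).1) hng
    (fun i hi => Lg_fst (hp i hi)) (fun i hi h => by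
      apply hnb i hi
      exact lift_unique hgd hg (hp i (by omega)).symm (hp (i + 1) (by omega)) h) 0 n hn1 le_rfl
  apply h4
  rw [hp0, hpn]

/-! ### Sparsity -/

theorem Lg_sparse {R s0 : ℕ} (hR : 1 ≤ R)
    (hsp : ∀ A : Finset (Fin N ⊕ Fin N), A.card ≤ s0 → R * cntIn A τ ≤ (R + 1) * A.card)
    (W : Finset ((Fin N ⊕ Fin N) × Fin q)) (hW : W.card ≤ s0) :
    (∑ x ∈ W, ((nbs (Lg gd τ) W x).card : ℝ)) ≤ (2 + 2 / (R : ℝ)) * W.card := by
  classical
  -- fibres
  set F : Fin N ⊕ Fin N → Finset (Fin q) := fun v => univ.filter fun a => (v, a) ∈ W with hF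
  set A : ℕ → Finset (Fin N ⊕ Fin N) := fun t => univ.filter fun v => t ≤ (F v).card with hA
  have hWF : ∑ v, (F v).card = W.card := by
    rw [card_eq_sum_card_fiberwise (f := Prod.fst) (t := univ) (fun _ _ => mem_univ _)]
    refine sum_congr rfl fun v _ => ?_
    apply card_bij (fun a _ => (v, a))
    · intro a ha
      exact mem_filter.2 ⟨(mem_filter.1 ha).2, rfl⟩
    · intro a _ b _ h
      exact (Prod.mk.inj h).2
    · rintro ⟨v', a⟩ hx
      obtain ⟨h1, rfl⟩ := mem_filter.1 hx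
      exact ⟨a, mem_filter.2 ⟨mem_univ _, h1⟩, rfl⟩
  have hFq : ∀ v, (F v).card ≤ q := fun v => (card_filter_le _ _).trans (by simp)
  have hAW : ∑ t ∈ Icc 1 q, (A t).card = W.card := by
    rw [← hWF]
    have : ∀ t ∈ Icc 1 q, (A t).card = ∑ v, if t ≤ (F v).card then 1 else 0 := by
      intro t _
      rw [card_filter]
    rw [sum_congr rfl this, sum_comm]
    refine sum_congr rfl fun v _ => ?_
    rw [← card_filter]
    have : (Icc 1 q).filter (fun t => t ≤ (F v).card) = Icc 1 (F v).card := by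
      ext t
      simp only [mem_filter, mem_Icc]
      have := hFq v
      omega
    rw [this, Nat.card_Icc]
    omega
  have hAc : ∀ t ∈ Icc 1 q, (A t).card ≤ s0 := by
    intro t ht
    refine le_trans ?_ hW
    rw [← hAW]
    exact single_le_sum (f := fun t => (A t).card) (fun _ _ => Nat.zero_le _) ht
  -- lifted edges inside of W
  set P : Finset (ι × Fin q) := univ.filter fun p =>
    ((Sum.inl (τ p.1).1.1, p.2) : (Fin N ⊕ Fin N) × Fin q) ∈ W ∧
      ((Sum.inr (τ p.1).1.2, (τ p.1).2 p.2) : (Fin N ⊕ Fin N) × Fin q) ∈ W with hP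
  have hPc : P.card ≤ ∑ t ∈ Icc 1 q, cntIn (A t) τ := by
    have h1 : P.card = ∑ i : ι, (univ.filter fun a : Fin q =>
        ((Sum.inl (τ i).1.1, a) : (Fin N ⊕ Fin N) × Fin q) ∈ W ∧
        ((Sum.inr (τ i).1.2, (τ i).2 a) : (Fin N ⊕ Fin N) × Fin q) ∈ W).card := by
      rw [card_eq_sum_card_fiberwise (f := Prod.fst) (t := univ) (fun _ _ => mem_univ _)]
      refine sum_congr rfl fun i _ => ?_
      symm
      apply card_bij (fun a _ => (i, a))
      · intro a ha
        exact mem_filter.2 ⟨mem_filter.2 ⟨mem_univ _, (mem_filter.1 ha).2⟩, rfl⟩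
      · intro a _ b _ h
        exact (Prod.mk.inj h).2
      · rintro ⟨i', a⟩ hx
        obtain ⟨h1, rfl⟩ := mem_filter.1 hx
        exact ⟨a, mem_filter.2 ⟨mem_univ _, (mem_filter.1 h1).2⟩, rfl⟩
    have h2 : ∀ i : ι, (univ.filter fun a : Fin q =>
        ((Sum.inl (τ i).1.1, a) : (Fin N ⊕ Fin N) × Fin q) ∈ W ∧
        ((Sum.inr (τ i).1.2, (τ i).2 a) : (Fin N ⊕ Fin N) × Fin q) ∈ W).card ≤
        ∑ t ∈ Icc 1 q, if InA (A t) (τ i) then 1 else 0 := by
      intro i
      rw [← card_filter]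
      set c := (univ.filter fun a : Fin q =>
        ((Sum.inl (τ i).1.1, a) : (Fin N ⊕ Fin N) × Fin q) ∈ W ∧
        ((Sum.inr (τ i).1.2, (τ i).2 a) : (Fin N ⊕ Fin N) × Fin q) ∈ W).card with hc
      have hc1 : c ≤ (F (Sum.inl (τ i).1.1)).card := by
        apply card_le_card
        intro a ha
        exact mem_filter.2 ⟨mem_univ _, (mem_filter.1 ha).2.1⟩
      have hc2 : c ≤ (F (Sum.inr (τ i).1.2)).card := by
        rw [hc, ← card_image_of_injective _ (τ i).2.injective]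
        apply card_le_card
        intro b hb
        obtain ⟨a, ha, rfl⟩ := mem_image.1 hb
        exact mem_filter.2 ⟨mem_univ _, (mem_filter.1 ha).2.2⟩
      have hsub : Icc 1 c ⊆ (Icc 1 q).filter (fun t => InA (A t) (τ i)) := by
        intro t ht
        rw [mem_Icc] at ht
        rw [mem_filter, mem_Icc]
        have hq1 := hFq (Sum.inl (τ i).1.1)
        refine ⟨⟨ht.1, by omega⟩, mem_filter.2 ⟨mem_univ _, by omega⟩,
          mem_filter.2 ⟨mem_univ _, by omega⟩⟩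
      have := card_le_card hsub
      rw [Nat.card_Icc] at this
      omega
    rw [h1]
    refine (sum_le_sum fun i _ => h2 i).trans (le_of_eq ?_)
    rw [sum_comm]
    refine sum_congr rfl fun t _ => ?_
    rw [← card_filter]
    rfl
  have hRP : R * P.card ≤ (R + 1) * W.card := by
    calc R * P.card ≤ R * ∑ t ∈ Icc 1 q, cntIn (A t) τ := Nat.mul_le_mul_left _ hPc
      _ = ∑ t ∈ Icc 1 q, R * cntIn (A t) τ := by rw [mul_sum]
      _ ≤ ∑ t ∈ Icc 1 q, (R + 1) * (A t).card := sum_le_sum fun t ht => hsp _ (hAc t ht)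
      _ = (R + 1) * W.card := by rw [← mul_sum, hAW]
  -- darts
  have hch : ∀ d : (Σ _ : (Fin N ⊕ Fin N) × Fin q, (Fin N ⊕ Fin N) × Fin q),
      (Lg gd τ).Adj d.1 d.2 →
      ∃ p : (ι × Fin q) × Bool, (if p.2 then
        (d.1 = (Sum.inl (τ p.1.1).1.1, p.1.2) ∧
          d.2 = (Sum.inr (τ p.1.1).1.2, (τ p.1.1).2 p.1.2)) else
        (d.2 = (Sum.inl (τ p.1.1).1.1, p.1.2) ∧
          d.1 = (Sum.inr (τ p.1.1).1.2, (τ p.1.1).2 p.1.2))) := by
    rintro d ⟨i, a, _, h | h⟩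
    · exact ⟨((i, a), true), by simpa using h⟩
    · exact ⟨((i, a), false), by simpa using h⟩
  have hR' : (0 : ℝ) < R := by exact_mod_cast hR
  rcases isEmpty_or_nonempty ((ι × Fin q) × Bool) with hemp | hnemp
  · have h0 : ∀ x ∈ W, ((nbs (Lg gd τ) W x).card : ℝ) = 0 := by
      intro x _
      rw [Nat.cast_eq_zero, card_eq_zero, eq_empty_iff_forall_notMem]
      intro y hy
      obtain ⟨p, _⟩ := hch ⟨x, y⟩ (mem_nbs.1 hy).2
      exact hemp.false p
    rw [sum_eq_zero h0]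
    positivity
  choose! c hc using hch
  have hle : (W.sigma fun v => nbs (Lg gd τ) W v).card ≤ (P ×ˢ (univ : Finset Bool)).card := by
    apply card_le_card_of_injOn c
    · intro d hd
      have hd' := mem_sigma.1 (mem_coe.1 hd)
      have h4 := (mem_nbs.1 hd'.2)
      have h5 := hc d h4.2
      refine mem_coe.2 (mem_product.2 ⟨mem_filter.2 ⟨mem_univ _, ?_⟩, mem_univ _⟩)
      split_ifs at h5
      · exact ⟨h5.1 ▸ hd'.1, h5.2 ▸ h4.1⟩
      · exact ⟨h5.1 ▸ h4.1, h5.2 ▸ hd'.1⟩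
    · intro d hd d' hd' h
      have h4 := hc d (mem_nbs.1 (mem_sigma.1 (mem_coe.1 hd)).2).2
      have h5 := hc d' (mem_nbs.1 (mem_sigma.1 (mem_coe.1 hd')).2).2
      rw [← h] at h5
      obtain ⟨d1, d2⟩ := d
      obtain ⟨d1', d2'⟩ := d'
      simp only at h4 h5
      split_ifs at h4 h5
      · have e1 := h4.1.trans h5.1.symm
        have e2 := h4.2.trans h5.2.symm
        rw [e1, e2]
      · have e1 := h4.2.trans h5.2.symm
        have e2 := h4.1.trans h5.1.symm
        rw [e1, e2]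
  rw [card_sigma, card_product, card_univ, Fintype.card_bool] at hle
  have h6 : (∑ x ∈ W, ((nbs (Lg gd τ) W x).card : ℝ)) ≤ P.card * 2 := by exact_mod_cast hle
  have h7 : (R : ℝ) * P.card ≤ (R + 1) * W.card := by exact_mod_cast hRP
  refine h6.trans ?_
  have h8 : (2 + 2 / (R : ℝ)) * W.card = 2 * ((R + 1) * W.card) / R := by
    field_simp
  rw [h8, le_div_iff₀ hR']
  linarith

end Pool.Agent.H1.SA
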