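import Pool.Agent.H1.SA.Core

/-!
The Sherali-Adams lower bound for small-set expansion: choice of the parameters.
-/

set_option autoImplicit false
set_option linter.unusedSectionVars false
set_option maxHeartbeats 4000000

namespace Pool.Agent.H1.SA

open Finset Pool.Agent.W939.SSE

theorem IsSolution.mono {V : Type} [Fintype V] [DecidableEq V] {G : SimpleGraph V} {r k : ℕ}
    {c c' : ℝ} {P : Finset V → Finset V → ℝ} (h : IsSolution G r k c P) (hc : c ≤ c') :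
    IsSolution G r k c' P := by
  refine ⟨h.sa, fun A T hT hA => (h.cut A T hT hA).trans ?_⟩
  exact mul_le_mul_of_nonneg_right hc (h.sa.nonneg A T hT (by omega))

theorem exists_m0 {lam ρ η C : ℝ} (h0 : 0 ≤ lam) (h1 : lam < 1) (hρ : 1 < ρ) (hη : 0 < η) :
    ∃ m0 : ℕ, ∀ m ≥ m0, 1 ≤ m ∧ C * (m + 1) ≤ η * ρ ^ m ∧ lam ^ m ≤ η ∧ ρ ^ 2 + 2 ≤ ρ ^ m := by
  have e1 : ∀ᶠ m : ℕ in Filter.atTop, (m : ℝ) ^ 1 / ρ ^ m < η / (2 * (|C| + 1)) :=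
    (tendsto_pow_const_div_const_pow_of_one_lt 1 hρ).eventually
      (gt_mem_nhds (by positivity))
  have e2 : ∀ᶠ m : ℕ in Filter.atTop, lam ^ m < η :=
    (tendsto_pow_atTop_nhds_zero_of_lt_one h0 h1).eventually (gt_mem_nhds hη)
  have e3 : ∀ᶠ m : ℕ in Filter.atTop, ρ ^ 2 + 2 ≤ ρ ^ m :=
    (tendsto_pow_atTop_atTop_of_one_lt hρ).eventually_ge_atTop _
  have e4 : ∀ᶠ m : ℕ in Filter.atTop, 1 ≤ m := Filter.eventually_ge_atTop 1
  obtain ⟨m0, hm0⟩ := Filter.eventually_atTop.1 (e1.and (e2.and (e3.and e4)))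
  refine ⟨m0, fun m hm => ?_⟩
  obtain ⟨h2, h3, h4, h5⟩ := hm0 m hm
  refine ⟨h5, ?_, h3.le, h4⟩
  have hρm : 0 < ρ ^ m := pow_pos (by linarith) m
  have hm1 : (1 : ℝ) ≤ m := by exact_mod_cast h5
  rw [pow_one, div_lt_iff₀ hρm] at h2
  have h6 : (|C| + 1) * (2 * (m : ℝ)) ≤ η * ρ ^ m := by
    have hC : 0 < 2 * (|C| + 1) := by positivity
    have h7 : 2 * (|C| + 1) * (m : ℝ) ≤ 2 * (|C| + 1) * (η / (2 * (|C| + 1)) * ρ ^ m) :=
      mul_le_mul_of_nonneg_left h2.le hC.le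
    have h8 : 2 * (|C| + 1) * (η / (2 * (|C| + 1)) * ρ ^ m) = η * ρ ^ m := by
      field_simp
    linarith
  have h7 : C * (m + 1) ≤ (|C| + 1) * (2 * (m : ℝ)) := by
    have h8 : C ≤ |C| := le_abs_self C
    have h9 : 0 ≤ |C| := abs_nonneg C
    nlinarith
  linarith

theorem exists_m {b N m0 : ℕ} (hb : 1 < b) (hN : b ^ (16 * m0 + 19) ≤ N) :
    ∃ m ≥ m0, b ^ (16 * m + 3) ≤ N ∧ N < b ^ (16 * m + 19) := by
  have hN0 : N ≠ 0 := by
    have : 0 < b ^ (16 * m0 + 19) := pow_pos (by omega) _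
    omega
  have hM : 16 * m0 + 19 ≤ Nat.log b N := Nat.le_log_of_pow_le hb hN
  refine ⟨(Nat.log b N - 3) / 16, by omega, ?_, ?_⟩
  · refine le_trans (Nat.pow_le_pow_right (by omega) ?_) (Nat.pow_log_le_self b hN0)
    omega
  · refine lt_of_lt_of_le (Nat.lt_pow_succ_log_self hb N) ?_
    apply Nat.pow_le_pow_right (by omega)
    omega

theorem rho_lam {η : ℝ} (h0 : 0 ≤ η) (h1 : η ≤ 1) : (1 + η / 16) ^ 4 * (1 - η) ≤ 1 := by
  have e1 : 1 + η / 16 ≤ Real.exp (η / 16) := by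
    have := Real.add_one_le_exp (η / 16); linarith
  have e2 : 1 - η ≤ Real.exp (-η) := by
    have := Real.add_one_le_exp (-η); linarith
  have e3 : (1 + η / 16) ^ 4 ≤ Real.exp (η / 16) ^ 4 := pow_le_pow_left₀ (by positivity) e1 4
  have e4 : Real.exp (η / 16) ^ 4 = Real.exp (η / 4) := by
    rw [← Real.exp_nat_mul]
    congr 1
    push_cast
    ring
  rw [e4] at e3
  calc (1 + η / 16) ^ 4 * (1 - η) ≤ Real.exp (η / 4) * Real.exp (-η) :=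
        mul_le_mul e3 e2 (by linarith) (Real.exp_pos _).le
    _ = Real.exp (η / 4 - η) := by rw [← Real.exp_add]; congr 1
    _ ≤ Real.exp 0 := Real.exp_le_exp.2 (by linarith)
    _ = 1 := Real.exp_zero

theorem aux_q {q : ℝ} (hq : 2 ≤ q) : q ≤ q ^ 2 := by nlinarith

theorem aux_q4 {q : ℝ} (hq : 2 ≤ q) : 4 ≤ q ^ 2 := by nlinarith

theorem aux_Q {Q : ℝ} (hQ : 3840 ≤ Q) : Q ≤ Q ^ 2 := by nlinarith

theorem aux_e : Real.exp 1 ^ 2 ≤ 10 := by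
  have h1 : Real.exp 1 ≤ 2.7182818286 := Real.exp_one_lt_d9.le
  have h2 : 0 < Real.exp 1 := Real.exp_pos 1
  nlinarith

theorem aux_rho {η : ℝ} (h0 : 0 ≤ η) (h1 : η ≤ 1) : (1 + η / 16) ^ 2 ≤ 2 := by nlinarith

theorem aux_qq {q : ℝ} (hq : 2 ≤ q) : 8 * q * (q + 1) ≤ 16 * q ^ 2 := by nlinarith

theorem aux_qqq {q : ℝ} (hq : 2 ≤ q) : q ^ 2 ≤ (q ^ 2) ^ 2 := by
  have := aux_q4 hq
  nlinarith

theorem aux_eta {η : ℝ} : 2 - 2 * ((1 - η) * (1 - η)) ≤ 4 * η := by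
  have : (1 - η) * (1 - η) = 1 - 2 * η + η ^ 2 := by ring
  have h2 := sq_nonneg η
  linarith

theorem main_step {q Q b m N : ℕ} {ε η lam ρ : ℝ} (hq : 2 ≤ q) (hε : 0 < ε) (hε1 : ε ≤ 1)
    (hQ4 : 960 * (q : ℝ) ^ 2 ≤ ε * Q) (hb : b = 100 * Q ^ 2)
    (hη : η = ε ^ 3 / (1024 * q ^ 5)) (hlam : lam = 1 - η) (hρ : ρ = 1 + η / 16) (hm1 : 1 ≤ m)
    (hE1 : 5 * (q : ℝ) ^ 3 * (m + 1) ≤ η * ρ ^ m) (hE2 : lam ^ m ≤ η)
    (hN1 : b ^ (16 * m + 3) ≤ N) :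
    ∃ G : SimpleGraph (Fin ((N + N) * q)), (∀ x, (G.neighborSet x).ncard = Q ^ 2) ∧
      (∀ S : Finset (Fin ((N + N) * q)), S.card = N + N →
        (1 - 1 / (q : ℝ) - ε) * ((Q ^ 2 * S.card : ℕ) : ℝ) ≤ cutSize G S) ∧
      ∃ P : Finset (Fin ((N + N) * q)) → Finset (Fin ((N + N) * q)) → ℝ,
        IsSolution G ⌊ρ ^ m⌋₊ (N + N) (ε * ((Q ^ 2 * (N + N) : ℕ) : ℝ)) P := by
  have hq' : (2 : ℝ) ≤ q := by exact_mod_cast hq
  have hq0 : (0 : ℝ) < q := by linarith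
  have hη0 : 0 < η := by rw [hη]; positivity
  have hη1 : η ≤ 1 := by
    rw [hη, div_le_one (by positivity)]
    have h1 : ε ^ 3 ≤ 1 := pow_le_one₀ hε.le hε1
    have h2 : (1 : ℝ) ≤ (q : ℝ) ^ 5 := one_le_pow₀ (by linarith)
    linarith
  have hlam0 : 0 ≤ lam := by rw [hlam]; linarith
  have hlam1 : lam ≤ 1 := by rw [hlam]; linarith
  have hρ1 : 1 ≤ ρ := by rw [hρ]; linarith
  have hρ0 : 0 < ρ := by linarith
  have hρ2 : ρ ^ 2 ≤ 2 := by rw [hρ]; exact aux_rho hη0.le hη1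
  have hqq := aux_q hq'
  have hq4 := aux_q4 hq'
  have hρ4 : ρ ^ 4 * lam ≤ 1 := by rw [hρ, hlam]; exact rho_lam hη0.le hη1
  -- the size of Q
  have hQbig : (3840 : ℝ) ≤ Q := by
    have h1 : (3840 : ℝ) ≤ 960 * (q : ℝ) ^ 2 := by linarith
    have h2 : (0 : ℝ) ≤ Q := Nat.cast_nonneg _
    have h3 : ε * (Q : ℝ) ≤ 1 * Q := mul_le_mul_of_nonneg_right hε1 h2
    linarith
  have hQbig' : 3840 ≤ Q := by exact_mod_cast hQbig
  have hQ0 : (0 : ℝ) < Q := by linarith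
  have hqQ : (q : ℝ) ^ 2 ≤ Q := by
    have h3 : ε * (Q : ℝ) ≤ 1 * Q := mul_le_mul_of_nonneg_right hε1 hQ0.le
    have h4 : 0 ≤ (q : ℝ) ^ 2 := by positivity
    linarith
  have hQQ := aux_Q hQbig
  have hbv : (b : ℝ) = 100 * (Q : ℝ) ^ 2 := by rw [hb]; push_cast; ring
  have hb1 : (1 : ℝ) ≤ b := by linarith
  have hb0 : (0 : ℝ) < b := by linarith
  have hN1' : (b : ℝ) ^ (16 * m + 3) ≤ N := by exact_mod_cast hN1
  have hNbig : (b : ℝ) ^ 3 ≤ N := (pow_le_pow_right₀ hb1 (by omega)).trans hN1'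
  have hN0 : (0 : ℝ) < N := lt_of_lt_of_le (by positivity) hNbig
  have hN : 0 < N := by exact_mod_cast hN0
  have hQb : (Q : ℝ) ≤ b := by linarith
  have hNQ : Q ^ 3 ≤ N := by
    have : ((Q ^ 3 : ℕ) : ℝ) ≤ N := by
      push_cast
      exact (pow_le_pow_left₀ hQ0.le hQb 3).trans hNbig
    exact_mod_cast this
  have he1 : 0 < Real.exp 1 := Real.exp_pos 1
  have he3 : Real.exp 1 ≤ 2.7182818286 := Real.exp_one_lt_d9.le
  have hesq := aux_e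
  -- the level
  obtain ⟨r, hr⟩ : ∃ r : ℕ, r = ⌊ρ ^ m⌋₊ := ⟨_, rfl⟩
  have hρm1 : 1 ≤ ρ ^ m := one_le_pow₀ hρ1
  have hr1 : (r : ℝ) ≤ ρ ^ m := by rw [hr]; exact Nat.floor_le (by positivity)
  have hr2 : 1 ≤ r := by rw [hr]; exact Nat.le_floor (by simpa using hρm1)
  have hr2' : (1 : ℝ) ≤ r := by exact_mod_cast hr2
  have h2m : (ρ ^ m) ^ 2 ≤ 2 ^ m := by
    rw [← pow_mul, mul_comm, pow_mul]
    exact pow_le_pow_left₀ (by positivity) hρ2 m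
  have hbm2 : (2 : ℝ) ^ m ≤ (b : ℝ) ^ m := by
    apply pow_le_pow_left₀ (by norm_num)
    linarith
  have hρmle : ρ ^ m ≤ 2 ^ m := by
    refine le_trans ?_ h2m
    rw [sq]
    exact le_mul_of_one_le_left (by positivity) hρm1
  have hmb : (m : ℝ) + 1 ≤ 2 ^ m := by
    have : m + 1 ≤ 2 ^ m := Nat.lt_two_pow_self
    exact_mod_cast this
  obtain ⟨s0, hs0⟩ : ∃ s0 : ℕ, s0 = (r * q) ^ 2 * (m + 1) := ⟨_, rfl⟩
  have hs0v : (s0 : ℝ) = (r * q) ^ 2 * (m + 1) := by rw [hs0]; push_cast; ring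
  have hs0le : (s0 : ℝ) * (Q : ℝ) ^ 2 ≤ (b : ℝ) ^ (2 * m + 2) := by
    have h3 : ((r : ℝ)) ^ 2 ≤ 2 ^ m := (pow_le_pow_left₀ (by positivity) hr1 2).trans h2m
    have h4 : (s0 : ℝ) * (Q : ℝ) ^ 2 = ((r : ℝ) ^ 2 * (m + 1)) * ((q : ℝ) ^ 2 * Q ^ 2) := by
      rw [hs0v]; ring
    rw [h4]
    have h5 : (r : ℝ) ^ 2 * (m + 1) ≤ (b : ℝ) ^ m * (b : ℝ) ^ m :=
      mul_le_mul (h3.trans hbm2) (hmb.trans hbm2) (by positivity) (by positivity)
    have h6 : (q : ℝ) ^ 2 * (Q : ℝ) ^ 2 ≤ (b : ℝ) * b := by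
      apply mul_le_mul (hqQ.trans hQb) _ (by positivity) hb0.le
      linarith
    calc ((r : ℝ) ^ 2 * (m + 1)) * ((q : ℝ) ^ 2 * Q ^ 2) ≤
        ((b : ℝ) ^ m * (b : ℝ) ^ m) * ((b : ℝ) * b) :=
          mul_le_mul h5 h6 (by positivity) (by positivity)
      _ = (b : ℝ) ^ (2 * m + 2) := by rw [pow_add, two_mul, pow_add]; ring
  -- application
  have hQε : 8 * (q : ℝ) * (q + 1) ≤ (ε / 2) ^ 2 * (Q : ℝ) ^ 2 := by
    have h1 : (960 * (q : ℝ) ^ 2) ^ 2 ≤ (ε * Q) ^ 2 := pow_le_pow_left₀ (by positivity) hQ4 2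
    have h2 : (ε / 2) ^ 2 * (Q : ℝ) ^ 2 = (ε * Q) ^ 2 / 4 := by ring
    rw [h2]
    have h4 := aux_qq hq'
    have h5 := aux_qqq hq'
    have h6 : (960 * (q : ℝ) ^ 2) ^ 2 = 921600 * ((q : ℝ) ^ 2) ^ 2 := by ring
    rw [h6] at h1
    linarith
  have hbig : 2 * (Q ^ 2) ^ 2 + q * (60 * N * Q) < Q ^ 2 * (N * q) := by
    have g1 : 2 * (Q ^ 2) ^ 2 ≤ 1 * (N * q * Q) := by
      have h1 : 2 * (Q ^ 2) ^ 2 = 2 * Q * Q ^ 3 := by ring
      have h2 : 2 * Q * Q ^ 3 ≤ 2 * Q * N := Nat.mul_le_mul_left _ hNQ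
      have h3 : 2 * Q * N = 2 * (N * Q) := by ring
      have h4 : 1 * (N * q * Q) = q * (N * Q) := by ring
      have h5 : 2 * (N * Q) ≤ q * (N * Q) := Nat.mul_le_mul_right _ hq
      omega
    have g2 : q * (60 * N * Q) = 60 * (N * q * Q) := by ring
    have g3 : Q ^ 2 * (N * q) = Q * (N * q * Q) := by ring
    have g4 : 3840 * (N * q * Q) ≤ Q * (N * q * Q) := Nat.mul_le_mul_right _ hQbig'
    have g5 : 0 < N * q * Q := Nat.mul_pos (Nat.mul_pos hN (by omega)) (by omega)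
    rw [g2, g3]
    omega
  have hbigR : (10 * Real.exp 1 ^ 2 * (Q : ℝ) ^ 2) ^ (14 * m + 1) *
      (Real.exp 1 * s0 * (Q : ℝ) ^ 2 / (4 * N)) ≤ 1 := by
    have h1 : 10 * Real.exp 1 ^ 2 * (Q : ℝ) ^ 2 ≤ b := by
      rw [hbv]
      apply mul_le_mul_of_nonneg_right _ (by positivity)
      linarith
    have h2 : (10 * Real.exp 1 ^ 2 * (Q : ℝ) ^ 2) ^ (14 * m + 1) ≤ (b : ℝ) ^ (14 * m + 1) :=
      pow_le_pow_left₀ (by positivity) h1 _
    have h3 : Real.exp 1 * s0 * (Q : ℝ) ^ 2 / (4 * N) ≤ (s0 : ℝ) * Q ^ 2 / N := by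
      rw [div_le_div_iff₀ (by positivity) hN0]
      have h4 : 0 ≤ (s0 : ℝ) * (Q : ℝ) ^ 2 * N := by positivity
      have h5 : Real.exp 1 * ((s0 : ℝ) * (Q : ℝ) ^ 2 * N) ≤ 4 * ((s0 : ℝ) * (Q : ℝ) ^ 2 * N) :=
        mul_le_mul_of_nonneg_right (by linarith) h4
      linarith
    have h5 : (s0 : ℝ) * (Q : ℝ) ^ 2 / N ≤ (b : ℝ) ^ (2 * m + 2) / N :=
      div_le_div_of_nonneg_right hs0le hN0.le
    calc (10 * Real.exp 1 ^ 2 * (Q : ℝ) ^ 2) ^ (14 * m + 1) *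
        (Real.exp 1 * s0 * (Q : ℝ) ^ 2 / (4 * N)) ≤
        (b : ℝ) ^ (14 * m + 1) * ((b : ℝ) ^ (2 * m + 2) / N) :=
          mul_le_mul h2 (h3.trans h5) (by positivity) (by positivity)
      _ = (b : ℝ) ^ (16 * m + 3) / N := by
          rw [← mul_div_assoc, ← pow_add]
          congr 2
          ring
      _ ≤ 1 := by
          rw [div_le_one hN0]
          exact hN1'
  have hmR : 7 * (m : ℝ) * (2 / ((14 * m + 1 : ℕ) : ℝ)) < 1 := by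
    push_cast
    rw [mul_div_assoc', div_lt_one (by positivity)]
    linarith
  have hgs : 2 * m ≤ s0 := by
    rw [hs0]
    have h1 : 1 * 2 ≤ r * q := Nat.mul_le_mul hr2 hq
    have h2 : 2 ^ 2 ≤ (r * q) ^ 2 := Nat.pow_le_pow_left (by omega) 2
    have h3 : 2 ^ 2 * (m + 1) ≤ (r * q) ^ 2 * (m + 1) := Nat.mul_le_mul_right _ h2
    omega
  have hl : lam + lam ^ m ≤ 1 := by
    have : lam = 1 - η := hlam
    linarith
  have hτ : ((r * q : ℕ) : ℝ) * ((4 * (((r * q) ^ 2 * (m + 1) : ℕ) : ℝ) + 1) * lam ^ m) ≤ η := by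
    push_cast
    have h1 : (1 : ℝ) ≤ (r * q) ^ 2 * (m + 1) := by
      have h2 : (1 : ℝ) ≤ r * q := one_le_mul_of_one_le_of_one_le hr2' (by linarith)
      have h3 : (1 : ℝ) ≤ (r * q : ℝ) ^ 2 := one_le_pow₀ h2
      have h4 : (0 : ℝ) ≤ m := Nat.cast_nonneg _
      exact one_le_mul_of_one_le_of_one_le h3 (by linarith)
    have hlm : 0 ≤ lam ^ m := pow_nonneg hlam0 m
    have h5 : (r * q : ℝ) * ((4 * ((r * q : ℝ) ^ 2 * (m + 1)) + 1) * lam ^ m) ≤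
        (r * q : ℝ) * ((5 * ((r * q : ℝ) ^ 2 * (m + 1))) * lam ^ m) := by
      apply mul_le_mul_of_nonneg_left _ (by positivity)
      apply mul_le_mul_of_nonneg_right _ hlm
      linarith
    have h6 : (r * q : ℝ) * ((5 * ((r * q : ℝ) ^ 2 * (m + 1))) * lam ^ m) =
        5 * (q : ℝ) ^ 3 * (m + 1) * ((r : ℝ) ^ 3 * lam ^ m) := by ring
    have h7 : (r : ℝ) ^ 3 * lam ^ m ≤ (ρ ^ m) ^ 3 * lam ^ m :=
      mul_le_mul_of_nonneg_right (pow_le_pow_left₀ (by positivity) hr1 3) hlm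
    have h8 : (ρ ^ m) ^ 3 * lam ^ m * ρ ^ m ≤ 1 := by
      have : (ρ ^ m) ^ 3 * lam ^ m * ρ ^ m = (ρ ^ 4 * lam) ^ m := by
        rw [mul_pow, ← pow_mul, ← pow_mul]
        ring
      rw [this]
      exact pow_le_one₀ (by positivity) hρ4
    have h9 : (r : ℝ) ^ 3 * lam ^ m * ρ ^ m ≤ 1 :=
      (mul_le_mul_of_nonneg_right h7 (by positivity)).trans h8
    rw [h6] at h5
    refine h5.trans ?_
    have h10 : 0 ≤ (r : ℝ) ^ 3 * lam ^ m := by positivity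
    calc 5 * (q : ℝ) ^ 3 * (m + 1) * ((r : ℝ) ^ 3 * lam ^ m) ≤
        (η * ρ ^ m) * ((r : ℝ) ^ 3 * lam ^ m) := mul_le_mul_of_nonneg_right hE1 h10
      _ = η * ((r : ℝ) ^ 3 * lam ^ m * ρ ^ m) := by ring
      _ ≤ η * 1 := mul_le_mul_of_nonneg_left h9 hη0.le
      _ = η := mul_one η
  obtain ⟨G, hreg, hexp, P, hP⟩ := core_sa (N := N) (q := q) (Q := Q) (R := 14 * m + 1)
    (s0 := s0) (g := 2 * m) (m := m) (r := r) (ε := ε / 2) (lam := lam) (τ' := η)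
    (t := ε / (8 * q ^ 2)) hN hq (by omega) hNQ (by positivity) (by linarith) hQε hbig (by omega)
    (by omega) hgs hbigR (by omega) le_rfl hmR (le_of_eq hs0.symm) hlam0 hlam1 hl hη1 hτ
    (by positivity)
  refine ⟨G, hreg, ?_, P, ?_⟩
  · intro S hS
    refine le_trans ?_ (hexp S hS)
    apply mul_le_mul_of_nonneg_right _ (Nat.cast_nonneg _)
    have h1 : 120 * (q : ℝ) / Q ≤ ε / 2 := by
      rw [div_le_iff₀ hQ0]
      have h2 : 120 * (q : ℝ) * 2 ≤ 960 * (q : ℝ) ^ 2 := by linarith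
      linarith
    linarith
  · rw [← hr]
    refine hP.mono ?_
    have hQN : (0 : ℝ) < (Q : ℝ) * N := by positivity
    have hbm1 : 1 ≤ (b : ℝ) ^ m := one_le_pow₀ hb1
    -- the four parts
    have p1 : 120 * (q : ℝ) * N * Q + q * (120 * q * N * Q) ≤ ε / 4 * ((Q : ℝ) ^ 2 * N) := by
      have h1 : 120 * (q : ℝ) * N * Q + q * (120 * q * N * Q) =
          (120 * q + 120 * (q : ℝ) ^ 2) * (Q * N) := by ring
      have h2 : 120 * (q : ℝ) + 120 * (q : ℝ) ^ 2 ≤ ε * Q / 4 := by linarith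
      rw [h1]
      calc (120 * (q : ℝ) + 120 * (q : ℝ) ^ 2) * (Q * N) ≤ (ε * Q / 4) * (Q * N) :=
            mul_le_mul_of_nonneg_right h2 hQN.le
        _ = ε / 4 * ((Q : ℝ) ^ 2 * N) := by ring
    have hεb : (q : ℝ) ≤ ε / 4 * b := by
      have h1 : ε / 4 * (Q : ℝ) ≤ ε / 4 * b := mul_le_mul_of_nonneg_left hQb (by positivity)
      have h2 : (q : ℝ) ≤ 240 * (q : ℝ) ^ 2 := by linarith
      linarith
    have p2 : (q : ℝ) * (2 * ((2 * m : ℕ) : ℝ) * (10 * (Real.exp 1 ^ 2 * (Q : ℝ) ^ 2) ^ (2 * m))) ≤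
        ε / 4 * ((Q : ℝ) ^ 2 * N) := by
      push_cast
      have h1 : (Real.exp 1 ^ 2 * (Q : ℝ) ^ 2) ^ (2 * m) ≤ (b : ℝ) ^ (2 * m) := by
        apply pow_le_pow_left₀ (by positivity)
        rw [hbv]
        apply mul_le_mul_of_nonneg_right _ (by positivity)
        linarith
      have h2 : (m : ℝ) ≤ (b : ℝ) ^ m := by linarith
      have h3 : 40 ≤ (b : ℝ) := by linarith
      have h4 : (q : ℝ) * (2 * (2 * (m : ℝ)) * (10 * (Real.exp 1 ^ 2 * (Q : ℝ) ^ 2) ^ (2 * m))) =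
          q * (40 * ((m : ℝ) * (Real.exp 1 ^ 2 * (Q : ℝ) ^ 2) ^ (2 * m))) := by ring
      rw [h4]
      have h5 : (m : ℝ) * (Real.exp 1 ^ 2 * (Q : ℝ) ^ 2) ^ (2 * m) ≤
          (b : ℝ) ^ m * (b : ℝ) ^ (2 * m) := mul_le_mul h2 h1 (by positivity) (by positivity)
      have h6 : 40 * ((m : ℝ) * (Real.exp 1 ^ 2 * (Q : ℝ) ^ 2) ^ (2 * m)) ≤
          b * ((b : ℝ) ^ m * (b : ℝ) ^ (2 * m)) := mul_le_mul h3 h5 (by positivity) hb0.le
      have h7 : (b : ℝ) * (b * ((b : ℝ) ^ m * (b : ℝ) ^ (2 * m))) ≤ (b : ℝ) ^ (16 * m + 3) := by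
        have : (b : ℝ) * (b * ((b : ℝ) ^ m * (b : ℝ) ^ (2 * m))) = (b : ℝ) ^ (3 * m + 2) := by
          rw [← pow_add, pow_add]; ring
        rw [this]
        exact pow_le_pow_right₀ hb1 (by omega)
      have hQ1 : 1 ≤ (Q : ℝ) ^ 2 := one_le_pow₀ (by linarith)
      calc (q : ℝ) * (40 * ((m : ℝ) * (Real.exp 1 ^ 2 * (Q : ℝ) ^ 2) ^ (2 * m))) ≤
          (ε / 4 * b) * (b * ((b : ℝ) ^ m * (b : ℝ) ^ (2 * m))) :=
            mul_le_mul hεb h6 (by positivity) (by positivity)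
        _ = ε / 4 * (b * (b * ((b : ℝ) ^ m * (b : ℝ) ^ (2 * m)))) := by ring
        _ ≤ ε / 4 * N := mul_le_mul_of_nonneg_left (h7.trans hN1') (by positivity)
        _ ≤ ε / 4 * ((Q : ℝ) ^ 2 * N) := by
            apply mul_le_mul_of_nonneg_left _ (by positivity)
            exact le_mul_of_one_le_left hN0.le hQ1
    have p3 : (q : ℝ) * (r * ((Q : ℝ) ^ 2 + 1) ^ m * (Q : ℝ) ^ 2) ≤
        ε / 4 * ((Q : ℝ) ^ 2 * N) := by
      have h1 : ((Q : ℝ) ^ 2 + 1) ^ m ≤ (b : ℝ) ^ m := by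
        apply pow_le_pow_left₀ (by positivity)
        linarith
      have h2 : (r : ℝ) ≤ (b : ℝ) ^ m := hr1.trans (hρmle.trans hbm2)
      have h3 : (r : ℝ) * ((Q : ℝ) ^ 2 + 1) ^ m ≤ (b : ℝ) ^ m * (b : ℝ) ^ m :=
        mul_le_mul h2 h1 (by positivity) (by positivity)
      have h4 : (b : ℝ) * ((b : ℝ) ^ m * (b : ℝ) ^ m) ≤ (b : ℝ) ^ (16 * m + 3) := by
        have : (b : ℝ) * ((b : ℝ) ^ m * (b : ℝ) ^ m) = (b : ℝ) ^ (2 * m + 1) := by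
          rw [← pow_add, pow_succ]; ring
        rw [this]
        exact pow_le_pow_right₀ hb1 (by omega)
      calc (q : ℝ) * (r * ((Q : ℝ) ^ 2 + 1) ^ m * (Q : ℝ) ^ 2) =
          (q * (r * ((Q : ℝ) ^ 2 + 1) ^ m)) * (Q : ℝ) ^ 2 := by ring
        _ ≤ ((ε / 4 * b) * ((b : ℝ) ^ m * (b : ℝ) ^ m)) * (Q : ℝ) ^ 2 := by
            apply mul_le_mul_of_nonneg_right _ (by positivity)
            exact mul_le_mul hεb h3 (by positivity) (by positivity)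
        _ = ε / 4 * ((Q : ℝ) ^ 2 * (b * ((b : ℝ) ^ m * (b : ℝ) ^ m))) := by ring
        _ ≤ ε / 4 * ((Q : ℝ) ^ 2 * N) := by
            apply mul_le_mul_of_nonneg_left _ (by positivity)
            exact mul_le_mul_of_nonneg_left (h4.trans hN1') (by positivity)
    have p4 : (Q : ℝ) ^ 2 * N * (2 * (q * ((2 - 2 * ((1 - η) * lam)) / (ε / (8 * q ^ 2)) ^ 2) +
        q ^ 2 * (2 * (ε / (8 * q ^ 2))))) ≤ ε * ((Q : ℝ) ^ 2 * N) := by
      have h1 : 2 - 2 * ((1 - η) * lam) ≤ 4 * η := by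
        rw [hlam]; exact aux_eta
      have h2 : (2 - 2 * ((1 - η) * lam)) / (ε / (8 * q ^ 2)) ^ 2 ≤ ε / (4 * q) := by
        rw [div_le_iff₀ (by positivity)]
        refine h1.trans (le_of_eq ?_)
        rw [hη]
        field_simp
        ring
      have h3 : (q : ℝ) * ((2 - 2 * ((1 - η) * lam)) / (ε / (8 * q ^ 2)) ^ 2) ≤ ε / 4 := by
        have : (q : ℝ) * (ε / (4 * q)) = ε / 4 := by field_simp
        rw [← this]
        exact mul_le_mul_of_nonneg_left h2 hq0.le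
      have h4 : (q : ℝ) ^ 2 * (2 * (ε / (8 * q ^ 2))) = ε / 4 := by
        field_simp
        ring
      rw [h4]
      have h5 : 2 * ((q : ℝ) * ((2 - 2 * ((1 - η) * lam)) / (ε / (8 * q ^ 2)) ^ 2) + ε / 4) ≤ ε := by
        linarith
      calc (Q : ℝ) ^ 2 * N * (2 * ((q : ℝ) * ((2 - 2 * ((1 - η) * lam)) /
          (ε / (8 * q ^ 2)) ^ 2) + ε / 4)) ≤ (Q : ℝ) ^ 2 * N * ε :=
            mul_le_mul_of_nonneg_left h5 (by positivity)
        _ = ε * ((Q : ℝ) ^ 2 * N) := by ring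
    have htot : ε * ((Q ^ 2 * (N + N) : ℕ) : ℝ) = 2 * (ε * ((Q : ℝ) ^ 2 * N)) := by
      push_cast; ring
    rw [htot]
    have hX0 : 0 ≤ ε * ((Q : ℝ) ^ 2 * N) := by positivity
    have hX1 : ε / 4 * ((Q : ℝ) ^ 2 * N) = ε * ((Q : ℝ) ^ 2 * N) / 4 := by ring
    rw [hX1] at p1 p2 p3
    rw [mul_add (q : ℝ) _ (120 * q * N * Q)]
    linarith

end Pool.Agent.H1.SA
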