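import Pool.Agent.H1.SA.Assemble

/-!
Few constraints are near a small set.
-/

set_option autoImplicit false
set_option linter.unusedSectionVars false
set_option maxHeartbeats 1000000

namespace Pool.Agent.H1.SA

open Finset Pool.Agent.W939.SSE

variable {ι : Type} [Fintype ι] [DecidableEq ι] {N q g Q : ℕ} {τ : ι → Zt N q} {gd : ι → Prop}
  {E : Finset ((Fin N × Fin q) × (Fin N × Fin q))}

/-- Good constraints at a vertex. -/
noncomputable def inc (gd : ι → Prop) (τ : ι → Zt N q) (x : Fin N ⊕ Fin N) : Finset ι := by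
  classical exact univ.filter fun i => gd i ∧ (Sum.inl (τ i).1.1 = x ∨ Sum.inr (τ i).1.2 = x)

theorem mem_inc {x : Fin N ⊕ Fin N} {i : ι} : i ∈ inc gd τ x ↔
    gd i ∧ (Sum.inl (τ i).1.1 = x ∨ Sum.inr (τ i).1.2 = x) := by
  classical
  unfold inc
  rw [mem_filter]
  exact ⟨fun h => h.2, fun h => ⟨mem_univ _, h⟩⟩

theorem card_inc (hgd : ∀ i, gd i → Gd g τ i) (hg : 2 ≤ g) (hq : 0 < q)
    (hE : ∀ i, gd i → ∀ a, lift τ (i, a) ∈ E) (hl : ∀ x, dgl E x = Q ^ 2)
    (hr : ∀ y, dgr E y = Q ^ 2) (x : Fin N ⊕ Fin N) : (inc gd τ x).card ≤ Q ^ 2 := by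
  classical
  rcases x with u | w
  · rw [← hl (u, ⟨0, hq⟩)]
    unfold dgl
    apply card_le_card_of_injOn (fun i => lift τ (i, ⟨0, hq⟩))
    · intro i hi
      obtain ⟨h1, h2⟩ := mem_inc.1 (mem_coe.1 hi)
      have h3 : (τ i).1.1 = u := by
        rcases h2 with h | h
        · exact Sum.inl_injective h
        · exact absurd h (by simp)
      refine mem_coe.2 (mem_filter.2 ⟨hE i h1 _, ?_⟩)
      simp [lift, h3]
    · intro i hi j hj h
      obtain ⟨h1, _⟩ := mem_inc.1 (mem_coe.1 hi)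
      simp only [lift, Prod.mk.injEq] at h
      exact good_unique hg (hgd i h1) (Prod.ext h.1.1 h.2.1)
  · rw [← hr (w, ⟨0, hq⟩)]
    unfold dgr
    apply card_le_card_of_injOn (fun i => lift τ (i, (τ i).2.symm ⟨0, hq⟩))
    · intro i hi
      obtain ⟨h1, h2⟩ := mem_inc.1 (mem_coe.1 hi)
      have h3 : (τ i).1.2 = w := by
        rcases h2 with h | h
        · exact absurd h (by simp)
        · exact Sum.inr_injective h
      refine mem_coe.2 (mem_filter.2 ⟨hE i h1 _, ?_⟩)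
      simp [lift, h3]
    · intro i hi j hj h
      obtain ⟨h1, _⟩ := mem_inc.1 (mem_coe.1 hi)
      simp only [lift, Prod.mk.injEq] at h
      exact good_unique hg (hgd i h1) (Prod.ext h.1.1 h.2.1)

/-- The vertices at distance at most `n` of `A`. -/
noncomputable def ball (gd : ι → Prop) (τ : ι → Zt N q) (A : Finset (Fin N ⊕ Fin N)) (n : ℕ) :
    Finset (Fin N ⊕ Fin N) := by
  classical exact univ.filter fun y => ∃ x ∈ A, ∃ k ≤ n, Wk (G0 gd τ) univ k x y

theorem mem_ball {A : Finset (Fin N ⊕ Fin N)} {n : ℕ} {y : Fin N ⊕ Fin N} :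
    y ∈ ball gd τ A n ↔ ∃ x ∈ A, ∃ k ≤ n, Wk (G0 gd τ) univ k x y := by
  classical
  unfold ball
  rw [mem_filter]
  exact ⟨fun h => h.2, fun h => ⟨mem_univ _, h⟩⟩

theorem card_ball (hgd : ∀ i, gd i → Gd g τ i) (hg : 2 ≤ g) (hq : 0 < q)
    (hE : ∀ i, gd i → ∀ a, lift τ (i, a) ∈ E) (hl : ∀ x, dgl E x = Q ^ 2)
    (hr : ∀ y, dgr E y = Q ^ 2) (A : Finset (Fin N ⊕ Fin N)) (n : ℕ) :
    (ball gd τ A n).card ≤ A.card * (Q ^ 2 + 1) ^ n := by
  classical
  induction n with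
  | zero =>
    rw [pow_zero, mul_one]
    apply card_le_card
    intro y hy
    obtain ⟨x, hx, k, hk, hw⟩ := mem_ball.1 hy
    have hk0 : k = 0 := by omega
    subst hk0
    rw [← hw.1]
    exact hx
  | succ n ih =>
    have hsub : ball gd τ A (n + 1) ⊆ ball gd τ A n ∪ (ball gd τ A n).biUnion fun z =>
        (inc gd τ z).image fun i => if Sum.inl (τ i).1.1 = z then Sum.inr (τ i).1.2 else
          Sum.inl (τ i).1.1 := by
      intro y hy
      obtain ⟨x, hx, k, hk, hw⟩ := mem_ball.1 hy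
      rcases Nat.lt_or_ge n k with h | h
      · have hk1 : k = n + 1 := by omega
        subst hk1
        obtain ⟨z, h1, h2, _⟩ := hw
        apply mem_union_right
        rw [mem_biUnion]
        refine ⟨z, mem_ball.2 ⟨x, hx, n, le_rfl, h1⟩, ?_⟩
        obtain ⟨i, hi, h3⟩ := h2
        rw [mem_image]
        refine ⟨i, mem_inc.2 ⟨hi, ?_⟩, ?_⟩
        · rcases h3 with h3 | h3
          · exact Or.inl h3.1.symm
          · exact Or.inr h3.2.symm
        · rcases h3 with h3 | h3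
          · rw [if_pos h3.1.symm, h3.2]
          · rw [if_neg (by rw [h3.2]; simp), h3.1]
      · exact mem_union_left _ (mem_ball.2 ⟨x, hx, k, h, hw⟩)
    refine (card_le_card hsub).trans ((card_union_le _ _).trans ?_)
    have h1 : ((ball gd τ A n).biUnion fun z =>
        (inc gd τ z).image fun i => if Sum.inl (τ i).1.1 = z then Sum.inr (τ i).1.2 else
          Sum.inl (τ i).1.1).card ≤ (ball gd τ A n).card * Q ^ 2 :=
      card_biUnion_le_card_mul _ _ _ fun z _ =>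
        card_image_le.trans (card_inc hgd hg hq hE hl hr z)
    calc (ball gd τ A n).card + _ ≤ (ball gd τ A n).card + (ball gd τ A n).card * Q ^ 2 :=
          Nat.add_le_add_left h1 _
      _ = (ball gd τ A n).card * (Q ^ 2 + 1) := by ring
      _ ≤ A.card * (Q ^ 2 + 1) ^ n * (Q ^ 2 + 1) := Nat.mul_le_mul_right _ ih
      _ = _ := by ring

/-- The constraints near `A`. -/
noncomputable def near (gd : ι → Prop) (τ : ι → Zt N q) (A : Finset (Fin N ⊕ Fin N)) (n : ℕ) :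
    Finset ι := by
  classical exact univ.filter fun i => gd i ∧
    (Sum.inl (τ i).1.1 ∈ ball gd τ A n ∨ Sum.inr (τ i).1.2 ∈ ball gd τ A n)

theorem mem_near {A : Finset (Fin N ⊕ Fin N)} {n : ℕ} {i : ι} :
    i ∈ near gd τ A n ↔ gd i ∧
    (Sum.inl (τ i).1.1 ∈ ball gd τ A n ∨ Sum.inr (τ i).1.2 ∈ ball gd τ A n) := by
  classical
  unfold near
  rw [mem_filter]
  exact ⟨fun h => h.2, fun h => ⟨mem_univ _, h⟩⟩

theorem card_near (hgd : ∀ i, gd i → Gd g τ i) (hg : 2 ≤ g) (hq : 0 < q)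
    (hE : ∀ i, gd i → ∀ a, lift τ (i, a) ∈ E) (hl : ∀ x, dgl E x = Q ^ 2)
    (hr : ∀ y, dgr E y = Q ^ 2) (A : Finset (Fin N ⊕ Fin N)) (n : ℕ) :
    (near gd τ A n).card ≤ A.card * (Q ^ 2 + 1) ^ n * Q ^ 2 := by
  classical
  have hsub : near gd τ A n ⊆ (ball gd τ A n).biUnion fun z => inc gd τ z := by
    intro i hi
    obtain ⟨h1, h2⟩ := mem_near.1 hi
    rw [mem_biUnion]
    rcases h2 with h | h
    · exact ⟨_, h, mem_inc.2 ⟨h1, Or.inl rfl⟩⟩
    · exact ⟨_, h, mem_inc.2 ⟨h1, Or.inr rfl⟩⟩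
  refine (card_le_card hsub).trans ?_
  refine (card_biUnion_le_card_mul _ _ _ fun z _ => card_inc hgd hg hq hE hl hr z).trans ?_
  exact Nat.mul_le_mul_right _ (card_ball hgd hg hq hE hl hr A n)

theorem wk_proj {x : (Fin N ⊕ Fin N) × Fin q} : ∀ {n : ℕ} {y : (Fin N ⊕ Fin N) × Fin q},
    Wk (Lg gd τ) univ n x y → Wk (G0 gd τ) univ n x.1 y.1
  | 0, _, h => ⟨congrArg Prod.fst h.1, mem_univ _⟩
  | _ + 1, _, ⟨z, h1, h2, _⟩ => ⟨z.1, wk_proj h1, Lg_fst h2, mem_univ _⟩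

/-- The kernel vanishes far away. -/
theorem KK_far {A : Finset (Fin N ⊕ Fin N)} {m : ℕ} {lam τ' : ℝ} (h0 : 0 ≤ lam) (h1 : lam ≤ 1)
    {x y : Fin N ⊕ Fin N} (hx : x ∈ A) (hy : y ∉ ball gd τ A m) (c a : Fin q) :
    KK (Lg gd τ) m lam τ' (x, c) (y, a) = 0 := by
  have hw : ∀ n ≤ m, ¬ Wk (Lg gd τ) univ n (x, c) (y, a) := by
    intro n hn hw
    exact hy (mem_ball.2 ⟨x, hx, n, hn, wk_proj hw⟩)
  have hne : ((x, c) : (Fin N ⊕ Fin N) × Fin q) ≠ (y, a) := by
    intro h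
    apply hy
    have h2 : x = y := congrArg Prod.fst h
    exact mem_ball.2 ⟨x, hx, 0, Nat.zero_le _, h2, mem_univ _⟩
  unfold KK
  rw [kk_zero hw h0 h1, if_neg hne]
  ring

/-- Few constraints are not completely inside of the regular graph. -/
theorem card_out {bd : ℕ} (hg : 2 ≤ g) (hι : Fintype.card ι = Q ^ 2 * N)
    (hl : ∀ x, dgl E x = Q ^ 2) (hE0 : (E \ E0 τ).card ≤ bd) (S : Finset ι)
    (hS : ∀ i ∈ S, Gd g τ i ∧ ∃ a, lift τ (i, a) ∉ E) : S.card ≤ bd := by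
  classical
  have hEc : E.card = Q ^ 2 * (N * q) := by
    rw [← sum_dgl E, Finset.sum_congr rfl (fun x _ => hl x), Finset.sum_const, Finset.card_univ,
      Fintype.card_prod, Fintype.card_fin, Fintype.card_fin, smul_eq_mul, Nat.mul_comm]
  have h1 : (E0 τ).card ≤ Q ^ 2 * (N * q) := by
    unfold E0
    refine card_image_le.trans ?_
    rw [card_univ, Fintype.card_prod, hι, Fintype.card_fin]
    exact le_of_eq (by ring)
  have h2 : (E0 τ \ E).card ≤ bd := by
    have e1 := card_sdiff_add_card_inter (E0 τ) E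
    have e2 := card_sdiff_add_card_inter E (E0 τ)
    rw [inter_comm] at e2
    omega
  refine le_trans ?_ h2
  have hch : ∀ i ∈ S, ∃ a, lift τ (i, a) ∉ E := fun i hi => (hS i hi).2
  rcases S.eq_empty_or_nonempty with rfl | ⟨i0, hi0⟩
  · simp
  obtain ⟨a0, _⟩ := hch i0 hi0
  have : Nonempty (Fin q) := ⟨a0⟩
  choose! c hc using hch
  apply card_le_card_of_injOn (fun i => lift τ (i, c i))
  · intro i hi
    exact mem_coe.2 (mem_sdiff.2 ⟨mem_image_of_mem _ (mem_univ _), hc i hi⟩)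
  · intro i hi j _ h
    simp only [lift, Prod.mk.injEq] at h
    exact good_unique hg (hS i hi).1 (Prod.ext h.1.1 h.2.1)

end Pool.Agent.H1.SA
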