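import Pool.Agent.H1.SA.Vec

/-!
Vectors for the kernel `lam ^ distance`: adding a long path.
-/

set_option autoImplicit false
set_option linter.unusedSectionVars false

namespace Pool.Agent.H1.SA

open Finset

variable {V : Type} {G : SimpleGraph V} {W W' : Finset V} {x y z : V} {n k m : ℕ} {lam : ℝ}

/-- Vectors whose inner products are the powers of `lam`. -/
theorem exists_chain (h0 : 0 ≤ lam) (h1 : lam ≤ 1) (n : ℕ) :
    ∃ (J : Type) (_ : Fintype J) (c : ℕ → J → ℝ), ∀ i j, i ≤ j → j ≤ n →
      ip (c i) (c j) = lam ^ (j - i) := by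
  induction n with
  | zero =>
    refine ⟨Unit, inferInstance, fun _ _ => 1, ?_⟩
    intro i j hij hj
    have : j - i = 0 := by omega
    rw [this]
    simp [ip]
  | succ n ih =>
    obtain ⟨J, _, c, hc⟩ := ih
    have hs : Real.sqrt (1 - lam ^ 2) * Real.sqrt (1 - lam ^ 2) = 1 - lam ^ 2 :=
      Real.mul_self_sqrt (by nlinarith)
    refine ⟨J ⊕ Unit, inferInstance, fun i => if i = n + 1 then
      Sum.elim (lam • c n) (fun _ => Real.sqrt (1 - lam ^ 2)) else Sum.elim (c i) 0, ?_⟩
    intro i j hij hj
    by_cases hjn : j = n + 1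
    · subst hjn
      by_cases hin : i = n + 1
      · subst hin
        simp only [if_true]
        rw [ip_elim, ip_smul_left, ip_smul_right, hc n n le_rfl le_rfl]
        have h4 : ip (fun _ : Unit => Real.sqrt (1 - lam ^ 2))
            (fun _ : Unit => Real.sqrt (1 - lam ^ 2)) = 1 - lam ^ 2 := by
          simp [ip, hs]
        rw [h4]
        simp
        ring
      · simp only [if_true, hin, if_false]
        rw [ip_elim, ip_zero_left, ip_smul_right, hc i n (by omega) le_rfl]
        have : n + 1 - i = (n - i) + 1 := by omega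
        rw [this]
        ring
    · have hin : i ≠ n + 1 := by omega
      simp only [hjn, hin, if_false]
      rw [ip_elim, ip_zero_left, hc i j hij (by omega), add_zero]

/-- A path of length `2 * m` whose inner vertices have degree two in `W`. -/
structure PathIn (G : SimpleGraph V) (W : Finset V) (m : ℕ) (p : ℕ → V) (idx : V → ℕ) : Prop where
  mem : ∀ i ≤ 2 * m, p i ∈ W
  adj : ∀ i < 2 * m, G.Adj (p i) (p (i + 1))
  idx_p : ∀ i, 0 < i → i < 2 * m → idx (p i) = i
  end0 : ∀ i, 0 < i → i < 2 * m → p i ≠ p 0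
  end1 : ∀ i, 0 < i → i < 2 * m → p i ≠ p (2 * m)
  nbr : ∀ i, 0 < i → i < 2 * m → ∀ y ∈ W, G.Adj (p i) y → y = p (i - 1) ∨ y = p (i + 1)

/-- The vertices which are not inner vertices of the path. -/
def rest [DecidableEq V] (W : Finset V) (m : ℕ) (p : ℕ → V) : Finset V :=
  W \ (Ioo 0 (2 * m)).image p

theorem mem_rest [DecidableEq V] {p : ℕ → V} :
    x ∈ rest W m p ↔ x ∈ W ∧ ∀ i, 0 < i → i < 2 * m → x ≠ p i := by
  unfold rest
  rw [mem_sdiff, mem_image]
  constructor
  · rintro ⟨h1, h2⟩
    refine ⟨h1, fun i hi hi' he => h2 ⟨i, mem_Ioo.2 ⟨hi, hi'⟩, he.symm⟩⟩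
  · rintro ⟨h1, h2⟩
    refine ⟨h1, ?_⟩
    rintro ⟨i, hi, rfl⟩
    exact h2 i (mem_Ioo.1 hi).1 (mem_Ioo.1 hi).2 rfl

variable [DecidableEq V] {p : ℕ → V} {idx : V → ℕ}

theorem rest_subset : rest W m p ⊆ W := sdiff_subset

theorem PathIn.p0 (hP : PathIn G W m p idx) : p 0 ∈ rest W m p :=
  mem_rest.2 ⟨hP.mem 0 (by omega), fun i hi hi' => (hP.end0 i hi hi').symm⟩

theorem PathIn.p1 (hP : PathIn G W m p idx) : p (2 * m) ∈ rest W m p :=
  mem_rest.2 ⟨hP.mem _ le_rfl, fun i hi hi' => (hP.end1 i hi hi').symm⟩

theorem PathIn.cases (hy : y ∈ W) :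
    y ∈ rest W m p ∨ ∃ i, 0 < i ∧ i < 2 * m ∧ y = p i := by
  by_cases h : y ∈ rest W m p
  · exact Or.inl h
  · right
    rw [mem_rest] at h
    push Not at h
    exact h hy

/-- The superharmonic functions we use. -/
theorem PathIn.super (hP : PathIn G W m p idx) (h : V → ℝ) (g : ℕ → ℝ)
    (hh : ∀ y ∈ rest W m p, ∀ y' ∈ rest W m p, G.Adj y y' → lam * h y ≤ h y')
    (hg : ∀ i < 2 * m, lam * g i ≤ g (i + 1)) (hg' : ∀ i < 2 * m, lam * g (i + 1) ≤ g i)
    (hg0 : h (p 0) = g 0) (hg1 : h (p (2 * m)) = g (2 * m)) :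
    ∀ y ∈ W, ∀ y' ∈ W, G.Adj y y' →
      lam * (if y ∈ rest W m p then h y else g (idx y)) ≤
        (if y' ∈ rest W m p then h y' else g (idx y')) := by
  classical
  set F : V → ℝ := fun y => if y ∈ rest W m p then h y else g (idx y) with hF
  have hFi : ∀ i ≤ 2 * m, F (p i) = g i := by
    intro i hi
    rcases Nat.eq_zero_or_pos i with rfl | hi0
    · simp only [hF, hP.p0, if_true]
      exact hg0
    · rcases Nat.lt_or_ge i (2 * m) with hi1 | hi1
      · have : p i ∉ rest W m p := fun h => (mem_rest.1 h).2 i hi0 hi1 rfl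
        simp only [hF, this, if_false]
        rw [hP.idx_p i hi0 hi1]
      · have : i = 2 * m := by omega
        subst this
        simp only [hF, hP.p1, if_true]
        exact hg1
  intro y hy y' hy' ha
  change lam * F y ≤ F y'
  rcases PathIn.cases (m := m) (p := p) hy with h3 | ⟨i, hi, hi', rfl⟩
  · rcases PathIn.cases (m := m) (p := p) hy' with h4 | ⟨i, hi, hi', rfl⟩
    · simp only [hF, h3, h4, if_true]
      exact hh y h3 y' h4 ha
    · rcases hP.nbr i hi hi' y hy ha.symm with rfl | rfl
      · rw [hFi _ (by omega), hFi _ (by omega)]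
        have := hg (i - 1) (by omega)
        rwa [Nat.sub_add_cancel hi] at this
      · rw [hFi _ (by omega), hFi _ (by omega)]
        exact hg' i hi'
  · rcases hP.nbr i hi hi' y' hy' ha with rfl | rfl
    · rw [hFi _ (by omega), hFi _ (by omega)]
      have := hg' (i - 1) (by omega)
      rwa [Nat.sub_add_cancel hi] at this
    · rw [hFi _ (by omega), hFi _ (by omega)]
      exact hg i hi'

theorem PathIn.up (hP : PathIn G W m p idx) (h0 : 0 ≤ lam) (h1 : lam ≤ 1) {i j : ℕ}
    (hij : i ≤ j) (hj : j ≤ 2 * m) :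
    lam ^ (j - i) * kap G W lam x (p i) ≤ kap G W lam x (p j) := by
  have := kap_chain (x := x) (n := j - i) h0 h1 (fun k => p (i + k))
    (fun k hk => hP.adj (i + k) (by omega)) (fun k hk => hP.mem (i + k) (by omega))
  simp only [add_zero] at this
  rwa [Nat.add_sub_of_le hij] at this

theorem PathIn.down (hP : PathIn G W m p idx) (h0 : 0 ≤ lam) (h1 : lam ≤ 1) {i j : ℕ}
    (hij : i ≤ j) (hj : j ≤ 2 * m) :
    lam ^ (j - i) * kap G W lam x (p j) ≤ kap G W lam x (p i) := by
  have := kap_chain (x := x) (n := j - i) h0 h1 (fun k => p (j - k))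
    (fun k hk => by
      have h := (hP.adj (j - (k + 1)) (by omega)).symm
      have e : j - (k + 1) + 1 = j - k := by omega
      rwa [e] at h) (fun k hk => hP.mem (j - k) (by omega))
  simp only [Nat.sub_zero] at this
  have e : j - (j - i) = i := by omega
  rwa [e] at this

section Bounds

theorem PathIn.kap_rest_rest (hP : PathIn G W m p idx) (h0 : 0 ≤ lam) (h1 : lam ≤ 1)
    (hx : x ∈ rest W m p) (hy : y ∈ W) :
    kap G W lam x y ≤ if y ∈ rest W m p then max (kap G (rest W m p) lam x y) (lam ^ m) else
      max (max (lam ^ idx y * kap G (rest W m p) lam x (p 0))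
        (lam ^ (2 * m - idx y) * kap G (rest W m p) lam x (p (2 * m)))) (lam ^ m) := by
  set k0 := kap G (rest W m p) lam x (p 0) with hk0
  set k1 := kap G (rest W m p) lam x (p (2 * m)) with hk1
  have hL : 0 ≤ lam ^ m := pow_nonneg h0 m
  have hk0' : 0 ≤ k0 := kap_nonneg h0 h1
  have hk1' : 0 ≤ k1 := kap_nonneg h0 h1
  have hk0'' : k0 ≤ 1 := kap_le_one h0 h1
  have hk1'' : k1 ≤ 1 := kap_le_one h0 h1
  have h2m : lam ^ (2 * m) ≤ lam ^ m := pow_le_pow_of_le_one h0 h1 (by omega)
  have h2m0 : 0 ≤ lam ^ (2 * m) := pow_nonneg h0 _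
  refine kap_le_super (G := G) (W := W) (x := x) (y := y) (lam := lam)
    (fun y => if y ∈ rest W m p then max (kap G (rest W m p) lam x y) (lam ^ m) else
      max (max (lam ^ idx y * k0) (lam ^ (2 * m - idx y) * k1)) (lam ^ m)) ?_ ?_ h0 ?_ hy
  · intro y _
    split_ifs
    · exact le_max_of_le_right hL
    · exact le_max_of_le_right hL
  · simp only [hx, if_true]
    rw [kap_self h0 h1 hx]
    exact le_max_left _ _
  · refine hP.super (fun y => max (kap G (rest W m p) lam x y) (lam ^ m))
      (fun i => max (max (lam ^ i * k0) (lam ^ (2 * m - i) * k1)) (lam ^ m)) ?_ ?_ ?_ ?_ ?_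
    · intro y _ y' hy' ha
      rw [mul_max_of_nonneg _ _ h0]
      refine max_le ?_ ?_
      · exact le_max_of_le_left (kap_adj h0 h1 hy' ha)
      · exact le_max_of_le_right (by nlinarith)
    · intro i hi
      rw [mul_max_of_nonneg _ _ h0, mul_max_of_nonneg _ _ h0]
      refine max_le (max_le ?_ ?_) ?_
      · refine le_max_of_le_left (le_max_of_le_left (le_of_eq ?_))
        ring
      · refine le_max_of_le_left (le_max_of_le_right ?_)
        have e : 2 * m - i = (2 * m - (i + 1)) + 1 := by omega
        rw [e, pow_succ]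
        have h5 : 0 ≤ lam ^ (2 * m - (i + 1)) * k1 := mul_nonneg (pow_nonneg h0 _) hk1'
        have h6 : lam * lam ≤ 1 := by nlinarith
        nlinarith
      · exact le_max_of_le_right (by nlinarith)
    · intro i hi
      rw [mul_max_of_nonneg _ _ h0, mul_max_of_nonneg _ _ h0]
      refine max_le (max_le ?_ ?_) ?_
      · refine le_max_of_le_left (le_max_of_le_left ?_)
        rw [pow_succ]
        have h5 : 0 ≤ lam ^ i * k0 := mul_nonneg (pow_nonneg h0 _) hk0'
        have h6 : lam * lam ≤ 1 := by nlinarith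
        nlinarith
      · refine le_max_of_le_left (le_max_of_le_right (le_of_eq ?_))
        have e : 2 * m - i = (2 * m - (i + 1)) + 1 := by omega
        rw [e, pow_succ]
        ring
      · exact le_max_of_le_right (by nlinarith)
    · rw [pow_zero, one_mul, Nat.sub_zero]
      apply le_antisymm
      · exact max_le_max (le_max_left _ _) le_rfl
      · refine max_le (max_le ?_ ?_) ?_
        · exact le_max_left _ _
        · exact le_max_of_le_right (by nlinarith)
        · exact le_max_right _ _
    · rw [Nat.sub_self, pow_zero, one_mul]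
      apply le_antisymm
      · exact max_le_max (le_max_right _ _) le_rfl
      · refine max_le (max_le ?_ ?_) ?_
        · exact le_max_of_le_right (by nlinarith)
        · exact le_max_left _ _
        · exact le_max_right _ _

theorem PathIn.kap_inner (hP : PathIn G W m p idx) (h0 : 0 ≤ lam) (h1 : lam ≤ 1) {i : ℕ}
    (hi : 0 < i) (hi' : i < 2 * m) (hy : y ∈ W) :
    kap G W lam (p i) y ≤ if y ∈ rest W m p then
        max (max (lam ^ i * kap G (rest W m p) lam (p 0) y)
          (lam ^ (2 * m - i) * kap G (rest W m p) lam (p (2 * m)) y)) (lam ^ m) else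
      max (max (lam ^ ((i - idx y) + (idx y - i)))
          (lam ^ (i + (2 * m - idx y)) * kap G (rest W m p) lam (p 0) (p (2 * m))))
        (max (lam ^ (idx y + (2 * m - i)) * kap G (rest W m p) lam (p 0) (p (2 * m)))
          (lam ^ m)) := by
  set κ := kap G (rest W m p) lam (p 0) (p (2 * m)) with hκ
  have hL : 0 ≤ lam ^ m := pow_nonneg h0 m
  have hκ' : 0 ≤ κ := kap_nonneg h0 h1
  have hκ'' : κ ≤ 1 := kap_le_one h0 h1
  have h2m : lam ^ (2 * m) ≤ lam ^ m := pow_le_pow_of_le_one h0 h1 (by omega)
  have h2m0 : 0 ≤ lam ^ (2 * m) := pow_nonneg h0 _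
  have hll : lam * lam ≤ 1 := by nlinarith
  refine kap_le_super (G := G) (W := W) (x := p i) (y := y) (lam := lam)
    (fun y => if y ∈ rest W m p then
        max (max (lam ^ i * kap G (rest W m p) lam (p 0) y)
          (lam ^ (2 * m - i) * kap G (rest W m p) lam (p (2 * m)) y)) (lam ^ m) else
      max (max (lam ^ ((i - idx y) + (idx y - i))) (lam ^ (i + (2 * m - idx y)) * κ))
        (max (lam ^ (idx y + (2 * m - i)) * κ) (lam ^ m))) ?_ ?_ h0 ?_ hy
  · intro y _
    split_ifs
    · exact le_max_of_le_right hL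
    · exact le_max_of_le_right (le_max_of_le_right hL)
  · have h3 : p i ∉ rest W m p := fun h => (mem_rest.1 h).2 i hi hi' rfl
    simp only [h3, if_false]
    rw [hP.idx_p i hi hi', Nat.sub_self]
    exact le_max_of_le_left (le_max_of_le_left (by simp))
  · refine hP.super (fun y => max (max (lam ^ i * kap G (rest W m p) lam (p 0) y)
          (lam ^ (2 * m - i) * kap G (rest W m p) lam (p (2 * m)) y)) (lam ^ m))
      (fun j => max (max (lam ^ ((i - j) + (j - i))) (lam ^ (i + (2 * m - j)) * κ))
        (max (lam ^ (j + (2 * m - i)) * κ) (lam ^ m))) ?_ ?_ ?_ ?_ ?_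
    · intro y _ y' hy' ha
      rw [mul_max_of_nonneg _ _ h0, mul_max_of_nonneg _ _ h0]
      refine max_le (max_le ?_ ?_) ?_
      · refine le_max_of_le_left (le_max_of_le_left ?_)
        have := kap_adj (x := p 0) h0 h1 hy' ha
        have h3 : 0 ≤ lam ^ i := pow_nonneg h0 _
        nlinarith
      · refine le_max_of_le_left (le_max_of_le_right ?_)
        have := kap_adj (x := p (2 * m)) h0 h1 hy' ha
        have h3 : 0 ≤ lam ^ (2 * m - i) := pow_nonneg h0 _
        nlinarith
      · exact le_max_of_le_right (by nlinarith)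
    · intro j hj
      rw [mul_max_of_nonneg _ _ h0, mul_max_of_nonneg _ _ h0, mul_max_of_nonneg _ _ h0]
      refine max_le (max_le ?_ ?_) (max_le ?_ ?_)
      · refine le_max_of_le_left (le_max_of_le_left ?_)
        rw [← pow_succ']
        exact pow_le_pow_of_le_one h0 h1 (by omega)
      · refine le_max_of_le_left (le_max_of_le_right ?_)
        have e : i + (2 * m - j) = (i + (2 * m - (j + 1))) + 1 := by omega
        rw [e, pow_succ]
        have h5 : 0 ≤ lam ^ (i + (2 * m - (j + 1))) * κ := mul_nonneg (pow_nonneg h0 _) hκ'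
        nlinarith
      · refine le_max_of_le_right (le_max_of_le_left (le_of_eq ?_))
        have e : j + 1 + (2 * m - i) = (j + (2 * m - i)) + 1 := by omega
        rw [e, pow_succ]
        ring
      · exact le_max_of_le_right (le_max_of_le_right (by nlinarith))
    · intro j hj
      rw [mul_max_of_nonneg _ _ h0, mul_max_of_nonneg _ _ h0, mul_max_of_nonneg _ _ h0]
      refine max_le (max_le ?_ ?_) (max_le ?_ ?_)
      · refine le_max_of_le_left (le_max_of_le_left ?_)
        rw [← pow_succ']
        exact pow_le_pow_of_le_one h0 h1 (by omega)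
      · refine le_max_of_le_left (le_max_of_le_right (le_of_eq ?_))
        have e : i + (2 * m - j) = (i + (2 * m - (j + 1))) + 1 := by omega
        rw [e, pow_succ]
        ring
      · refine le_max_of_le_right (le_max_of_le_left ?_)
        have e : j + 1 + (2 * m - i) = (j + (2 * m - i)) + 1 := by omega
        rw [e, pow_succ]
        have h5 : 0 ≤ lam ^ (j + (2 * m - i)) * κ := mul_nonneg (pow_nonneg h0 _) hκ'
        nlinarith
      · exact le_max_of_le_right (le_max_of_le_right (by nlinarith))
    · rw [kap_self h0 h1 hP.p0, kap_symm, ← hκ]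
      have e1 : i - 0 + (0 - i) = i := by omega
      have e2 : 0 + (2 * m - i) = 2 * m - i := by omega
      rw [e1, e2, mul_one, Nat.sub_zero]
      apply le_antisymm
      · refine max_le (max_le ?_ ?_) ?_
        · exact le_max_of_le_left (le_max_left _ _)
        · exact le_max_of_le_right (le_max_left _ _)
        · exact le_max_of_le_right (le_max_right _ _)
      · refine max_le (max_le ?_ ?_) (max_le ?_ ?_)
        · exact le_max_of_le_left (le_max_left _ _)
        · refine le_max_of_le_left (le_max_of_le_left ?_)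
          have h3 : lam ^ (i + 2 * m) ≤ lam ^ i := pow_le_pow_of_le_one h0 h1 (by omega)
          have h4 : 0 ≤ lam ^ (i + 2 * m) := pow_nonneg h0 _
          nlinarith
        · exact le_max_of_le_left (le_max_right _ _)
        · exact le_max_right _ _
    · rw [kap_self h0 h1 hP.p1, ← hκ]
      have e1 : i - 2 * m + (2 * m - i) = 2 * m - i := by omega
      have e2 : i + (2 * m - 2 * m) = i := by omega
      rw [e1, e2, mul_one]
      apply le_antisymm
      · refine max_le (max_le ?_ ?_) ?_
        · exact le_max_of_le_left (le_max_right _ _)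
        · exact le_max_of_le_left (le_max_left _ _)
        · exact le_max_of_le_right (le_max_right _ _)
      · refine max_le (max_le ?_ ?_) (max_le ?_ ?_)
        · exact le_max_of_le_left (le_max_right _ _)
        · exact le_max_of_le_left (le_max_left _ _)
        · refine le_max_of_le_left (le_max_of_le_right ?_)
          have h3 : lam ^ (2 * m + (2 * m - i)) ≤ lam ^ (2 * m - i) :=
            pow_le_pow_of_le_one h0 h1 (by omega)
          have h4 : 0 ≤ lam ^ (2 * m + (2 * m - i)) := pow_nonneg h0 _
          nlinarith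
        · exact le_max_right _ _

end Bounds

end Pool.Agent.H1.SA
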