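import Pool.Agent.H1.SA.RepPath

/-!
Sparse graphs without short cycles can be peeled.
-/

set_option autoImplicit false
set_option linter.unusedSectionVars false

namespace Pool.Agent.H1.SA

open Finset

variable {V : Type} {G : SimpleGraph V}

/-- No set of at most `g` vertices spans a cycle. -/
def LocForest (G : SimpleGraph V) (g : ℕ) : Prop :=
  ∀ S : Finset V, S.Nonempty → S.card ≤ g →
    ∃ v ∈ S, ∀ y ∈ S, ∀ z ∈ S, G.Adj v y → G.Adj v z → y = z

/-- Short non-backtracking walks are paths. -/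
theorem nb_inj {g n : ℕ} (hG : LocForest G g) (p : ℕ → V) (hn : n ≤ g)
    (ha : ∀ i < n, G.Adj (p i) (p (i + 1))) (hnb : ∀ i, i + 2 ≤ n → p i ≠ p (i + 2)) :
    ∀ i j, i < j → j ≤ n → p i ≠ p j := by
  classical
  suffices H : ∀ d i, 0 < d → i + d ≤ n → p i ≠ p (i + d) by
    intro i j hij hj
    have := H (j - i) i (by omega) (by omega)
    rwa [Nat.add_sub_of_le hij.le] at this
  intro d
  induction d using Nat.strong_induction_on with
  | _ d ih =>
    intro i hd hid heq
    rcases Nat.lt_or_ge d 3 with h3 | h3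
    · interval_cases d
      · exact (ha i (by omega)).ne heq
      · exact hnb i hid heq
    · have hmem : ∀ k, i ≤ k → k < i + d → p k ∈ (Ico i (i + d)).image p := fun k h1 h2 =>
        mem_image_of_mem p (mem_Ico.2 ⟨h1, h2⟩)
      obtain ⟨v, hv, hu⟩ := hG ((Ico i (i + d)).image p) ⟨p i, hmem i le_rfl (by omega)⟩
        (card_image_le.trans (by rw [Nat.card_Ico]; omega))
      obtain ⟨k, hk, rfl⟩ := mem_image.1 hv
      rw [mem_Ico] at hk
      rcases Nat.eq_or_lt_of_le hk.1 with rfl | hlt
      · have h1 : G.Adj (p i) (p (i + 1)) := ha i (by omega)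
        have h2 : G.Adj (p i) (p (i + d - 1)) := by
          have h := (ha (i + d - 1) (by omega)).symm
          rw [Nat.sub_add_cancel (by omega), ← heq] at h
          exact h
        have h4 := hu _ (hmem (i + 1) (by omega) (by omega)) _
          (hmem (i + d - 1) (by omega) (by omega)) h1 h2
        have h5 := ih (d - 2) (by omega) (i + 1) (by omega) (by omega)
        rw [show i + 1 + (d - 2) = i + d - 1 by omega] at h5
        exact h5 h4
      · have h1 : G.Adj (p k) (p (k + 1)) := ha k (by omega)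
        have h2 : G.Adj (p k) (p (k - 1)) := by
          have h := (ha (k - 1) (by omega)).symm
          rwa [Nat.sub_add_cancel (by omega)] at h
        have hk1 : p (k + 1) ∈ (Ico i (i + d)).image p := by
          rcases Nat.lt_or_ge (k + 1) (i + d) with h | h
          · exact hmem _ (by omega) h
          · have : k + 1 = i + d := by omega
            rw [this, ← heq]
            exact hmem i le_rfl (by omega)
        have h4 := hu _ hk1 _ (hmem (k - 1) (by omega) (by omega)) h1 h2
        have h5 := hnb (k - 1) (by omega)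
        rw [show k - 1 + 2 = k + 1 by omega] at h5
        exact h5 h4.symm

/-- The neighbours inside of `W`. -/
noncomputable def nbs (G : SimpleGraph V) (W : Finset V) (v : V) : Finset V := by
  classical exact W.filter fun y => G.Adj v y

theorem mem_nbs {W : Finset V} {v y : V} : y ∈ nbs G W v ↔ y ∈ W ∧ G.Adj v y := by
  classical
  unfold nbs
  exact mem_filter

variable [DecidableEq V]

theorem peelable_of_sparse {s g m : ℕ} {δ : ℝ} (hG : LocForest G g) (hm : 0 < m)
    (hmg : 2 * m ≤ g) (hδ : 0 ≤ δ) (hmδ : 7 * m * δ < 1)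
    (hsp : ∀ W : Finset V, W.card ≤ s → (∑ v ∈ W, ((nbs G W v).card : ℝ)) ≤ (2 + δ) * W.card) :
    Peelable G s m := by
  classical
  intro W hne hWs
  by_contra hcon
  push Not at hcon
  obtain ⟨hdeg, hpath⟩ := hcon
  -- the other neighbour
  have hoth : ∀ w ∈ W, ∀ u : V, ∃ z ∈ W, G.Adj w z ∧ z ≠ u := by
    intro w hw u
    obtain ⟨y, hy, z, hz, h1, h2, h3⟩ := hdeg w hw
    by_cases h : y = u
    · exact ⟨z, hz, h2, fun h4 => h3 (h.trans h4.symm)⟩
    · exact ⟨y, hy, h1, h⟩
  choose! oth ho1 ho2 ho3 using hoth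
  set T : V × V → V × V := fun d => (d.2, oth d.2 d.1) with hT
  have hdart : ∀ d : V × V, d.1 ∈ W → d.2 ∈ W → G.Adj d.1 d.2 →
      ∀ t, (T^[t] d).1 ∈ W ∧ (T^[t] d).2 ∈ W ∧ G.Adj (T^[t] d).1 (T^[t] d).2 := by
    intro d h1 h2 h3 t
    induction t with
    | zero => exact ⟨h1, h2, h3⟩
    | succ t ih =>
      rw [Function.iterate_succ_apply']
      exact ⟨ih.2.1, ho1 _ ih.2.1 _, ho2 _ ih.2.1 _⟩
  set V2 := W.filter fun v => (nbs G W v).card = 2 with hV2
  set V3 := W.filter fun v => ¬ (nbs G W v).card = 2 with hV3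
  have hcard2 : ∀ v ∈ W, 2 ≤ (nbs G W v).card := by
    intro v hv
    obtain ⟨y, hy, z, hz, h1, h2, h3⟩ := hdeg v hv
    have : ({y, z} : Finset V) ⊆ nbs G W v := by
      intro a ha
      rcases mem_insert.1 ha with rfl | ha
      · exact mem_nbs.2 ⟨hy, h1⟩
      · rw [mem_singleton] at ha
        subst ha
        exact mem_nbs.2 ⟨hz, h2⟩
    calc 2 = ({y, z} : Finset V).card := (card_pair h3).symm
      _ ≤ _ := card_le_card this
  -- a vertex of degree two has no third neighbour
  have htwo : ∀ w ∈ V2, ∀ a ∈ nbs G W w, ∀ b ∈ nbs G W w, a ≠ b → ∀ c ∈ nbs G W w,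
      c = a ∨ c = b := by
    intro w hw a ha b hb hab c hc
    have h1 : ({a, b} : Finset V) = nbs G W w := by
      apply eq_of_subset_of_card_le
      · intro x hx
        rcases mem_insert.1 hx with rfl | hx
        · exact ha
        · rw [mem_singleton] at hx; subst hx; exact hb
      · rw [(mem_filter.1 hw).2, card_pair hab]
    rw [← h1] at hc
    simpa using hc
  have hTinj : ∀ d d' : V × V, d.1 ∈ W → d.2 ∈ V2 → G.Adj d.1 d.2 → d'.1 ∈ W → d'.2 ∈ V2 →
      G.Adj d'.1 d'.2 → T d = T d' → d = d' := by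
    rintro ⟨u, w⟩ ⟨u', w'⟩ h1 h2 h3 h1' h2' h3' h
    simp only [hT, Prod.mk.injEq] at h
    obtain ⟨rfl, h⟩ := h
    have hw : w ∈ W := (mem_filter.1 h2).1
    have hz : oth w u ∈ nbs G W w := mem_nbs.2 ⟨ho1 w hw u, ho2 w hw u⟩
    have hu : u ∈ nbs G W w := mem_nbs.2 ⟨h1, h3.symm⟩
    have hu' : u' ∈ nbs G W w := mem_nbs.2 ⟨h1', h3'.symm⟩
    rcases htwo w h2 (oth w u) hz u hu (ho3 w hw u) u' hu' with h4 | h4
    · exact absurd (h4.trans h).symm (ho3 w hw u')
    · rw [h4]
  -- the darts starting from a vertex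
  set D : V → ℕ → V × V := fun v t => T^[t] (v, oth v v) with hD
  have hD0 : ∀ v, D v 0 = (v, oth v v) := fun v => rfl
  have hDs : ∀ v t, D v (t + 1) = T (D v t) := fun v t => Function.iterate_succ_apply' _ _ _
  have hDW : ∀ v ∈ W, ∀ t, (D v t).1 ∈ W ∧ (D v t).2 ∈ W ∧ G.Adj (D v t).1 (D v t).2 := by
    intro v hv t
    exact hdart (v, oth v v) hv (ho1 v hv v) (ho2 v hv v) t
  have hD1 : ∀ v t, (D v (t + 1)).1 = (D v t).2 := by
    intro v t; rw [hDs]
  -- every walk meets a vertex of large degree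
  have hmeet : ∀ v ∈ V2, ∃ t, 0 < t ∧ t < 2 * m ∧ (D v t).1 ∉ V2 := by
    intro v hv
    by_contra hno
    push Not at hno
    have hvW : v ∈ W := (mem_filter.1 hv).1
    set p : ℕ → V := fun t => (D v t).1 with hp
    have hadj : ∀ i, G.Adj (p i) (p (i + 1)) := by
      intro i
      simp only [hp]
      rw [hD1]
      exact (hDW v hvW i).2.2
    have hnb : ∀ i, p i ≠ p (i + 2) := by
      intro i
      simp only [hp]
      rw [show i + 2 = (i + 1) + 1 by omega, hD1, hDs]
      exact (ho3 _ (hDW v hvW i).2.1 _).symm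
    have hinj := nb_inj (n := 2 * m) hG p hmg (fun i _ => hadj i) (fun i _ => hnb i)
    set idx : V → ℕ := fun y => if h : ∃ i, 0 < i ∧ i < 2 * m ∧ y = p i then h.choose else 0
      with hidx
    apply hpath p idx
    refine ⟨fun i _ => (hDW v hvW i).1, fun i _ => hadj i, ?_, ?_, ?_, ?_⟩
    · intro i hi hi'
      have hex : ∃ j, 0 < j ∧ j < 2 * m ∧ p i = p j := ⟨i, hi, hi', rfl⟩
      simp only [hidx, hex, dif_pos]
      obtain ⟨h1, h2, h3⟩ := hex.choose_spec
      rcases lt_trichotomy hex.choose i with h | h | h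
      · exact absurd h3.symm (hinj _ _ h (by omega))
      · exact h
      · exact absurd h3 (hinj _ _ h (by omega))
    · intro i hi hi' h
      exact hinj 0 i hi (by omega) h.symm
    · intro i hi hi' h
      exact hinj i (2 * m) hi' le_rfl h
    · intro i hi hi' y hy hay
      have h1 : p (i - 1) ∈ nbs G W (p i) := by
        refine mem_nbs.2 ⟨(hDW v hvW _).1, ?_⟩
        have := (hadj (i - 1)).symm
        rwa [Nat.sub_add_cancel hi] at this
      have h2 : p (i + 1) ∈ nbs G W (p i) := mem_nbs.2 ⟨(hDW v hvW _).1, hadj i⟩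
      have h3 : p (i - 1) ≠ p (i + 1) := by
        have := hnb (i - 1)
        rwa [show i - 1 + 2 = i + 1 by omega] at this
      exact htwo (p i) (hno i hi hi') _ h1 _ h2 h3 y (mem_nbs.2 ⟨hy, hay⟩)
  -- first time
  have hfirst : ∀ v ∈ V2, ∃ t, 0 < t ∧ t < 2 * m ∧ (D v t).1 ∉ V2 ∧
      ∀ r, 0 < r → r < t → (D v r).1 ∈ V2 := by
    intro v hv
    have h := hmeet v hv
    refine ⟨Nat.find h, (Nat.find_spec h).1, (Nat.find_spec h).2.1, (Nat.find_spec h).2.2, ?_⟩
    intro r hr hrt
    by_contra hno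
    exact Nat.find_min h hrt ⟨hr, by have := (Nat.find_spec h).2.1; omega, hno⟩
  choose! τ ht0 ht1 ht2 ht3 using hfirst
  have hcount : V2.card ≤ (2 * m) * ∑ w ∈ V3, (nbs G W w).card := by
    have : V2.card ≤ ((range (2 * m)) ×ˢ (V3.sigma fun w => nbs G W w)).card := by
      apply card_le_card_of_injOn
        (fun v => (τ v, (⟨(D v (τ v)).1, (D v (τ v - 1)).1⟩ : Σ _ : V, V)))
      · intro v hv
        have hv' : v ∈ V2 := hv
        have hvW : v ∈ W := (mem_filter.1 hv').1
        refine mem_coe.2 (mem_product.2 ⟨mem_range.2 (ht1 v hv'), mem_sigma.2 ⟨?_, ?_⟩⟩)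
        · refine mem_filter.2 ⟨(hDW v hvW _).1, fun h => ht2 v hv' ?_⟩
          exact mem_filter.2 ⟨(hDW v hvW _).1, h⟩
        · refine mem_nbs.2 ⟨(hDW v hvW _).1, ?_⟩
          have h1 := ht0 v hv'
          have h2 : (D v (τ v)).1 = (D v (τ v - 1)).2 := by
            have := hD1 v (τ v - 1)
            rwa [Nat.sub_add_cancel h1] at this
          simp only
          rw [h2]
          exact (hDW v hvW _).2.2.symm
      · intro v hv v' hv' h
        have hv2 : v ∈ V2 := hv
        have hv2' : v' ∈ V2 := hv'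
        have hvW : v ∈ W := (mem_filter.1 hv2).1
        have hvW' : v' ∈ W := (mem_filter.1 hv2').1
        simp only [Prod.mk.injEq, Sigma.mk.injEq, heq_eq_eq] at h
        obtain ⟨h1, h2, h3⟩ := h
        rw [← h1] at h2 h3
        have hback : ∀ k, k ≤ τ v - 1 → D v (τ v - 1 - k) = D v' (τ v - 1 - k) := by
          intro k
          induction k with
          | zero =>
            intro _
            rw [Nat.sub_zero]
            have e1 : (D v (τ v)).1 = (D v (τ v - 1)).2 := by
              have := hD1 v (τ v - 1)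
              rwa [Nat.sub_add_cancel (ht0 v hv2)] at this
            have e2 : (D v' (τ v)).1 = (D v' (τ v - 1)).2 := by
              have := hD1 v' (τ v - 1)
              rwa [Nat.sub_add_cancel (ht0 v hv2)] at this
            exact Prod.ext h3 (by rw [← e1, ← e2, h2])
          | succ k ihk =>
            intro hk
            have h4 := ihk (by omega)
            have e1 : τ v - 1 - k = (τ v - 1 - (k + 1)) + 1 := by omega
            rw [e1, hDs, hDs] at h4
            refine hTinj _ _ (hDW v hvW _).1 ?_ (hDW v hvW _).2.2 (hDW v' hvW' _).1 ?_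
              (hDW v' hvW' _).2.2 h4
            · rw [← hD1]
              exact ht3 v hv2 _ (by omega) (by omega)
            · rw [← hD1]
              exact ht3 v' hv2' _ (by omega) (by omega)
        have := hback (τ v - 1) le_rfl
        rw [Nat.sub_self, hD0, hD0] at this
        exact (Prod.mk.inj this).1
    rwa [card_product, card_range, card_sigma] at this
  -- the count
  have hsum := hsp W hWs
  have hsplit : (∑ v ∈ W, ((nbs G W v).card : ℝ)) =
      ∑ v ∈ V2, ((nbs G W v).card : ℝ) + ∑ v ∈ V3, ((nbs G W v).card : ℝ) :=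
    (sum_filter_add_sum_filter_not W _ _).symm
  have hWc : (W.card : ℝ) = V2.card + V3.card := by
    have := card_filter_add_card_filter_not (s := W) (fun v => (nbs G W v).card = 2)
    rw [← this]
    push_cast
    rfl
  have h2s : ∑ v ∈ V2, ((nbs G W v).card : ℝ) = 2 * V2.card := by
    rw [sum_congr rfl (fun v hv => by rw [(mem_filter.1 hv).2])]
    simp [mul_comm]
  set S3 : ℝ := ∑ v ∈ V3, ((nbs G W v).card : ℝ) with hS3
  have h3s : 3 * (V3.card : ℝ) ≤ S3 := by
    have : ∑ v ∈ V3, (3 : ℝ) ≤ S3 := by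
      refine sum_le_sum fun v hv => ?_
      have h1 := hcard2 v (mem_filter.1 hv).1
      have h2 := (mem_filter.1 hv).2
      have h3 : 3 ≤ (nbs G W v).card := by omega
      exact_mod_cast h3
    rw [sum_const, nsmul_eq_mul, mul_comm] at this
    exact this
  have hcount' : (V2.card : ℝ) ≤ 2 * m * S3 := by
    rw [hS3]
    exact_mod_cast hcount
  have hWpos : 0 < (W.card : ℝ) := by exact_mod_cast hne.card_pos
  rw [hsplit, h2s] at hsum
  -- S3 - 2 V3 ≤ δ W
  have h5 : S3 - 2 * V3.card ≤ δ * W.card := by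
    rw [hWc] at hsum ⊢
    linarith
  have hV3 : (V3.card : ℝ) ≤ δ * W.card := by linarith
  have h6 : S3 ≤ 3 * (δ * W.card) := by linarith
  have hm1 : (1 : ℝ) ≤ m := by exact_mod_cast hm
  have hx : 0 ≤ δ * W.card := mul_nonneg hδ hWpos.le
  have h7 : 2 * (m : ℝ) * S3 ≤ 2 * m * (3 * (δ * W.card)) :=
    mul_le_mul_of_nonneg_left h6 (by positivity)
  have h8 : δ * (W.card : ℝ) ≤ m * (δ * W.card) := le_mul_of_one_le_left hx hm1
  have h9 : (W.card : ℝ) ≤ 7 * m * δ * W.card := by
    have : 7 * (m : ℝ) * δ * W.card =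
      2 * m * (3 * (δ * W.card)) + m * (δ * W.card) := by ring
    linarith
  have h10 : 7 * (m : ℝ) * δ * W.card < 1 * W.card := mul_lt_mul_of_pos_right hmδ hWpos
  linarith

end Pool.Agent.H1.SA
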