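import Mathlib
import Pool.Graph.R_seed8.W939.SSE.Good

/-!
Random constraints: small sets of vertices span few constraints.
-/

set_option autoImplicit false
set_option linter.unusedSectionVars false

namespace Pool.Agent.H1.SA

open Finset Pool.Agent.W939.SSE

variable {ι Z : Type} [Fintype ι] [DecidableEq ι] [Fintype Z] [DecidableEq Z]

theorem tail_cnt (pr : Z → Prop) [DecidablePred pr] {p M : ℝ} {m : ℕ}
    (hp : ((univ.filter pr).card : ℝ) ≤ p * Fintype.card Z)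
    (hM : p * Fintype.card ι = M) (hM0 : 0 < M) (hm : M ≤ m) :
    ((univ.filter (fun τ : ι → Z => m ≤ cnt pr τ)).card : ℝ) ≤
      (Fintype.card (ι → Z) : ℝ) * (Real.exp 1 * M / m) ^ m := by
  have hm0 : (0 : ℝ) < m := lt_of_lt_of_le hM0 hm
  set w : ℝ := m / M with hw
  have hw1 : 1 ≤ w := by rw [hw, le_div_iff₀ hM0]; linarith
  have hw0 : 0 < w := by linarith
  have h1 := cnt_mgf (ι := ι) pr hw1 hp
  rw [hM] at h1
  have h2 : ((univ.filter (fun τ : ι → Z => m ≤ cnt pr τ)).card : ℝ) * w ^ m ≤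
      ∑ τ : ι → Z, w ^ cnt pr τ := by
    rw [← nsmul_eq_mul, ← Finset.sum_const]
    refine le_trans (Finset.sum_le_sum (fun τ hτ => ?_))
      (Finset.sum_le_sum_of_subset_of_nonneg (filter_subset _ _)
        (fun τ _ _ => (pow_pos hw0 (cnt pr τ)).le))
    exact pow_le_pow_right₀ hw1 (mem_filter.1 hτ).2
  have h3 : Real.exp ((w - 1) * M) ≤ Real.exp 1 ^ m := by
    rw [← Real.exp_nat_mul]
    apply Real.exp_le_exp.2
    have : (w - 1) * M = m - M := by rw [hw]; field_simp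
    rw [this]
    linarith
  have h4 : ((univ.filter (fun τ : ι → Z => m ≤ cnt pr τ)).card : ℝ) * w ^ m ≤
      (Fintype.card (ι → Z) : ℝ) * Real.exp 1 ^ m :=
    h2.trans (h1.trans (mul_le_mul_of_nonneg_left h3 (Nat.cast_nonneg _)))
  rw [← le_div_iff₀ (pow_pos hw0 m), mul_div_assoc, ← div_pow] at h4
  refine h4.trans (le_of_eq ?_)
  congr 2
  rw [hw]
  field_simp

variable {N q : ℕ}

/-- The constraint has both end points in `A`. -/
def InA (A : Finset (Fin N ⊕ Fin N)) (z : Zt N q) : Prop :=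
  Sum.inl z.1.1 ∈ A ∧ Sum.inr z.1.2 ∈ A

instance (A : Finset (Fin N ⊕ Fin N)) : DecidablePred (InA (q := q) A) := fun z => by
  unfold InA; infer_instance

theorem card_inA (hN : 0 < N) (A : Finset (Fin N ⊕ Fin N)) :
    ((univ.filter (fun z : Zt N q => InA A z)).card : ℝ) ≤
      ((A.card : ℝ) ^ 2 / (4 * (N : ℝ) ^ 2)) * (Fintype.card (Zt N q) : ℝ) := by
  set L : Finset (Fin N) := univ.filter fun u => Sum.inl u ∈ A with hL
  set R : Finset (Fin N) := univ.filter fun u => Sum.inr u ∈ A with hR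
  have hA : L.card + R.card = A.card := by
    have h1 : A = L.image Sum.inl ∪ R.image Sum.inr := by
      ext x
      rcases x with u | w
      · simp [hL]
      · simp [hR]
    have h2 : Disjoint (L.image (Sum.inl : Fin N → Fin N ⊕ Fin N)) (R.image Sum.inr) := by
      rw [Finset.disjoint_left]
      intro x hx hx'
      obtain ⟨y, _, rfl⟩ := mem_image.1 hx
      obtain ⟨y', _, h⟩ := mem_image.1 hx'
      exact absurd h (by simp)
    conv_rhs => rw [h1]
    rw [card_union_of_disjoint h2, card_image_of_injective _ Sum.inl_injective,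
      card_image_of_injective _ Sum.inr_injective]
  have h : (univ.filter (fun z : Zt N q => InA A z)) =
      (L ×ˢ R) ×ˢ (univ : Finset (Equiv.Perm (Fin q))) := by
    ext ⟨⟨a, b⟩, ρ⟩
    simp only [mem_filter, mem_univ, true_and, mem_product, and_true, hL, hR]
    exact Iff.rfl
  have hN' : (0 : ℝ) < N := by exact_mod_cast hN
  rw [h, card_Zt]
  simp only [card_product, card_univ]
  push_cast
  have h3 : (L.card : ℝ) * R.card ≤ (A.card : ℝ) ^ 2 / 4 := by
    have : (A.card : ℝ) = L.card + R.card := by rw [← hA]; push_cast; ring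
    rw [this]
    nlinarith [sq_nonneg ((L.card : ℝ) - R.card)]
  have h4 : (A.card : ℝ) ^ 2 / (4 * (N : ℝ) ^ 2) *
      ((N : ℝ) * N * (Fintype.card (Equiv.Perm (Fin q)) : ℝ)) =
      (A.card : ℝ) ^ 2 / 4 * (Fintype.card (Equiv.Perm (Fin q)) : ℝ) := by
    field_simp
  rw [h4]
  exact mul_le_mul_of_nonneg_right h3 (Nat.cast_nonneg _)

/-- The number of constraints inside of `A`. -/
def cntIn (A : Finset (Fin N ⊕ Fin N)) (τ : ι → Zt N q) : ℕ := cnt (fun z => InA A z) τ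

theorem tail_in {Q s m : ℕ} (hN : 0 < N) (hQ : 1 ≤ Q)
    (hι : (Fintype.card ι : ℝ) = (Q : ℝ) ^ 2 * N)
    (A : Finset (Fin N ⊕ Fin N)) (hA : A.card = s) (hs : 1 ≤ s) (hm : s ≤ m)
    (hsN : (s : ℝ) * Q ^ 2 ≤ 4 * N) :
    ((univ.filter (fun τ : ι → Zt N q => m ≤ cntIn A τ)).card : ℝ) ≤
      (Fintype.card (ι → Zt N q) : ℝ) * (Real.exp 1 * s * Q ^ 2 / (4 * N)) ^ m := by
  have hN' : (0 : ℝ) < N := by exact_mod_cast hN
  have hs' : (1 : ℝ) ≤ s := by exact_mod_cast hs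
  have hQ' : (1 : ℝ) ≤ Q := by exact_mod_cast hQ
  have hm' : (s : ℝ) ≤ m := by exact_mod_cast hm
  have hm0 : (0 : ℝ) < m := by linarith
  have hs0 : (0 : ℝ) < s := by linarith
  have hQ0 : (0 : ℝ) < Q := by linarith
  set M : ℝ := (s : ℝ) ^ 2 * Q ^ 2 / (4 * N) with hMdef
  have hM0 : 0 < M := by rw [hMdef]; positivity
  have hMs : M ≤ s := by
    rw [hMdef, div_le_iff₀ (by positivity)]
    have : (s : ℝ) ^ 2 * Q ^ 2 = s * (s * Q ^ 2) := by ring
    rw [this]
    exact mul_le_mul_of_nonneg_left hsN hs0.le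
  have h1 := tail_cnt (ι := ι) (fun z : Zt N q => InA A z) (M := M) (m := m) (card_inA hN A) (by
    rw [hι, hA, hMdef]
    field_simp) hM0 (hMs.trans hm')
  refine h1.trans ?_
  apply mul_le_mul_of_nonneg_left _ (Nat.cast_nonneg _)
  apply pow_le_pow_left₀ (by positivity)
  rw [div_le_iff₀ hm0, hMdef]
  have h2 : Real.exp 1 * s * Q ^ 2 / (4 * N) * s ≤ Real.exp 1 * s * Q ^ 2 / (4 * N) * m :=
    mul_le_mul_of_nonneg_left hm' (by positivity)
  refine le_trans (le_of_eq ?_) h2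
  ring

theorem choose_bound {n s : ℕ} (hs : 1 ≤ s) :
    (n.choose s : ℝ) ≤ (Real.exp 1 * n / s) ^ s := by
  have hs0 : (0 : ℝ) < s := by exact_mod_cast hs
  have h1 : (n.choose s : ℝ) ≤ (n : ℝ) ^ s / (s.factorial : ℝ) := Nat.choose_le_pow_div s n
  have h2 : (s : ℝ) ^ s / (s.factorial : ℝ) ≤ Real.exp s :=
    Real.pow_div_factorial_le_exp _ hs0.le s
  have h3 : (n : ℝ) ^ s / (s.factorial : ℝ) = (n / s) ^ s * ((s : ℝ) ^ s / s.factorial) := by
    rw [div_pow]
    field_simp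
  have h4 : Real.exp (s : ℝ) = Real.exp 1 ^ s := by rw [← Real.exp_nat_mul, mul_one]
  calc (n.choose s : ℝ) ≤ (n / s) ^ s * ((s : ℝ) ^ s / s.factorial) := by rw [← h3]; exact h1
    _ ≤ (n / s) ^ s * Real.exp 1 ^ s := by
        rw [← h4]
        exact mul_le_mul_of_nonneg_left h2 (by positivity)
    _ = (Real.exp 1 * n / s) ^ s := by
        rw [← mul_pow]
        congr 1
        ring

/-- Sets of `s` vertices with too many constraints: union bound. -/
theorem union_in {Q s m : ℕ} (hN : 0 < N) (hQ : 1 ≤ Q)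
    (hι : (Fintype.card ι : ℝ) = (Q : ℝ) ^ 2 * N) (hs : 1 ≤ s) (hm : s ≤ m)
    (hsN : (s : ℝ) * Q ^ 2 ≤ 4 * N) :
    ∑ A ∈ (univ : Finset (Fin N ⊕ Fin N)).powersetCard s,
      ((univ.filter (fun τ : ι → Zt N q => m ≤ cntIn A τ)).card : ℝ) ≤
      (Fintype.card (ι → Zt N q) : ℝ) *
        ((2 * Real.exp 1 * N / s) ^ s * (Real.exp 1 * s * Q ^ 2 / (4 * N)) ^ m) := by
  refine (sum_le_card_nsmul _ _ _ fun A hA => tail_in (m := m) hN hQ hι A
    (mem_powersetCard.1 hA).2 hs hm hsN).trans ?_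
  rw [card_powersetCard, nsmul_eq_mul]
  have h1 : (((univ : Finset (Fin N ⊕ Fin N)).card.choose s : ℕ) : ℝ) ≤
      (2 * Real.exp 1 * N / s) ^ s := by
    have := choose_bound (n := (univ : Finset (Fin N ⊕ Fin N)).card) hs
    refine this.trans (le_of_eq ?_)
    rw [card_univ, Fintype.card_sum, Fintype.card_fin]
    push_cast
    congr 1
    ring
  have h2 : 0 ≤ (Real.exp 1 * s * Q ^ 2 / (4 * N)) ^ m := by positivity
  calc (((univ : Finset (Fin N ⊕ Fin N)).card.choose s : ℕ) : ℝ) *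
        ((Fintype.card (ι → Zt N q) : ℝ) * (Real.exp 1 * s * Q ^ 2 / (4 * N)) ^ m)
      ≤ (2 * Real.exp 1 * N / s) ^ s *
        ((Fintype.card (ι → Zt N q) : ℝ) * (Real.exp 1 * s * Q ^ 2 / (4 * N)) ^ m) :=
        mul_le_mul_of_nonneg_right h1 (by positivity)
    _ = _ := by ring

/-- Many sets have few constraints: the numbers. -/
theorem term_sparse {Q R s s0 : ℕ} (hN : 0 < N) (hQ : 1 ≤ Q) (hR : 1 ≤ R) (hs : 1 ≤ s)
    (hss : s ≤ s0)
    (hbig : (10 * Real.exp 1 ^ 2 * Q ^ 2) ^ R * (Real.exp 1 * s0 * Q ^ 2 / (4 * N)) ≤ 1) :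
    (2 * Real.exp 1 * N / s) ^ s * (Real.exp 1 * s * Q ^ 2 / (4 * N)) ^ ((R + 1) * s / R + 1) ≤
      (1 / 20) ^ s := by
  have hN' : (0 : ℝ) < N := by exact_mod_cast hN
  have hs' : (1 : ℝ) ≤ s := by exact_mod_cast hs
  have hQ' : (1 : ℝ) ≤ Q := by exact_mod_cast hQ
  have hs0 : (0 : ℝ) < s := by linarith
  have hQ0 : (0 : ℝ) < Q := by linarith
  have hss' : (s : ℝ) ≤ s0 := by exact_mod_cast hss
  have he : 1 ≤ Real.exp 1 := Real.one_le_exp (by norm_num)
  have he0 : 0 < Real.exp 1 := Real.exp_pos 1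
  set x : ℝ := Real.exp 1 * s * Q ^ 2 / (4 * N) with hx
  have hx0 : 0 < x := by rw [hx]; positivity
  set y : ℝ := 10 * Real.exp 1 ^ 2 * Q ^ 2 with hy
  have hy1 : 1 ≤ y := by
    rw [hy]
    have h1 : 1 ≤ Real.exp 1 ^ 2 := one_le_pow₀ he
    have h2 : 1 ≤ (Q : ℝ) ^ 2 := one_le_pow₀ hQ'
    nlinarith
  have hyR : 1 ≤ y ^ R := one_le_pow₀ hy1
  have hxx : x ≤ Real.exp 1 * s0 * Q ^ 2 / (4 * N) := by
    rw [hx]
    apply div_le_div_of_nonneg_right _ (by positivity)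
    have : Real.exp 1 * (s : ℝ) ≤ Real.exp 1 * s0 := mul_le_mul_of_nonneg_left hss' he0.le
    exact mul_le_mul_of_nonneg_right this (by positivity)
  have hyx : y ^ R * x ≤ 1 := (mul_le_mul_of_nonneg_left hxx (by positivity)).trans hbig
  have hx1 : x ≤ 1 := by
    have : 1 * x ≤ y ^ R * x := mul_le_mul_of_nonneg_right hyR hx0.le
    linarith
  set m := (R + 1) * s / R + 1 with hm
  have hmR : (R + 1) * s ≤ m * R := by
    have := Nat.lt_div_mul_add (a := (R + 1) * s) (b := R) (by omega)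
    have e : ((R + 1) * s / R + 1) * R = (R + 1) * s / R * R + R := by
      rw [Nat.add_mul ((R + 1) * s / R) 1 R, one_mul]
    rw [hm, e]
    exact this.le
  have hR0 : R ≠ 0 := by omega
  apply le_of_pow_le_pow_left₀ hR0 (by positivity)
  rw [mul_pow, ← pow_mul x]
  have h1 : x ^ (m * R) ≤ x ^ ((R + 1) * s) := pow_le_pow_of_le_one hx0.le hx1 hmR
  have h2 : ((2 * Real.exp 1 * N / s) ^ s) ^ R * x ^ ((R + 1) * s) =
      (((y / 20) ^ R) * x) ^ s := by
    have h3 : 2 * Real.exp 1 * N / s * x = y / 20 := by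
      rw [hx, hy]
      field_simp
      ring
    rw [← h3, mul_pow, mul_pow, mul_pow, ← pow_mul, ← pow_mul, ← pow_mul]
    rw [show (R + 1) * s = R * s + s by ring, pow_add, show s * R = R * s by ring]
    ring
  calc ((2 * Real.exp 1 * N / s) ^ s) ^ R * x ^ (m * R)
      ≤ ((2 * Real.exp 1 * N / s) ^ s) ^ R * x ^ ((R + 1) * s) :=
        mul_le_mul_of_nonneg_left h1 (by positivity)
    _ = (((y / 20) ^ R) * x) ^ s := h2
    _ ≤ ((1 / 20) ^ R) ^ s := by
        apply pow_le_pow_left₀ (by positivity)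
        have : (y / 20) ^ R * x = (1 / 20) ^ R * (y ^ R * x) := by
          rw [div_pow, div_pow, one_pow]; ring
        rw [this]
        exact mul_le_of_le_one_right (by positivity) hyx
    _ = ((1 / 20) ^ s) ^ R := by rw [← pow_mul, ← pow_mul, mul_comm]

theorem term_tight {Q s g : ℕ} (hN : 0 < N) (hQ : 1 ≤ Q) (hs : 1 ≤ s) (hsg : s ≤ g) :
    (2 * Real.exp 1 * N / s) ^ s * (Real.exp 1 * s * Q ^ 2 / (4 * N)) ^ s ≤
      (Real.exp 1 ^ 2 * Q ^ 2 / 2) ^ g := by
  have hN' : (0 : ℝ) < N := by exact_mod_cast hN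
  have hs' : (1 : ℝ) ≤ s := by exact_mod_cast hs
  have hQ' : (1 : ℝ) ≤ Q := by exact_mod_cast hQ
  have hs0 : (0 : ℝ) < s := by linarith
  rw [← mul_pow]
  have h1 : 2 * Real.exp 1 * N / s * (Real.exp 1 * s * Q ^ 2 / (4 * N)) =
      Real.exp 1 ^ 2 * Q ^ 2 / 2 := by
    field_simp
    ring
  rw [h1]
  apply pow_le_pow_right₀ _ hsg
  have h2 : (2 : ℝ) ≤ Real.exp 1 := by
    have := Real.add_one_le_exp (1 : ℝ); linarith
  have h3 : 1 ≤ (Q : ℝ) ^ 2 := one_le_pow₀ hQ'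
  nlinarith

end Pool.Agent.H1.SA
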