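import Pool.Agent.H1.SA.Path

/-!
Vectors for the kernel `lam ^ distance`: adding a long path, and the induction.
-/

set_option autoImplicit false
set_option linter.unusedSectionVars false

namespace Pool.Agent.H1.SA

open Finset

variable {V : Type} {G : SimpleGraph V} {W W' : Finset V} {x y z : V} {n k m : ℕ} {lam : ℝ}
variable [DecidableEq V] {p : ℕ → V} {idx : V → ℕ}

theorem abs_cross {a b I0 I1 k0 k1 K L e : ℝ} (ha : 0 ≤ a) (hb : 0 ≤ b) (hab : a + b ≤ 1)
    (hL : 0 ≤ L) (hmin : a ≤ L ∨ b ≤ L) (h0 : |I0 - k0| ≤ e) (h1 : |I1 - k1| ≤ e)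
    (hk0 : 0 ≤ k0) (hk1 : 0 ≤ k1) (hk0' : k0 ≤ 1) (hk1' : k1 ≤ 1)
    (hK0 : a * k0 ≤ K) (hK1 : b * k1 ≤ K) (hK : K ≤ max (max (a * k0) (b * k1)) L) :
    |a * I0 + b * I1 - K| ≤ e + 4 * L := by
  have he : 0 ≤ e := (abs_nonneg _).trans h0
  rw [abs_le] at h0 h1
  have h3 : K ≤ a * k0 + b * k1 + L := by
    refine hK.trans (max_le (max_le ?_ ?_) ?_)
    · have := mul_nonneg hb hk1; linarith
    · have := mul_nonneg ha hk0; linarith
    · have := mul_nonneg hb hk1
      have := mul_nonneg ha hk0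
      linarith
  have h4 : a * I0 ≤ a * k0 + a * e := by nlinarith
  have h5 : b * I1 ≤ b * k1 + b * e := by nlinarith
  have h4' : a * k0 - a * e ≤ a * I0 := by nlinarith
  have h5' : b * k1 - b * e ≤ b * I1 := by nlinarith
  have h6 : a * e + b * e ≤ e := by nlinarith
  have h7 : a * k0 + b * k1 ≤ K + L := by
    rcases hmin with h | h
    · have : a * k0 ≤ L := by nlinarith
      linarith
    · have : b * k1 ≤ L := by nlinarith
      linarith
  rw [abs_le]
  constructor <;> linarith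

theorem abs_inner {ai bi aj bj D κ I00 I01 I11 K L M e : ℝ} (hai : 0 ≤ ai) (hbi : 0 ≤ bi)
    (haj : 0 ≤ aj) (hbj : 0 ≤ bj) (hi : ai + bi ≤ 1) (hj : aj + bj ≤ 1) (hL : 0 ≤ L)
    (h00 : |I00 - 1| ≤ e) (h01 : |I01 - κ| ≤ e) (h11 : |I11 - 1| ≤ e)
    (hκ : 0 ≤ κ) (hκ' : κ ≤ 1) (hD : 0 ≤ D) (hM : 0 ≤ M) (hML : M ≤ L)
    (hmin : D ≤ L ∨ ai * bj ≤ L) (hQ : bi * aj ≤ L)
    (hK0 : D ≤ K) (hK1 : ai * bj * κ ≤ K)
    (hK : K ≤ max (max D (ai * bj * κ)) (max (bi * aj * κ) L)) :
    |D + ai * aj * (I00 - 1) + bi * bj * (I11 - 1) + (ai * bj + bi * aj) * (I01 + M) - K| ≤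
      e + 4 * L := by
  have he : 0 ≤ e := (abs_nonneg _).trans h00
  rw [abs_le] at h00 h01 h11
  set P := ai * bj with hP
  set Q := bi * aj with hQd
  set R := ai * aj with hR
  set S := bi * bj with hS
  have hP0 : 0 ≤ P := mul_nonneg hai hbj
  have hQ0 : 0 ≤ Q := mul_nonneg hbi haj
  have hR0 : 0 ≤ R := mul_nonneg hai haj
  have hS0 : 0 ≤ S := mul_nonneg hbi hbj
  have hsum : P + Q + R + S ≤ 1 := by
    have : P + Q + R + S = (ai + bi) * (aj + bj) := by rw [hP, hQd, hR, hS]; ring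
    rw [this]
    have h1 : 0 ≤ ai + bi := by linarith
    have h2 : 0 ≤ aj + bj := by linarith
    calc (ai + bi) * (aj + bj) ≤ 1 * 1 := mul_le_mul hi hj h2 zero_le_one
      _ = 1 := one_mul 1
  have hsume : P * e + Q * e + R * e + S * e ≤ e := by
    have h9 : P * e + Q * e + R * e + S * e = (P + Q + R + S) * e := by ring
    rw [h9]
    calc (P + Q + R + S) * e ≤ 1 * e := mul_le_mul_of_nonneg_right hsum he
      _ = e := one_mul e
  have hPκ : 0 ≤ P * κ := mul_nonneg hP0 hκ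
  have hQκ : 0 ≤ Q * κ := mul_nonneg hQ0 hκ
  have hQκ' : Q * κ ≤ L := (mul_le_of_le_one_right hQ0 hκ').trans hQ
  have hP1 : P ≤ 1 := by linarith
  have hQ1 : Q ≤ 1 := by linarith
  have hPM : P * M ≤ L := (mul_le_of_le_one_left hM hP1).trans hML
  have hQM : Q * M ≤ L := (mul_le_of_le_one_left hM hQ1).trans hML
  have hPM0 : 0 ≤ P * M := mul_nonneg hP0 hM
  have hQM0 : 0 ≤ Q * M := mul_nonneg hQ0 hM
  have h3 : K ≤ D + P * κ + Q * κ + L := by
    refine hK.trans (max_le (max_le ?_ ?_) (max_le ?_ ?_)) <;> linarith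
  have h7 : D + P * κ ≤ K + L := by
    rcases hmin with h | h
    · linarith
    · have : P * κ ≤ L := (mul_le_of_le_one_right hP0 hκ').trans h
      linarith
  have e1 : R * (I00 - 1) ≤ R * e := mul_le_mul_of_nonneg_left h00.2 hR0
  have e1' : -(R * e) ≤ R * (I00 - 1) := by
    have := mul_le_mul_of_nonneg_left h00.1 hR0; linarith
  have e2 : S * (I11 - 1) ≤ S * e := mul_le_mul_of_nonneg_left h11.2 hS0
  have e2' : -(S * e) ≤ S * (I11 - 1) := by
    have := mul_le_mul_of_nonneg_left h11.1 hS0; linarith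
  have e3 : P * (I01 - κ) ≤ P * e := mul_le_mul_of_nonneg_left h01.2 hP0
  have e3' : -(P * e) ≤ P * (I01 - κ) := by
    have := mul_le_mul_of_nonneg_left h01.1 hP0; linarith
  have e4 : Q * (I01 - κ) ≤ Q * e := mul_le_mul_of_nonneg_left h01.2 hQ0
  have e4' : -(Q * e) ≤ Q * (I01 - κ) := by
    have := mul_le_mul_of_nonneg_left h01.1 hQ0; linarith
  have e5 : (P + Q) * (I01 + M) = P * (I01 - κ) + Q * (I01 - κ) + P * κ + Q * κ + P * M + Q * M := by
    ring
  rw [e5, abs_le]
  constructor <;> linarith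

theorem pow_sum_le (h0 : 0 ≤ lam) (h1 : lam ≤ 1) (hl : lam + lam ^ m ≤ 1) {i : ℕ}
    (hi : 0 < i) (hi' : i < 2 * m) : lam ^ i + lam ^ (2 * m - i) ≤ 1 := by
  rcases Nat.lt_or_ge i m with h | h
  · have h2 : lam ^ i ≤ lam ^ 1 := pow_le_pow_of_le_one h0 h1 hi
    have h3 : lam ^ (2 * m - i) ≤ lam ^ m := pow_le_pow_of_le_one h0 h1 (by omega)
    rw [pow_one] at h2
    linarith
  · have h2 : lam ^ i ≤ lam ^ m := pow_le_pow_of_le_one h0 h1 h
    have h3 : lam ^ (2 * m - i) ≤ lam ^ 1 := pow_le_pow_of_le_one h0 h1 (by omega)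
    rw [pow_one] at h3
    linarith

theorem rep_path {e : ℝ} (h0 : 0 ≤ lam) (h1 : lam ≤ 1) (hl : lam + lam ^ m ≤ 1)
    (hP : PathIn G W m p idx) (h : Rep G (rest W m p) lam e) :
    Rep G W lam (e + 4 * lam ^ m) := by
  obtain ⟨J, _, φ, hφ⟩ := h
  obtain ⟨J', _, c, hc⟩ := exists_chain h0 h1 (2 * m)
  have hL : 0 ≤ lam ^ m := pow_nonneg h0 m
  set ψ : ℕ → J ⊕ J' → ℝ := fun i =>
    Sum.elim (lam ^ i • φ (p 0) + lam ^ (2 * m - i) • φ (p (2 * m)))
      (c i - lam ^ i • c 0 - lam ^ (2 * m - i) • c (2 * m)) with hψ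
  have hin : ∀ i, 0 < i → i < 2 * m → p i ∉ rest W m p := fun i hi hi' h =>
    (mem_rest.1 h).2 i hi hi' rfl
  have hsub : rest W m p ⊆ W := rest_subset
  -- the pairs
  have hrr : ∀ x ∈ rest W m p, ∀ y ∈ rest W m p,
      |ip (φ x) (φ y) - kap G W lam x y| ≤ e + 4 * lam ^ m := by
    intro x hx y hy
    have h3 := hφ x hx y hy
    have h4 : kap G (rest W m p) lam x y ≤ kap G W lam x y := kap_mono h0 h1 hsub
    have h5 := hP.kap_rest_rest h0 h1 hx (hsub hy)
    simp only [hy, if_true] at h5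
    have h6 : kap G W lam x y ≤ kap G (rest W m p) lam x y + lam ^ m := by
      refine h5.trans (max_le ?_ ?_)
      · linarith
      · have := kap_nonneg (G := G) (W := rest W m p) (x := x) (y := y) h0 h1
        linarith
    rw [abs_le] at h3 ⊢
    constructor <;> linarith
  have hri : ∀ x ∈ rest W m p, ∀ i, 0 < i → i < 2 * m →
      |ip (Sum.elim (φ x) (0 : J' → ℝ)) (ψ i) - kap G W lam x (p i)| ≤ e + 4 * lam ^ m := by
    intro x hx i hi hi'
    rw [hψ]
    simp only
    rw [ip_elim, ip_zero_left, add_zero, ip_add_right, ip_smul_right, ip_smul_right]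
    have h5 := hP.kap_rest_rest h0 h1 hx (hP.mem i (by omega))
    simp only [hin i hi hi', if_false, hP.idx_p i hi hi'] at h5
    refine abs_cross (pow_nonneg h0 _) (pow_nonneg h0 _) (pow_sum_le h0 h1 hl hi hi') hL ?_
      (hφ x hx _ hP.p0) (hφ x hx _ hP.p1) (kap_nonneg h0 h1) (kap_nonneg h0 h1)
      (kap_le_one h0 h1) (kap_le_one h0 h1) ?_ ?_ h5
    · rcases Nat.lt_or_ge i m with h | h
      · exact Or.inr (pow_le_pow_of_le_one h0 h1 (by omega))
      · exact Or.inl (pow_le_pow_of_le_one h0 h1 h)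
    · have h6 := hP.up (x := x) h0 h1 (Nat.zero_le i) (by omega)
      rw [Nat.sub_zero] at h6
      refine le_trans (mul_le_mul_of_nonneg_left (kap_mono h0 h1 hsub) (pow_nonneg h0 _)) h6
    · have h6 := hP.down (x := x) h0 h1 (show i ≤ 2 * m by omega) le_rfl
      refine le_trans (mul_le_mul_of_nonneg_left (kap_mono h0 h1 hsub) (pow_nonneg h0 _)) h6
  have hii : ∀ i j, 0 < i → i ≤ j → j < 2 * m →
      |ip (ψ i) (ψ j) - kap G W lam (p i) (p j)| ≤ e + 4 * lam ^ m := by
    intro i j hi hij hj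
    have hi' : i < 2 * m := by omega
    have hj0 : 0 < j := by omega
    have c1 : ip (c i) (c j) = lam ^ (j - i) := hc i j hij (by omega)
    have c2 : ip (c i) (c 0) = lam ^ i := by rw [ip_comm, hc 0 i (by omega) (by omega), Nat.sub_zero]
    have c3 : ip (c 0) (c j) = lam ^ j := by rw [hc 0 j (by omega) (by omega), Nat.sub_zero]
    have c4 : ip (c i) (c (2 * m)) = lam ^ (2 * m - i) := hc i _ (by omega) le_rfl
    have c5 : ip (c (2 * m)) (c j) = lam ^ (2 * m - j) := by
      rw [ip_comm]; exact hc j _ (by omega) le_rfl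
    have c6 : ip (c 0) (c (2 * m)) = lam ^ (2 * m) := by
      rw [hc 0 _ (by omega) le_rfl, Nat.sub_zero]
    have c7 : ip (c (2 * m)) (c 0) = lam ^ (2 * m) := by rw [ip_comm, c6]
    have c8 : ip (c 0) (c 0) = 1 := by rw [hc 0 0 le_rfl (by omega)]; simp
    have c9 : ip (c (2 * m)) (c (2 * m)) = 1 := by rw [hc _ _ le_rfl le_rfl]; simp
    have key : ip (ψ i) (ψ j) = lam ^ (j - i) + lam ^ i * lam ^ j * (ip (φ (p 0)) (φ (p 0)) - 1) +
        lam ^ (2 * m - i) * lam ^ (2 * m - j) * (ip (φ (p (2 * m))) (φ (p (2 * m))) - 1) +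
        (lam ^ i * lam ^ (2 * m - j) + lam ^ (2 * m - i) * lam ^ j) *
          (ip (φ (p 0)) (φ (p (2 * m))) + lam ^ (2 * m)) := by
      rw [hψ]
      simp only
      rw [ip_elim]
      simp only [ip_add_left, ip_add_right, ip_sub_left, ip_sub_right, ip_smul_left,
        ip_smul_right, c1, c2, c3, c4, c5, c6, c7, c8, c9]
      rw [ip_comm (φ (p (2 * m))) (φ (p 0))]
      ring
    rw [key]
    have h5 := hP.kap_inner h0 h1 hi hi' (hP.mem j (by omega))
    simp only [hin j hj0 hj, if_false, hP.idx_p j hj0 hj] at h5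
    have e1 : i - j + (j - i) = j - i := by omega
    rw [e1, pow_add, pow_add, mul_comm (lam ^ j) (lam ^ (2 * m - i))] at h5
    refine abs_inner (pow_nonneg h0 _) (pow_nonneg h0 _) (pow_nonneg h0 _) (pow_nonneg h0 _)
      (pow_sum_le h0 h1 hl hi hi') (pow_sum_le h0 h1 hl hj0 hj) hL ?_
      (hφ _ hP.p0 _ hP.p1) ?_ (kap_nonneg h0 h1) (kap_le_one h0 h1) (pow_nonneg h0 _)
      (pow_nonneg h0 _) (pow_le_pow_of_le_one h0 h1 (by omega)) ?_ ?_ ?_ ?_ h5
    · have := hφ _ hP.p0 _ hP.p0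
      rwa [kap_self h0 h1 hP.p0] at this
    · have := hφ _ hP.p1 _ hP.p1
      rwa [kap_self h0 h1 hP.p1] at this
    · rcases Nat.lt_or_ge (j - i) m with h | h
      · right
        rw [← pow_add]
        exact pow_le_pow_of_le_one h0 h1 (by omega)
      · exact Or.inl (pow_le_pow_of_le_one h0 h1 h)
    · rw [← pow_add]
      exact pow_le_pow_of_le_one h0 h1 (by omega)
    · have h6 := hP.up (x := p i) h0 h1 hij (by omega)
      rwa [kap_self h0 h1 (hP.mem i (by omega)), mul_one] at h6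
    · have h6 := hP.down (x := p 0) h0 h1 (show j ≤ 2 * m by omega) le_rfl
      have h7 := hP.up (x := p j) h0 h1 (Nat.zero_le i) (by omega)
      rw [Nat.sub_zero, kap_symm, kap_symm (p j) (p i)] at h7
      have h8 : kap G (rest W m p) lam (p 0) (p (2 * m)) ≤ kap G W lam (p 0) (p (2 * m)) :=
        kap_mono h0 h1 hsub
      calc lam ^ i * lam ^ (2 * m - j) * kap G (rest W m p) lam (p 0) (p (2 * m))
          ≤ lam ^ i * lam ^ (2 * m - j) * kap G W lam (p 0) (p (2 * m)) :=
            mul_le_mul_of_nonneg_left h8 (mul_nonneg (pow_nonneg h0 _) (pow_nonneg h0 _))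
        _ = lam ^ i * (lam ^ (2 * m - j) * kap G W lam (p 0) (p (2 * m))) := by ring
        _ ≤ lam ^ i * kap G W lam (p 0) (p j) := mul_le_mul_of_nonneg_left h6 (pow_nonneg h0 _)
        _ ≤ _ := h7
  refine ⟨J ⊕ J', inferInstance, fun x => if x ∈ rest W m p then Sum.elim (φ x) 0 else
    ψ (idx x), ?_⟩
  intro x hx y hy
  rcases PathIn.cases (m := m) (p := p) hx with h3 | ⟨i, hi, hi', rfl⟩
  · rcases PathIn.cases (m := m) (p := p) hy with h4 | ⟨j, hj, hj', rfl⟩
    · simp only [h3, h4, if_true]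
      rw [ip_elim, ip_zero_left, add_zero]
      exact hrr x h3 y h4
    · simp only [h3, if_true, hin j hj hj', if_false, hP.idx_p j hj hj']
      exact hri x h3 j hj hj'
  · rcases PathIn.cases (m := m) (p := p) hy with h4 | ⟨j, hj, hj', rfl⟩
    · simp only [h4, if_true, hin i hi hi', if_false, hP.idx_p i hi hi']
      rw [ip_comm, kap_symm]
      exact hri y h4 i hi hi'
    · simp only [hin i hi hi', hin j hj hj', if_false, hP.idx_p i hi hi', hP.idx_p j hj hj']
      rcases le_total i j with hij | hij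
      · exact hii i j hi hij hj'
      · rw [ip_comm, kap_symm]
        exact hii j i hj hij hi'

/-- Every nonempty set of at most `s` vertices has a vertex of degree at most one or a long path
of vertices of degree two. -/
def Peelable (G : SimpleGraph V) (s m : ℕ) : Prop :=
  ∀ W : Finset V, W.Nonempty → W.card ≤ s →
    (∃ v ∈ W, ∀ y ∈ W, ∀ z ∈ W, G.Adj v y → G.Adj v z → y = z) ∨
    (∃ (p : ℕ → V) (idx : V → ℕ), PathIn G W m p idx)

theorem rep_of_peelable {s : ℕ} (h0 : 0 ≤ lam) (h1 : lam ≤ 1) (hl : lam + lam ^ m ≤ 1)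
    (hm : 0 < m) (hG : Peelable G s m) :
    ∀ k : ℕ, ∀ W : Finset V, W.card = k → k ≤ s → Rep G W lam (4 * k * lam ^ m) := by
  have hL : 0 ≤ lam ^ m := pow_nonneg h0 m
  intro k
  induction k using Nat.strong_induction_on with
  | _ k ih =>
    intro W hW hk
    rcases W.eq_empty_or_nonempty with rfl | hne
    · simp only [card_empty] at hW
      subst hW
      have := rep_empty (G := G) (lam := lam)
      simpa using this
    · rcases hG W hne (hW ▸ hk) with ⟨v, hv, hvn⟩ | ⟨p, idx, hP⟩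
      · have hcard : (W.erase v).card = k - 1 := by rw [card_erase_of_mem hv, hW]
        have hk1 : 1 ≤ k := by rw [← hW]; exact hne.card_pos
        have h3 := ih (k - 1) (by omega) (W.erase v) hcard (by omega)
        have h4 : 0 ≤ 4 * ((k - 1 : ℕ) : ℝ) * lam ^ m := by positivity
        have h5 : 4 * ((k - 1 : ℕ) : ℝ) * lam ^ m ≤ 4 * (k : ℝ) * lam ^ m := by
          have : ((k - 1 : ℕ) : ℝ) ≤ (k : ℝ) := by exact_mod_cast Nat.sub_le k 1
          nlinarith
        by_cases hu : ∃ u ∈ W.erase v, G.Adj v u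
        · obtain ⟨u, hu, hau⟩ := hu
          have := rep_leaf h0 h1 (notMem_erase v W) hu h4 hau.symm (fun y hy ha =>
            hvn y (mem_of_mem_erase hy) u (mem_of_mem_erase hu) ha hau) h3
          rw [insert_erase hv] at this
          exact this.mono h5
        · push Not at hu
          have := rep_isolated h0 h1 (notMem_erase v W) h4 hu h3
          rw [insert_erase hv] at this
          exact this.mono h5
      · have hlt : (rest W m p).card < k := by
          rw [← hW]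
          apply card_lt_card
          refine ⟨rest_subset, fun hsub => ?_⟩
          exact (mem_rest.1 (hsub (hP.mem 1 (by omega)))).2 1 (by omega) (by omega) rfl
        have h3 := ih (rest W m p).card hlt _ rfl (by omega)
        have h4 : 0 ≤ 4 * ((rest W m p).card : ℝ) * lam ^ m := by positivity
        refine (rep_path h0 h1 hl hP h3).mono ?_
        have : ((rest W m p).card : ℝ) + 1 ≤ (k : ℝ) := by exact_mod_cast hlt
        nlinarith

end Pool.Agent.H1.SA
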