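import Pool.Agent.H1.SA.Walk

/-!
Vectors for the kernel `lam ^ distance` of a graph which can be peeled.
-/

set_option autoImplicit false

namespace Pool.Agent.H1.SA

open Finset

variable {V : Type} {G : SimpleGraph V} {W W' : Finset V} {x y z : V} {n k : ℕ} {lam : ℝ}

/-- Upper bounds for the kernel from a function which decreases slowly along edges. -/
theorem kap_le_super (f : V → ℝ) (hf : ∀ y ∈ W, 0 ≤ f y) (hx : 1 ≤ f x) (h0 : 0 ≤ lam)
    (hs : ∀ y ∈ W, ∀ y' ∈ W, G.Adj y y' → lam * f y ≤ f y') (hy : y ∈ W) :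
    kap G W lam x y ≤ f y := by
  refine kap_le (hf y hy) ?_
  intro n
  induction n generalizing y with
  | zero =>
    rintro ⟨h, _⟩
    subst h
    simpa using hx
  | succ n ih =>
    rintro ⟨z, h1, h2, h3⟩
    have hz := h1.snd_mem
    have := ih hz h1
    have h4 := hs z hz y hy h2
    calc lam ^ (n + 1) = lam * lam ^ n := by ring
      _ ≤ lam * f z := mul_le_mul_of_nonneg_left this h0
      _ ≤ f y := h4

theorem kap_adj (h0 : 0 ≤ lam) (h1 : lam ≤ 1) (hz : z ∈ W) (ha : G.Adj y z) :
    lam * kap G W lam x y ≤ kap G W lam x z := by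
  rcases eq_or_lt_of_le h0 with h | h
  · rw [← h, zero_mul]; exact kap_nonneg le_rfl zero_le_one
  · have : kap G W lam x y ≤ kap G W lam x z / lam := by
      refine kap_le (div_nonneg (kap_nonneg h0 h1) h0) ?_
      intro n hn
      rw [le_div_iff₀ h]
      have := kap_ge h0 h1 (hn.snoc ha hz)
      rw [pow_succ] at this
      exact this
    rw [le_div_iff₀ h] at this
    linarith

theorem kap_adj_left (h0 : 0 ≤ lam) (h1 : lam ≤ 1) (hz : z ∈ W) (ha : G.Adj y z) :
    lam * kap G W lam y x ≤ kap G W lam z x := by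
  rw [kap_symm y x, kap_symm z x]
  exact kap_adj h0 h1 hz ha

theorem kap_chain (h0 : 0 ≤ lam) (h1 : lam ≤ 1) (p : ℕ → V) (hp : ∀ i < n, G.Adj (p i) (p (i + 1)))
    (hm : ∀ i ≤ n, p i ∈ W) : lam ^ n * kap G W lam x (p 0) ≤ kap G W lam x (p n) := by
  induction n with
  | zero => simp
  | succ n ih =>
    have h2 := ih (fun i hi => hp i (by omega)) (fun i hi => hm i (by omega))
    have h3 := kap_adj (x := x) h0 h1 (hm (n + 1) le_rfl) (hp n (by omega))
    calc lam ^ (n + 1) * kap G W lam x (p 0) = lam * (lam ^ n * kap G W lam x (p 0)) := by ring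
      _ ≤ lam * kap G W lam x (p n) := mul_le_mul_of_nonneg_left h2 h0
      _ ≤ _ := h3

/-! ### Adding a vertex with at most one neighbour -/

theorem rep_isolated {e : ℝ} {v : V} (h0 : 0 ≤ lam) (h1 : lam ≤ 1) [DecidableEq V]
    (hv : v ∉ W') (he : 0 ≤ e) (hn : ∀ y ∈ W', ¬ G.Adj v y) (h : Rep G W' lam e) :
    Rep G (insert v W') lam e := by
  obtain ⟨J, _, φ, hφ⟩ := h
  classical
  have hk : ∀ x ∈ W', ∀ y ∈ W', kap G (insert v W') lam x y = kap G W' lam x y := by
    intro x hx y hy
    refine le_antisymm ?_ (kap_mono h0 h1 (subset_insert _ _))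
    have := kap_le_super (G := G) (W := insert v W') (x := x) (y := y) (lam := lam)
      (fun y => if y ∈ W' then kap G W' lam x y else 0) ?_ ?_ h0 ?_ (mem_insert_of_mem hy)
    · simpa [hy] using this
    · intro y _
      split_ifs
      · exact kap_nonneg h0 h1
      · exact le_rfl
    · simp only [hx, if_true]
      rw [kap_self h0 h1 hx]
    · intro y hy y' hy' ha
      rcases mem_insert.1 hy with rfl | hyW
      · simp only [hv, if_false, mul_zero]
        split_ifs
        · exact kap_nonneg h0 h1
        · exact le_rfl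
      rcases mem_insert.1 hy' with rfl | hyW'
      · exact absurd ha.symm (hn y hyW)
      · simp only [hyW, hyW', if_true]
        exact kap_adj h0 h1 hyW' ha
  have hkv : ∀ x ∈ W', kap G (insert v W') lam x v = 0 := by
    intro x hx
    refine le_antisymm ?_ (kap_nonneg h0 h1)
    have := kap_le_super (G := G) (W := insert v W') (x := x) (y := v) (lam := lam)
      (fun y => if y = v then 0 else 1) ?_ ?_ h0 ?_ (mem_insert_self _ _)
    · simpa using this
    · intro y _
      split_ifs <;> norm_num
    · have : x ≠ v := fun h => hv (h ▸ hx)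
      simp [this]
    · intro y hy y' hy' ha
      rcases mem_insert.1 hy with rfl | hyW
      · simp only [if_true, mul_zero]
        split_ifs <;> norm_num
      rcases mem_insert.1 hy' with rfl | hyW'
      · exact absurd ha.symm (hn y hyW)
      · have h3 : y ≠ v := fun h => hv (h ▸ hyW)
        have h4 : y' ≠ v := fun h => hv (h ▸ hyW')
        simp only [h3, h4, if_false, mul_one]
        exact h1
  refine ⟨J ⊕ Unit, inferInstance, fun x => if x = v then Sum.elim 0 1 else Sum.elim (φ x) 0, ?_⟩
  intro x hx y hy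
  rcases mem_insert.1 hx with rfl | hxW
  · rcases mem_insert.1 hy with rfl | hyW
    · simp only [if_true]
      rw [ip_elim, ip_zero_left, kap_self h0 h1 (mem_insert_self _ _)]
      simpa [ip] using he
    · have h3 : y ≠ x := fun h => hv (h ▸ hyW)
      simp only [if_true, h3, if_false]
      rw [ip_elim, ip_zero_left, ip_zero_right, kap_symm, hkv y hyW]
      simpa using he
  · have h2 : x ≠ v := fun h => hv (h ▸ hxW)
    rcases mem_insert.1 hy with rfl | hyW
    · simp only [if_true, h2, if_false]
      rw [ip_elim, ip_zero_left, ip_zero_right, hkv x hxW]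
      simpa using he
    · have h3 : y ≠ v := fun h => hv (h ▸ hyW)
      simp only [h2, h3, if_false]
      rw [ip_elim, ip_zero_left, hk x hxW y hyW, add_zero]
      exact hφ x hxW y hyW

theorem rep_leaf {e : ℝ} {u v : V} (h0 : 0 ≤ lam) (h1 : lam ≤ 1) [DecidableEq V]
    (hv : v ∉ W') (hu : u ∈ W') (he : 0 ≤ e) (ha : G.Adj u v)
    (hn : ∀ y ∈ W', G.Adj v y → y = u) (h : Rep G W' lam e) :
    Rep G (insert v W') lam e := by
  obtain ⟨J, _, φ, hφ⟩ := h
  classical
  have hf : ∀ x ∈ W', ∀ y ∈ insert v W', kap G (insert v W') lam x y ≤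
      if y = v then lam * kap G W' lam x u else kap G W' lam x y := by
    intro x hx y hy
    refine kap_le_super (G := G) (W := insert v W') (x := x) (y := y) (lam := lam)
      (fun y => if y = v then lam * kap G W' lam x u else kap G W' lam x y) ?_ ?_ h0 ?_ hy
    · intro y _
      split_ifs
      · exact mul_nonneg h0 (kap_nonneg h0 h1)
      · exact kap_nonneg h0 h1
    · have h3 : x ≠ v := fun h => hv (h ▸ hx)
      simp only [h3, if_false]
      rw [kap_self h0 h1 hx]
    · intro y hy y' hy' ha'
      rcases mem_insert.1 hy with rfl | hyW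
      · rcases mem_insert.1 hy' with rfl | hyW'
        · exact absurd ha' (G.loopless.irrefl _)
        · have h3 : y' ≠ y := fun h => hv (h ▸ hyW')
          have h4 := hn y' hyW' ha'
          subst h4
          simp only [if_true, h3, if_false]
          have h5 := kap_nonneg (G := G) (W := W') (x := x) (y := y') h0 h1
          have h6 : lam * lam ≤ 1 := by nlinarith
          nlinarith
      · have h3 : y ≠ v := fun h => hv (h ▸ hyW)
        rcases mem_insert.1 hy' with rfl | hyW'
        · have h4 := hn y hyW ha'.symm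
          subst h4
          simp only [if_true, h3, if_false]
          exact le_rfl
        · have h4 : y' ≠ v := fun h => hv (h ▸ hyW')
          simp only [h3, h4, if_false]
          exact kap_adj h0 h1 hyW' ha'
  have hk : ∀ x ∈ W', ∀ y ∈ W', kap G (insert v W') lam x y = kap G W' lam x y := by
    intro x hx y hy
    refine le_antisymm ?_ (kap_mono h0 h1 (subset_insert _ _))
    have h3 : y ≠ v := fun h => hv (h ▸ hy)
    simpa [h3] using hf x hx y (mem_insert_of_mem hy)
  have hkv : ∀ x ∈ W', kap G (insert v W') lam x v = lam * kap G W' lam x u := by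
    intro x hx
    refine le_antisymm ?_ ?_
    · simpa using hf x hx v (mem_insert_self _ _)
    · rw [← hk x hx u hu]
      exact kap_adj h0 h1 (mem_insert_self _ _) ha
  have hs : Real.sqrt (1 - lam ^ 2) * Real.sqrt (1 - lam ^ 2) = 1 - lam ^ 2 :=
    Real.mul_self_sqrt (by nlinarith)
  refine ⟨J ⊕ Unit, inferInstance, fun x => if x = v then
    Sum.elim (lam • φ u) (fun _ => Real.sqrt (1 - lam ^ 2)) else Sum.elim (φ x) 0, ?_⟩
  have e1 : |ip (φ u) (φ u) - 1| ≤ e := by
    have := hφ u hu u hu
    rwa [kap_self h0 h1 hu] at this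
  have hxv : ∀ x ∈ W', |lam * ip (φ x) (φ u) - lam * kap G W' lam x u| ≤ e := by
    intro x hx
    rw [← mul_sub, abs_mul, abs_of_nonneg h0]
    have := hφ x hx u hu
    have h3 := abs_nonneg (ip (φ x) (φ u) - kap G W' lam x u)
    nlinarith
  intro x hx y hy
  rcases mem_insert.1 hx with rfl | hxW
  · rcases mem_insert.1 hy with rfl | hyW
    · simp only [if_true]
      rw [ip_elim, kap_self h0 h1 (mem_insert_self _ _), ip_smul_left, ip_smul_right]
      have h4 : ip (fun _ : Unit => Real.sqrt (1 - lam ^ 2))
          (fun _ : Unit => Real.sqrt (1 - lam ^ 2)) = 1 - lam ^ 2 := by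
        simp [ip, hs]
      rw [h4]
      have h5 : lam * (lam * ip (φ u) (φ u)) + (1 - lam ^ 2) - 1 =
          lam ^ 2 * (ip (φ u) (φ u) - 1) := by ring
      rw [h5, abs_mul, abs_of_nonneg (by positivity)]
      have h6 := abs_nonneg (ip (φ u) (φ u) - 1)
      have h7 : lam ^ 2 ≤ 1 := by nlinarith
      nlinarith
    · have h3 : y ≠ x := fun h => hv (h ▸ hyW)
      simp only [if_true, h3, if_false]
      rw [ip_elim, ip_zero_right, kap_symm, hkv y hyW, add_zero, ip_smul_left, ip_comm]
      exact hxv y hyW
  · have h2 : x ≠ v := fun h => hv (h ▸ hxW)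
    rcases mem_insert.1 hy with rfl | hyW
    · simp only [if_true, h2, if_false]
      rw [ip_elim, ip_zero_left, hkv x hxW, add_zero, ip_smul_right]
      exact hxv x hxW
    · have h3 : y ≠ v := fun h => hv (h ▸ hyW)
      simp only [h2, h3, if_false]
      rw [ip_elim, ip_zero_left, hk x hxW y hyW, add_zero]
      exact hφ x hxW y hyW

end Pool.Agent.H1.SA
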