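import Mathlib

/-!
Walks inside finite sets of vertices and the kernel `lam ^ distance`.
-/

set_option autoImplicit false

namespace Pool.Agent.H1.SA

open Finset

variable {V : Type}

/-- There is a walk of length `n` from `x` to `y` inside of `W`. -/
def Wk (G : SimpleGraph V) (W : Finset V) : ℕ → V → V → Prop
  | 0, x, y => x = y ∧ x ∈ W
  | n + 1, x, y => ∃ z, Wk G W n x z ∧ G.Adj z y ∧ y ∈ W

variable {G : SimpleGraph V} {W W' : Finset V} {x y z : V} {n k : ℕ}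

theorem Wk.fst_mem : ∀ {n : ℕ} {y : V}, Wk G W n x y → x ∈ W
  | 0, _, h => h.2
  | _ + 1, _, ⟨_, h, _, _⟩ => Wk.fst_mem h

theorem Wk.snd_mem : ∀ {n : ℕ} {y : V}, Wk G W n x y → y ∈ W
  | 0, _, h => h.1 ▸ h.2
  | _ + 1, _, ⟨_, _, _, h⟩ => h

theorem Wk.refl (h : x ∈ W) : Wk G W 0 x x := ⟨rfl, h⟩

theorem Wk.snoc (h : Wk G W n x z) (ha : G.Adj z y) (hy : y ∈ W) : Wk G W (n + 1) x y :=
  ⟨z, h, ha, hy⟩

theorem Wk.cons (ha : G.Adj x z) (hx : x ∈ W) : ∀ {n : ℕ} {y : V}, Wk G W n z y →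
    Wk G W (n + 1) x y
  | 0, y, h => by
    obtain ⟨h1, h2⟩ := h
    subst h1
    exact ⟨x, ⟨rfl, hx⟩, ha, h2⟩
  | n + 1, y, ⟨w, h1, h2, h3⟩ => ⟨w, Wk.cons ha hx h1, h2, h3⟩

theorem Wk.symm : ∀ {n : ℕ} {y : V}, Wk G W n x y → Wk G W n y x
  | 0, _, h => ⟨h.1.symm, h.1 ▸ h.2⟩
  | _ + 1, _, ⟨_, h1, h2, h3⟩ => Wk.cons h2.symm h3 (Wk.symm h1)

theorem Wk.mono (hW : W ⊆ W') : ∀ {n : ℕ} {y : V}, Wk G W n x y → Wk G W' n x y
  | 0, _, h => ⟨h.1, hW h.2⟩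
  | _ + 1, _, ⟨w, h1, h2, h3⟩ => ⟨w, Wk.mono hW h1, h2, hW h3⟩

theorem Wk.trans (h : Wk G W n x y) : ∀ {k : ℕ} {z : V}, Wk G W k y z → Wk G W (n + k) x z
  | 0, _, h' => h'.1 ▸ h
  | _ + 1, _, ⟨w, h1, h2, h3⟩ => ⟨w, Wk.trans h h1, h2, h3⟩

/-- `lam` to the power of the distance inside of `W` (zero if there is no walk). -/
noncomputable def kap (G : SimpleGraph V) (W : Finset V) (lam : ℝ) (x y : V) : ℝ :=
  sSup (insert 0 {t : ℝ | ∃ n, Wk G W n x y ∧ t = lam ^ n})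

variable {lam : ℝ}

theorem kap_bdd (h0 : 0 ≤ lam) (h1 : lam ≤ 1) (x y : V) :
    BddAbove (insert 0 {t : ℝ | ∃ n, Wk G W n x y ∧ t = lam ^ n}) := by
  refine ⟨1, ?_⟩
  rintro t (rfl | ⟨n, _, rfl⟩)
  · exact zero_le_one
  · exact pow_le_one₀ h0 h1

theorem kap_ge (h0 : 0 ≤ lam) (h1 : lam ≤ 1) (h : Wk G W n x y) : lam ^ n ≤ kap G W lam x y :=
  le_csSup (kap_bdd h0 h1 x y) (Or.inr ⟨n, h, rfl⟩)

theorem kap_nonneg (h0 : 0 ≤ lam) (h1 : lam ≤ 1) : 0 ≤ kap G W lam x y :=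
  le_csSup (kap_bdd h0 h1 x y) (Or.inl rfl)

theorem kap_le {B : ℝ} (hB : 0 ≤ B) (h : ∀ n, Wk G W n x y → lam ^ n ≤ B) :
    kap G W lam x y ≤ B := by
  refine csSup_le ⟨0, Or.inl rfl⟩ ?_
  rintro t (rfl | ⟨n, hn, rfl⟩)
  · exact hB
  · exact h n hn

theorem kap_le_one (h0 : 0 ≤ lam) (h1 : lam ≤ 1) : kap G W lam x y ≤ 1 :=
  kap_le zero_le_one fun _ _ => pow_le_one₀ h0 h1

theorem kap_self (h0 : 0 ≤ lam) (h1 : lam ≤ 1) (hx : x ∈ W) : kap G W lam x x = 1 :=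
  le_antisymm (kap_le_one h0 h1) (by simpa using kap_ge h0 h1 (Wk.refl hx) (G := G) (lam := lam))

theorem kap_symm (x y : V) : kap G W lam x y = kap G W lam y x := by
  unfold kap
  congr 2
  ext t
  constructor
  · rintro ⟨n, h, rfl⟩; exact ⟨n, h.symm, rfl⟩
  · rintro ⟨n, h, rfl⟩; exact ⟨n, h.symm, rfl⟩

theorem kap_mono (h0 : 0 ≤ lam) (h1 : lam ≤ 1) (hW : W ⊆ W') :
    kap G W lam x y ≤ kap G W' lam x y :=
  kap_le (kap_nonneg h0 h1) fun _ hn => kap_ge h0 h1 (hn.mono hW)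

/-- Inner product. -/
def ip {J : Type} [Fintype J] (a b : J → ℝ) : ℝ := ∑ j, a j * b j

theorem ip_comm {J : Type} [Fintype J] (a b : J → ℝ) : ip a b = ip b a := by
  unfold ip
  exact Finset.sum_congr rfl fun j _ => mul_comm _ _

theorem ip_elim {J K : Type} [Fintype J] [Fintype K] (a b : J → ℝ) (c d : K → ℝ) :
    ip (Sum.elim a c) (Sum.elim b d) = ip a b + ip c d := by
  unfold ip
  rw [Fintype.sum_sum_type]
  simp

theorem ip_add_left {J : Type} [Fintype J] (a b c : J → ℝ) : ip (a + b) c = ip a c + ip b c := by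
  unfold ip
  rw [← Finset.sum_add_distrib]
  exact Finset.sum_congr rfl fun j _ => by simp only [Pi.add_apply]; ring

theorem ip_add_right {J : Type} [Fintype J] (a b c : J → ℝ) : ip a (b + c) = ip a b + ip a c := by
  rw [ip_comm, ip_add_left, ip_comm b, ip_comm c]

theorem ip_smul_left {J : Type} [Fintype J] (r : ℝ) (a b : J → ℝ) : ip (r • a) b = r * ip a b := by
  unfold ip
  rw [Finset.mul_sum]
  exact Finset.sum_congr rfl fun j _ => by simp only [Pi.smul_apply, smul_eq_mul]; ring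

theorem ip_smul_right {J : Type} [Fintype J] (r : ℝ) (a b : J → ℝ) : ip a (r • b) = r * ip a b := by
  rw [ip_comm, ip_smul_left, ip_comm]

theorem ip_zero_left {J : Type} [Fintype J] (a : J → ℝ) : ip 0 a = 0 := by
  unfold ip; simp

theorem ip_zero_right {J : Type} [Fintype J] (a : J → ℝ) : ip a 0 = 0 := by
  unfold ip; simp

theorem ip_sub_left {J : Type} [Fintype J] (a b c : J → ℝ) : ip (a - b) c = ip a c - ip b c := by
  unfold ip
  rw [← Finset.sum_sub_distrib]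
  exact Finset.sum_congr rfl fun j _ => by simp only [Pi.sub_apply]; ring

theorem ip_sub_right {J : Type} [Fintype J] (a b c : J → ℝ) : ip a (b - c) = ip a b - ip a c := by
  rw [ip_comm, ip_sub_left, ip_comm b, ip_comm c]

/-- The kernel `lam ^ distance` of `W` is the matrix of inner products of some vectors up to an
error `e`. -/
def Rep (G : SimpleGraph V) (W : Finset V) (lam e : ℝ) : Prop :=
  ∃ (J : Type) (_ : Fintype J) (φ : V → J → ℝ), ∀ x ∈ W, ∀ y ∈ W,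
    |ip (φ x) (φ y) - kap G W lam x y| ≤ e

theorem Rep.mono {e e' : ℝ} (h : Rep G W lam e) (he : e ≤ e') : Rep G W lam e' := by
  obtain ⟨J, i, φ, hφ⟩ := h
  exact ⟨J, i, φ, fun x hx y hy => (hφ x hx y hy).trans he⟩

theorem rep_empty : Rep G (∅ : Finset V) lam 0 :=
  ⟨Unit, inferInstance, fun _ _ => 0, fun x hx => absurd hx (Finset.notMem_empty x)⟩

end Pool.Agent.H1.SA
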